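import Mathlib

set_option autoImplicit false

namespace Pool.Agent.TH97.KP.NCut

variable {A : Type} [Group A] {ι : Type} [Fintype ι] (gen : ι → A)

/-- Edge boundary of a set in the (right) Cayley graph; the edge `(a, i)` joins `a` and `a * gen i`. -/
def bd (X : Set A) : Set (A × ι) := {e | ¬ (e.1 ∈ X ↔ e.1 * gen e.2 ∈ X)}

/-- Left translate `aX`. -/
def tr (a : A) (X : Set A) : Set A := {x | a⁻¹ * x ∈ X}

/-- Right invariance under a subgroup. -/
def RInv (Z : Subgroup A) (X : Set A) : Prop := ∀ x, ∀ z ∈ Z, (x * z ∈ X ↔ x ∈ X)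

/-- A cut: finite boundary, infinite, infinite complement. -/
def IsCut (X : Set A) : Prop := (bd gen X).Finite ∧ X.Infinite ∧ Xᶜ.Infinite

/-- Nested sets. -/
def Nested (X Y : Set A) : Prop := X ⊆ Y ∨ Y ⊆ X ∨ X ⊆ Yᶜ ∨ Xᶜ ⊆ Y

theorem mem_bd {gen : ι → A} {X : Set A} {e : A × ι} :
    e ∈ bd gen X ↔ ¬ (e.1 ∈ X ↔ e.1 * gen e.2 ∈ X) := Iff.rfl

theorem bd_compl (X : Set A) : bd gen Xᶜ = bd gen X := by
  ext e
  rw [mem_bd, mem_bd, Set.mem_compl_iff, Set.mem_compl_iff]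
  tauto

theorem bd_empty_imp {Z : Subgroup A} (hgen : Subgroup.closure (Set.range gen) ⊔ Z = ⊤) (X : Set A)
    (hR : RInv Z X) (h : bd gen X = ∅) : X = ∅ ∨ X = Set.univ := by
  have h1 : ∀ a i, (a ∈ X ↔ a * gen i ∈ X) := by
    intro a i
    by_contra hc
    have : (a, i) ∈ bd gen X := hc
    rw [h] at this
    exact this
  have h2 : ∀ g : A, ∀ a, (a ∈ X ↔ a * g ∈ X) := by
    intro g
    have hg : g ∈ Subgroup.closure (Set.range gen ∪ (Z : Set A)) := by
      rw [Subgroup.closure_union, Subgroup.closure_eq, hgen]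
      trivial
    induction hg using Subgroup.closure_induction with
    | mem x hx =>
      rcases hx with ⟨i, rfl⟩ | hx
      · exact fun a => h1 a i
      · exact fun a => (hR a x hx).symm
    | one => intro a; rw [mul_one]
    | mul x y _ _ hx hy => intro a; rw [← mul_assoc, ← hy, ← hx]
    | inv x _ hx => intro a; rw [hx (a * x⁻¹), inv_mul_cancel_right]
  rcases Set.eq_empty_or_nonempty X with h3 | ⟨x, hx⟩
  · exact Or.inl h3
  · right
    ext g
    refine ⟨fun _ => trivial, fun _ => ?_⟩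
    have := (h2 (x⁻¹ * g) x).mp hx
    rwa [mul_inv_cancel_left] at this

theorem RInv.inter {Z : Subgroup A} {X Y : Set A} (hX : RInv Z X) (hY : RInv Z Y) :
    RInv Z (X ∩ Y) := by
  intro x z hz
  rw [Set.mem_inter_iff, Set.mem_inter_iff, hX x z hz, hY x z hz]

theorem RInv.union {Z : Subgroup A} {X Y : Set A} (hX : RInv Z X) (hY : RInv Z Y) :
    RInv Z (X ∪ Y) := by
  intro x z hz
  rw [Set.mem_union, Set.mem_union, hX x z hz, hY x z hz]

theorem RInv.compl {Z : Subgroup A} {X : Set A} (hX : RInv Z X) : RInv Z Xᶜ := by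
  intro x z hz
  rw [Set.mem_compl_iff, Set.mem_compl_iff, hX x z hz]

theorem RInv.tr {Z : Subgroup A} {X : Set A} (hX : RInv Z X) (a : A) : RInv Z (tr a X) := by
  intro x z hz
  unfold NCut.tr
  rw [Set.mem_ofPred_eq, Set.mem_ofPred_eq, ← mul_assoc, hX _ z hz]

theorem bd_tr (a : A) (X : Set A) : bd gen (tr a X) = (fun e : A × ι => (a * e.1, e.2)) '' bd gen X := by
  ext ⟨g, i⟩
  constructor
  · intro h
    refine ⟨(a⁻¹ * g, i), ?_, ?_⟩
    · rw [mem_bd] at h ⊢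
      unfold tr at h
      simp only [Set.mem_ofPred_eq] at h ⊢
      rwa [mul_assoc]
    · simp only [mul_inv_cancel_left]
  · rintro ⟨⟨g', i'⟩, h, he⟩
    simp only [Prod.mk.injEq] at he
    obtain ⟨rfl, rfl⟩ := he
    rw [mem_bd] at h ⊢
    unfold tr
    simp only [Set.mem_ofPred_eq] at h ⊢
    rwa [mul_assoc, inv_mul_cancel_left, inv_mul_cancel_left]

theorem inj_shift (a : A) : Function.Injective (fun e : A × ι => (a * e.1, e.2)) := by
  intro e f h
  simp only [Prod.mk.injEq, mul_right_inj] at h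
  exact Prod.ext h.1 h.2

theorem tr_eq_image (a : A) (X : Set A) : tr a X = (fun x => a * x) '' X := by
  ext x
  constructor
  · intro h
    exact ⟨a⁻¹ * x, h, by simp only [mul_inv_cancel_left]⟩
  · rintro ⟨y, hy, rfl⟩
    unfold tr
    simp only [Set.mem_ofPred_eq, inv_mul_cancel_left]
    exact hy

theorem tr_compl (a : A) (X : Set A) : tr a Xᶜ = (tr a X)ᶜ := rfl

theorem tr_infinite (a : A) (X : Set A) (h : X.Infinite) : (tr a X).Infinite := by
  rw [tr_eq_image]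
  exact h.image (mul_right_injective a).injOn

theorem IsCut.compl {X : Set A} (h : IsCut gen X) : IsCut gen Xᶜ := by
  refine ⟨?_, h.2.2, ?_⟩
  · rw [bd_compl]; exact h.1
  · rw [compl_compl]; exact h.2.1

theorem IsCut.tr {X : Set A} (h : IsCut gen X) (a : A) : IsCut gen (tr a X) := by
  refine ⟨?_, tr_infinite a X h.2.1, ?_⟩
  · rw [bd_tr]; exact h.1.image _
  · rw [← tr_compl]; exact tr_infinite a _ h.2.2

/-- good cuts -/
def GC (Z : Subgroup A) (X : Set A) : Prop := RInv Z X ∧ IsCut gen X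

/-- minimal good cuts -/
def Mn (Z : Subgroup A) (X : Set A) : Prop :=
  GC gen Z X ∧ ∀ Y, GC gen Z Y → (bd gen X).ncard ≤ (bd gen Y).ncard

theorem Mn.compl {Z : Subgroup A} {X : Set A} (h : Mn gen Z X) : Mn gen Z Xᶜ := by
  refine ⟨⟨h.1.1.compl, IsCut.compl gen h.1.2⟩, fun Y hY => ?_⟩
  rw [bd_compl]
  exact h.2 Y hY

theorem Mn.tr {Z : Subgroup A} {X : Set A} (h : Mn gen Z X) (a : A) : Mn gen Z (tr a X) := by
  refine ⟨⟨h.1.1.tr a, IsCut.tr gen h.1.2 a⟩, fun Y hY => ?_⟩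
  rw [bd_tr, Set.ncard_image_of_injective _ (inj_shift a)]
  exact h.2 Y hY

theorem Mn.eq {Z : Subgroup A} {X Y : Set A} (h : Mn gen Z X) (h2 : Mn gen Z Y) :
    (bd gen X).ncard = (bd gen Y).ncard :=
  le_antisymm (h.2 Y h2.1) (h2.2 X h.1)

theorem bd_inter_sub (X Y : Set A) : bd gen (X ∩ Y) ⊆ bd gen X ∪ bd gen Y := by
  intro e he
  rw [Set.mem_union, mem_bd, mem_bd]
  rw [mem_bd, Set.mem_inter_iff, Set.mem_inter_iff] at he
  tauto

theorem bd_union_sub (X Y : Set A) : bd gen (X ∪ Y) ⊆ bd gen X ∪ bd gen Y := by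
  intro e he
  rw [Set.mem_union, mem_bd, mem_bd]
  rw [mem_bd, Set.mem_union, Set.mem_union] at he
  tauto

theorem submod (X Y : Set A) (hX : (bd gen X).Finite) (hY : (bd gen Y).Finite) :
    (bd gen (X ∩ Y)).ncard + (bd gen (X ∪ Y)).ncard ≤ (bd gen X).ncard + (bd gen Y).ncard := by
  have hi : (bd gen (X ∩ Y)).Finite := (hX.union hY).subset (bd_inter_sub gen X Y)
  have hu : (bd gen (X ∪ Y)).Finite := (hX.union hY).subset (bd_union_sub gen X Y)
  rw [← Set.ncard_union_add_ncard_inter _ _ hi hu, ← Set.ncard_union_add_ncard_inter _ _ hX hY]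
  apply Nat.add_le_add
  · exact Set.ncard_le_ncard (Set.union_subset (bd_inter_sub gen X Y) (bd_union_sub gen X Y))
      (hX.union hY)
  · refine Set.ncard_le_ncard ?_ (hX.inter_of_left _)
    intro e he
    rw [Set.mem_inter_iff, mem_bd, mem_bd, Set.mem_inter_iff, Set.mem_inter_iff, Set.mem_union,
      Set.mem_union] at he
    rw [Set.mem_inter_iff, mem_bd, mem_bd]
    tauto

theorem Mn.uncross {Z : Subgroup A} {X Y : Set A} (hX : Mn gen Z X) (hY : Mn gen Z Y)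
    (h1 : (X ∩ Y).Infinite) (h2 : ((X ∪ Y)ᶜ).Infinite) :
    Mn gen Z (X ∩ Y) ∧ Mn gen Z (X ∪ Y) := by
  have hsub := submod gen X Y hX.1.2.1 hY.1.2.1
  have hfi : (bd gen (X ∩ Y)).Finite := (hX.1.2.1.union hY.1.2.1).subset (bd_inter_sub gen X Y)
  have hfu : (bd gen (X ∪ Y)).Finite := (hX.1.2.1.union hY.1.2.1).subset (bd_union_sub gen X Y)
  have g1 : GC gen Z (X ∩ Y) := by
    refine ⟨hX.1.1.inter hY.1.1, hfi, h1, hX.1.2.2.2.mono ?_⟩
    exact Set.compl_subset_compl.mpr Set.inter_subset_left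
  have g2 : GC gen Z (X ∪ Y) := by
    refine ⟨hX.1.1.union hY.1.1, hfu, hX.1.2.2.1.mono Set.subset_union_left, h2⟩
  have e1 := hX.2 _ g1
  have e2 := hX.2 _ g2
  have e3 := hX.eq gen hY
  refine ⟨⟨g1, fun W hW => ?_⟩, ⟨g2, fun W hW => ?_⟩⟩
  · have := hX.2 W hW; omega
  · have := hX.2 W hW; omega

/-- splitting -/
theorem Mn.split {Z : Subgroup A} (hgen : Subgroup.closure (Set.range gen) ⊔ Z = ⊤) {X Y : Set A}
    (hY : Mn gen Z Y) (hX : RInv Z X) (h1 : bd gen (Y ∩ X) ⊆ bd gen Y)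
    (h2 : bd gen (Y ∩ Xᶜ) ⊆ bd gen Y) (h3 : Disjoint (bd gen (Y ∩ X)) (bd gen (Y ∩ Xᶜ))) :
    Y ∩ X = ∅ ∨ Y ∩ Xᶜ = ∅ := by
  have hf := hY.1.2.1
  have hsum : (bd gen (Y ∩ X)).ncard + (bd gen (Y ∩ Xᶜ)).ncard ≤ (bd gen Y).ncard := by
    rw [← Set.ncard_union_eq h3 (hf.subset h1) (hf.subset h2)]
    exact Set.ncard_le_ncard (Set.union_subset h1 h2) hf
  have key : ∀ V : Set A, RInv Z V → bd gen (Y ∩ V) ⊆ bd gen Y → bd gen (Y ∩ Vᶜ) ⊆ bd gen Y →
      (bd gen (Y ∩ V)).ncard + (bd gen (Y ∩ Vᶜ)).ncard ≤ (bd gen Y).ncard →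
      (Y ∩ V).Infinite → Y ∩ Vᶜ = ∅ := by
    intro V hV s1 s2 s3 hinf
    have g : GC gen Z (Y ∩ V) := by
      refine ⟨hY.1.1.inter hV, hf.subset s1, hinf, hY.1.2.2.2.mono ?_⟩
      exact Set.compl_subset_compl.mpr Set.inter_subset_left
    have e1 := hY.2 _ g
    have e2 : (bd gen (Y ∩ Vᶜ)).ncard = 0 := by omega
    rw [Set.ncard_eq_zero (hf.subset s2)] at e2
    rcases bd_empty_imp gen hgen _ (hY.1.1.inter hV.compl) e2 with h | h
    · exact h
    · exfalso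
      have h5 : Yᶜ.Nonempty := hY.1.2.2.2.nonempty
      obtain ⟨x, hx⟩ := h5
      have : x ∈ Y ∩ Vᶜ := by rw [h]; trivial
      exact hx this.1
  have hinf : (Y ∩ X).Infinite ∨ (Y ∩ Xᶜ).Infinite := by
    by_contra hc
    rw [not_or, Set.not_infinite, Set.not_infinite] at hc
    have := hc.1.union hc.2
    rw [← Set.inter_union_distrib_left, Set.union_compl_self, Set.inter_univ] at this
    exact hY.1.2.2.1 this
  rcases hinf with h | h
  · right
    exact key X hX h1 h2 hsum h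
  · left
    have := key Xᶜ hX.compl h2 (by rwa [compl_compl]) (by rw [compl_compl]; omega) h
    rwa [compl_compl] at this

/-- crossing -/
def Cross (X Y : Set A) : Prop :=
  (X ∩ Y).Nonempty ∧ (X ∩ Yᶜ).Nonempty ∧ (Xᶜ ∩ Y).Nonempty ∧ (Xᶜ ∩ Yᶜ).Nonempty

/-- endpoints of the boundary -/
def Ends (X : Set A) : Set A := {a | ∃ e ∈ bd gen X, a = e.1 ∨ a = e.1 * gen e.2}

theorem Ends_finite {X : Set A} (h : (bd gen X).Finite) : (Ends gen X).Finite := by
  have : Ends gen X = Prod.fst '' bd gen X ∪ (fun e : A × ι => e.1 * gen e.2) '' bd gen X := by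
    ext a
    constructor
    · rintro ⟨e, he, h | h⟩
      · exact Or.inl ⟨e, he, h.symm⟩
      · exact Or.inr ⟨e, he, h.symm⟩
    · rintro (⟨e, he, h⟩ | ⟨e, he, h⟩)
      · exact ⟨e, he, Or.inl h.symm⟩
      · exact ⟨e, he, Or.inr h.symm⟩
  rw [this]
  exact (h.image _).union (h.image _)

theorem Cross.hits {Z : Subgroup A} (hgen : Subgroup.closure (Set.range gen) ⊔ Z = ⊤) {X Y : Set A}
    (hX : Mn gen Z X) (hY : Mn gen Z Y) (h1 : (Y ∩ X).Nonempty) (h2 : (Y ∩ Xᶜ).Nonempty) :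
    (Y ∩ Ends gen X).Nonempty := by
  by_contra hc
  rw [Set.not_nonempty_iff_eq_empty] at hc
  have hno : ∀ e ∈ bd gen X, e.1 ∉ Y ∧ e.1 * gen e.2 ∉ Y := by
    intro e he
    constructor
    · intro h
      have : e.1 ∈ Y ∩ Ends gen X := ⟨h, e, he, Or.inl rfl⟩
      rw [hc] at this
      exact this
    · intro h
      have : e.1 * gen e.2 ∈ Y ∩ Ends gen X := ⟨h, e, he, Or.inr rfl⟩
      rw [hc] at this
      exact this
  have hno' : ∀ e : A × ι, e.1 ∈ Y ∨ e.1 * gen e.2 ∈ Y → (e.1 ∈ X ↔ e.1 * gen e.2 ∈ X) := by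
    intro e he
    by_contra hcc
    have := hno e hcc
    tauto
  rcases hY.split gen hgen hX.1.1 (by
    intro e he
    have := hno' e
    rw [mem_bd, Set.mem_inter_iff, Set.mem_inter_iff] at he
    rw [mem_bd]
    tauto) (by
    intro e he
    have := hno' e
    rw [mem_bd, Set.mem_inter_iff, Set.mem_inter_iff, Set.mem_compl_iff, Set.mem_compl_iff] at he
    rw [mem_bd]
    tauto) (by
    rw [Set.disjoint_left]
    intro e he he2
    have := hno' e
    rw [mem_bd, Set.mem_inter_iff, Set.mem_inter_iff] at he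
    rw [mem_bd, Set.mem_inter_iff, Set.mem_inter_iff, Set.mem_compl_iff, Set.mem_compl_iff] at he2
    tauto) with h | h
  · rw [h] at h1
    exact Set.not_nonempty_empty h1
  · rw [h] at h2
    exact Set.not_nonempty_empty h2

theorem acc_point (F : Set (Set A)) (hF : F.Infinite) :
    ∃ L : Set A, ∀ K : Set A, K.Finite → ∃ Y ∈ F, Y ≠ L ∧ ∀ a ∈ K, (a ∈ Y ↔ a ∈ L) := by
  classical
  let ind : Set A → (A → Bool) := fun Y a => decide (a ∈ Y)
  have hinj : Function.Injective ind := by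
    intro Y Y' h
    ext a
    have := congrFun h a
    simp only [ind, decide_eq_decide] at this
    exact this
  have hS : (ind '' F).Infinite := hF.image hinj.injOn
  obtain ⟨l, -, hl⟩ := hS.exists_accPt_of_subset_isCompact isCompact_univ (Set.subset_univ _)
  rw [accPt_iff_nhds] at hl
  refine ⟨{a | l a = true}, fun K hK => ?_⟩
  have hU : {f : A → Bool | ∀ a ∈ K, f a = l a} ∈ nhds l := by
    have h1 : {f : A → Bool | ∀ a ∈ K, f a = l a} = K.pi fun a => {l a} := by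
      ext f
      simp only [Set.mem_pi, Set.mem_singleton_iff, Set.mem_ofPred_eq]
    rw [h1]
    exact set_pi_mem_nhds hK fun a _ => by simp
  obtain ⟨f, ⟨hfU, ⟨Y, hY, rfl⟩⟩, hne⟩ := hl _ hU
  refine ⟨Y, hY, ?_, ?_⟩
  · rintro rfl
    apply hne
    funext a
    simp only [ind, Set.mem_ofPred_eq, Bool.decide_eq_true]
  · intro a ha
    have := hfU a ha
    simp only [ind] at this
    rw [Set.mem_ofPred_eq, ← this, decide_eq_true_eq]

/-- neighbourhood of a finite set -/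
def Nb (L : Set A) : Set A :=
  {b | b ∈ L ∨ ∃ i, b * (gen i)⁻¹ ∈ L ∨ b * gen i ∈ L}

theorem Nb_finite {L : Set A} (hL : L.Finite) : (Nb gen L).Finite := by
  have : Nb gen L = L ∪ ⋃ i, ((fun a => a * gen i) '' L ∪ (fun a => a * (gen i)⁻¹) '' L) := by
    ext b
    simp only [Nb, Set.mem_ofPred_eq, Set.mem_union, Set.mem_iUnion, Set.mem_image]
    refine or_congr_right (exists_congr fun i => or_congr ?_ ?_)
    · constructor
      · intro h
        exact ⟨_, h, by group⟩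
      · rintro ⟨a, ha, rfl⟩
        rwa [mul_inv_cancel_right]
    · constructor
      · intro h
        exact ⟨_, h, by group⟩
      · rintro ⟨a, ha, rfl⟩
        rwa [inv_mul_cancel_right]
  rw [this]
  exact hL.union (Set.finite_iUnion fun i => (hL.image _).union (hL.image _))

theorem fin_case {Z : Subgroup A} (hgen : Subgroup.closure (Set.range gen) ⊔ Z = ⊤) {L Y : Set A}
    (hL : L.Finite) (hne : L.Nonempty) (hR : RInv Z L) (hY : Mn gen Z Y)
    (hag : ∀ a ∈ Nb gen L, (a ∈ Y ↔ a ∈ L)) : False := by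
  have hsub : L ⊆ Y := fun a ha => (hag a (Or.inl ha)).mpr ha
  have he1 : ∀ e : A × ι, e.1 ∈ L → (e.1 * gen e.2 ∈ Y ↔ e.1 * gen e.2 ∈ L) := by
    intro e he
    exact hag _ (Or.inr ⟨e.2, Or.inl (by rwa [mul_inv_cancel_right])⟩)
  have he2 : ∀ e : A × ι, e.1 * gen e.2 ∈ L → (e.1 ∈ Y ↔ e.1 ∈ L) := by
    intro e he
    exact hag _ (Or.inr ⟨e.2, Or.inr he⟩)
  have hf := hY.1.2.1
  have s1 : bd gen L ⊆ bd gen Y := by
    intro e he
    have h1 := he1 e
    have h2 := he2 e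
    have h3 := @hsub e.1
    have h4 := @hsub (e.1 * gen e.2)
    rw [mem_bd] at he ⊢
    tauto
  have s2 : bd gen (Y ∩ Lᶜ) ⊆ bd gen Y := by
    intro e he
    have h1 := he1 e
    have h2 := he2 e
    rw [mem_bd, Set.mem_inter_iff, Set.mem_inter_iff, Set.mem_compl_iff, Set.mem_compl_iff] at he
    rw [mem_bd]
    tauto
  have hd : Disjoint (bd gen L) (bd gen (Y ∩ Lᶜ)) := by
    rw [Set.disjoint_left]
    intro e he he'
    have h1 := he1 e
    have h2 := he2 e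
    have h3 := @hsub e.1
    have h4 := @hsub (e.1 * gen e.2)
    rw [mem_bd, Set.mem_inter_iff, Set.mem_inter_iff, Set.mem_compl_iff, Set.mem_compl_iff] at he'
    rw [mem_bd] at he
    tauto
  have hsum : (bd gen L).ncard + (bd gen (Y ∩ Lᶜ)).ncard ≤ (bd gen Y).ncard := by
    rw [← Set.ncard_union_eq hd (hf.subset s1) (hf.subset s2)]
    exact Set.ncard_le_ncard (Set.union_subset s1 s2) hf
  have hW : GC gen Z (Y ∩ Lᶜ) := by
    refine ⟨hY.1.1.inter hR.compl, hf.subset s2, ?_, hY.1.2.2.2.mono ?_⟩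
    · have := hY.1.2.2.1.sdiff hL
      rwa [Set.sdiff_eq] at this
    · exact Set.compl_subset_compl.mpr Set.inter_subset_left
  have e1 := hY.2 _ hW
  have e2 : (bd gen L).ncard = 0 := by omega
  rw [Set.ncard_eq_zero (hf.subset s1)] at e2
  rcases bd_empty_imp gen hgen _ hR e2 with h | h
  · rw [h] at hne
    exact Set.not_nonempty_empty hne
  · rw [h] at hL
    exact hY.1.2.2.1 (hL.subset (Set.subset_univ _))

theorem separating_finite {Z : Subgroup A} (hgen : Subgroup.closure (Set.range gen) ⊔ Z = ⊤)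
    (x y : A) : {Y | Mn gen Z Y ∧ x ∈ Y ∧ y ∉ Y}.Finite := by
  by_contra hinf
  obtain ⟨L, hL⟩ := acc_point _ hinf
  have hxL : x ∈ L := by
    obtain ⟨Y, hY, -, h⟩ := hL {x} (Set.finite_singleton x)
    exact (h x rfl).mp hY.2.1
  have hyL : y ∉ L := by
    obtain ⟨Y, hY, -, h⟩ := hL {y} (Set.finite_singleton y)
    exact fun hc => hY.2.2 ((h y rfl).mpr hc)
  have hR : RInv Z L := by
    intro g z hz
    obtain ⟨Y, hY, -, h⟩ := hL {g, g * z} (Set.toFinite _)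
    rw [← h g (Or.inl rfl), ← h (g * z) (Or.inr rfl)]
    exact hY.1.1.1 g z hz
  obtain ⟨Y₀, hY₀, -, -⟩ := hL ∅ Set.finite_empty
  have hends : ∀ F : Set (A × ι), F.Finite → ∃ K : Set A, K.Finite ∧
      ∀ e ∈ F, e.1 ∈ K ∧ e.1 * gen e.2 ∈ K := by
    intro F hF
    refine ⟨Prod.fst '' F ∪ (fun e : A × ι => e.1 * gen e.2) '' F,
      (hF.image _).union (hF.image _), fun e he => ⟨Or.inl ⟨e, he, rfl⟩, Or.inr ⟨e, he, rfl⟩⟩⟩
  have hcard : ∀ F : Set (A × ι), F.Finite → F ⊆ bd gen L →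
      F.ncard ≤ (bd gen Y₀).ncard := by
    intro F hF hsub
    obtain ⟨K, hK, hKe⟩ := hends F hF
    obtain ⟨Y, hY, -, h⟩ := hL K hK
    rw [Mn.eq gen hY₀.1 hY.1]
    refine Set.ncard_le_ncard ?_ hY.1.1.2.1
    intro e he
    have h1 := hsub he
    rw [mem_bd] at h1 ⊢
    rw [h _ (hKe e he).1, h _ (hKe e he).2]
    exact h1
  have hfin : (bd gen L).Finite := by
    by_contra hc
    obtain ⟨F, hF1, hF2⟩ := Set.Infinite.exists_subset_card_eq hc ((bd gen Y₀).ncard + 1)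
    have := hcard (F : Set (A × ι)) F.finite_toSet hF1
    rw [Set.ncard_coe_finset, hF2] at this
    omega
  have hle := hcard _ hfin subset_rfl
  rcases hle.lt_or_eq with hlt | heq
  · -- small boundary
    have hnot : ¬ GC gen Z L := fun hg => by
      have := hY₀.1.2 L hg
      omega
    have hor : L.Finite ∨ Lᶜ.Finite := by
      by_contra hc
      rw [not_or] at hc
      exact hnot ⟨hR, hfin, hc.1, hc.2⟩
    rcases hor with h | h
    · obtain ⟨Y, hY, -, hag⟩ := hL _ (Nb_finite gen h)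
      exact fin_case gen hgen h ⟨x, hxL⟩ hR hY.1 hag
    · obtain ⟨Y, hY, -, hag⟩ := hL _ (Nb_finite gen h)
      refine fin_case gen hgen h ⟨y, hyL⟩ hR.compl (Mn.compl gen hY.1) ?_
      intro a ha
      rw [Set.mem_compl_iff, Set.mem_compl_iff, hag a ha]
  · obtain ⟨K, hK, hKe⟩ := hends _ hfin
    obtain ⟨Y, hY, hne, hag⟩ := hL K hK
    have hsub : bd gen L ⊆ bd gen Y := by
      intro e he
      have h1 := he
      rw [mem_bd] at h1 ⊢
      rw [hag _ (hKe e he).1, hag _ (hKe e he).2]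
      exact h1
    have heq2 : bd gen L = bd gen Y :=
      Set.eq_of_subset_of_ncard_le hsub (by rw [heq, Mn.eq gen hY₀.1 hY.1]) hY.1.1.2.1
    have hsd : bd gen {a | ¬ (a ∈ Y ↔ a ∈ L)} = ∅ := by
      rw [Set.eq_empty_iff_forall_notMem]
      intro e he
      have h1 : e ∈ bd gen L ↔ e ∈ bd gen Y := by rw [heq2]
      rw [mem_bd, mem_bd] at h1
      rw [mem_bd, Set.mem_ofPred_eq, Set.mem_ofPred_eq] at he
      tauto
    rcases bd_empty_imp gen hgen _ (by
      intro g z hz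
      rw [Set.mem_ofPred_eq, Set.mem_ofPred_eq, hY.1.1.1 g z hz, hR g z hz]) hsd with h | h
    · apply hne
      ext a
      by_contra hc
      have : a ∈ {a | ¬ (a ∈ Y ↔ a ∈ L)} := hc
      rw [h] at this
      exact this
    · have : x ∈ {a | ¬ (a ∈ Y ↔ a ∈ L)} := by rw [h]; trivial
      have h1 := hY.2.1
      exact this ⟨fun _ => hxL, fun _ => h1⟩

/-- minimal cuts crossing `X` -/
def cr (Z : Subgroup A) (X : Set A) : Set (Set A) := {Y | Mn gen Z Y ∧ Cross X Y}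

theorem cr_finite {Z : Subgroup A} (hgen : Subgroup.closure (Set.range gen) ⊔ Z = ⊤) {X : Set A}
    (hX : Mn gen Z X) : (cr gen Z X).Finite := by
  have hP := Ends_finite gen hX.1.2.1
  have : cr gen Z X ⊆ ⋃ x ∈ Ends gen X, ⋃ y ∈ Ends gen X, {Y | Mn gen Z Y ∧ x ∈ Y ∧ y ∉ Y} := by
    intro Y hY
    obtain ⟨hM, c1, c2, c3, c4⟩ := hY
    obtain ⟨x, hx1, hx2⟩ := Cross.hits gen hgen hX hM (by rwa [Set.inter_comm])
      (by rwa [Set.inter_comm])
    obtain ⟨y, hy1, hy2⟩ := Cross.hits gen hgen hX (Mn.compl gen hM) (by rwa [Set.inter_comm])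
      (by rwa [Set.inter_comm])
    simp only [Set.mem_iUnion]
    exact ⟨x, hx2, y, hy2, hM, hx1, hy1⟩
  exact (hP.biUnion fun x _ => hP.biUnion fun y _ => separating_finite gen hgen x y).subset this

theorem cross_compl_left {X Y : Set A} : Cross Xᶜ Y ↔ Cross X Y := by
  unfold Cross
  rw [compl_compl]
  tauto

theorem cr_compl (Z : Subgroup A) (X : Set A) : cr gen Z Xᶜ = cr gen Z X := by
  ext Y
  unfold cr
  rw [Set.mem_ofPred_eq, Set.mem_ofPred_eq, cross_compl_left]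

theorem cross_tr (a : A) (X Y : Set A) (h : Cross X Y) : Cross (tr a X) (tr a Y) := by
  have key : ∀ P Q : Set A, (P ∩ Q).Nonempty → (tr a P ∩ tr a Q).Nonempty := by
    rintro P Q ⟨x, hx1, hx2⟩
    refine ⟨a * x, ?_, ?_⟩
    · unfold tr; rw [Set.mem_ofPred_eq, inv_mul_cancel_left]; exact hx1
    · unfold tr; rw [Set.mem_ofPred_eq, inv_mul_cancel_left]; exact hx2
  exact ⟨key _ _ h.1, key _ _ h.2.1, key _ _ h.2.2.1, key _ _ h.2.2.2⟩

theorem tr_tr (a b : A) (X : Set A) : tr a (tr b X) = tr (a * b) X := by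
  ext x
  unfold tr
  simp only [Set.mem_ofPred_eq, mul_inv_rev, mul_assoc]

theorem tr_one (X : Set A) : tr 1 X = X := by
  ext x
  unfold tr
  simp only [Set.mem_ofPred_eq, inv_one, one_mul]

theorem cr_tr (Z : Subgroup A) (a : A) (X : Set A) : cr gen Z (tr a X) = tr a '' cr gen Z X := by
  ext Y
  constructor
  · rintro ⟨h1, h2⟩
    refine ⟨tr a⁻¹ Y, ⟨Mn.tr gen h1 _, ?_⟩, ?_⟩
    · have := cross_tr a⁻¹ _ _ h2
      rwa [tr_tr, inv_mul_cancel, tr_one] at this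
    · rw [tr_tr, mul_inv_cancel, tr_one]
  · rintro ⟨W, ⟨h1, h2⟩, rfl⟩
    exact ⟨Mn.tr gen h1 a, cross_tr a _ _ h2⟩

theorem tr_injective (a : A) : Function.Injective (tr a : Set A → Set A) := by
  intro X Y h
  have := congrArg (tr a⁻¹) h
  rwa [tr_tr, tr_tr, inv_mul_cancel, tr_one, tr_one] at this

theorem not_cross {X Y : Set A} : ¬ Cross X Y ↔ X ∩ Y = ∅ ∨ X ∩ Yᶜ = ∅ ∨ Xᶜ ∩ Y = ∅ ∨
    Xᶜ ∩ Yᶜ = ∅ := by
  unfold Cross
  simp only [not_and_or, Set.not_nonempty_iff_eq_empty]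

theorem nested_iff {X Y : Set A} : Nested X Y ↔ ¬ Cross X Y := by
  rw [not_cross]
  unfold Nested
  simp only [Set.eq_empty_iff_forall_notMem, Set.subset_def, Set.mem_inter_iff, Set.mem_compl_iff]
  constructor
  · rintro (h | h | h | h)
    · right; left; intro x hx; exact hx.2 (h x hx.1)
    · right; right; left; intro x hx; exact hx.1 (h x hx.2)
    · left; intro x hx; exact h x hx.1 hx.2
    · right; right; right; intro x hx; exact hx.2 (h x hx.1)
  · rintro (h | h | h | h)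
    · right; right; left; intro x hx hy; exact h x ⟨hx, hy⟩
    · left; intro x hx; by_contra hy; exact h x ⟨hx, hy⟩
    · right; left; intro x hx; by_contra hy; exact h x ⟨hy, hx⟩
    · right; right; right; intro x hx; by_contra hy; exact h x ⟨hx, hy⟩

theorem cross_comm {X Y : Set A} : Cross X Y ↔ Cross Y X := by
  unfold Cross
  rw [Set.inter_comm X Y, Set.inter_comm X Yᶜ, Set.inter_comm Xᶜ Y, Set.inter_comm Xᶜ Yᶜ]
  tauto

theorem cross_both {X Y W : Set A} (hc : Cross X Y) (h : Cross (X ∩ Y) W ∨ Cross (X ∪ Y) W) :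
    Cross X W ∨ Cross Y W := by
  by_contra hn
  rw [not_or, not_cross, not_cross] at hn
  obtain ⟨⟨a, ha1, ha2⟩, -, -, ⟨b, hb1, hb2⟩⟩ := hc
  have ea : ∀ P Q : Set A, P ∩ Q = ∅ → ∀ x, x ∈ P → x ∈ Q → False := by
    intro P Q h x hx hy
    have : x ∈ P ∩ Q := ⟨hx, hy⟩
    rw [h] at this
    exact this
  obtain ⟨hn1, hn2⟩ := hn
  rcases h with ⟨⟨p, hp1, hp2⟩, ⟨q, hq1, hq2⟩, ⟨r, hr1, hr2⟩, ⟨s, hs1, hs2⟩⟩ |
    ⟨⟨p, hp1, hp2⟩, ⟨q, hq1, hq2⟩, ⟨r, hr1, hr2⟩, ⟨s, hs1, hs2⟩⟩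
  · have k : ∀ V : Set A, X ∩ Y ⊆ V → (V ∩ W = ∅ ∨ V ∩ Wᶜ = ∅ ∨ Vᶜ ∩ W = ∅ ∨ Vᶜ ∩ Wᶜ = ∅) →
        (∀ x, x ∈ W → x ∈ V) ∨ (∀ x, x ∉ W → x ∈ V) := by
      rintro V hV (h | h | h | h)
      · exact (ea _ _ h p (hV hp1) hp2).elim
      · exact (ea _ _ h q (hV hq1) hq2).elim
      · exact Or.inl fun x hx => by_contra fun hc => ea _ _ h x hc hx
      · exact Or.inr fun x hx => by_contra fun hc => ea _ _ h x hc hx
    rcases k X Set.inter_subset_left hn1 with h1 | h1 <;>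
    rcases k Y Set.inter_subset_right hn2 with h2 | h2
    · exact hr1 ⟨h1 r hr2, h2 r hr2⟩
    · by_cases hb : b ∈ W
      · exact hb1 (h1 b hb)
      · exact hb2 (h2 b hb)
    · by_cases hb : b ∈ W
      · exact hb2 (h2 b hb)
      · exact hb1 (h1 b hb)
    · exact hs1 ⟨h1 s hs2, h2 s hs2⟩
  · have k : ∀ V : Set A, V ⊆ X ∪ Y → (V ∩ W = ∅ ∨ V ∩ Wᶜ = ∅ ∨ Vᶜ ∩ W = ∅ ∨ Vᶜ ∩ Wᶜ = ∅) →
        (∀ x, x ∈ V → x ∉ W) ∨ (∀ x, x ∈ V → x ∈ W) := by
      rintro V hV (h | h | h | h)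
      · exact Or.inl fun x hx hc => ea _ _ h x hx hc
      · exact Or.inr fun x hx => by_contra fun hc => ea _ _ h x hx hc
      · exact (ea _ _ h r (fun hc => hr1 (hV hc)) hr2).elim
      · exact (ea _ _ h s (fun hc => hs1 (hV hc)) hs2).elim
    rcases k X Set.subset_union_left hn1 with h1 | h1 <;>
    rcases k Y Set.subset_union_right hn2 with h2 | h2
    · rcases hp1 with hp1 | hp1
      · exact h1 p hp1 hp2
      · exact h2 p hp1 hp2
    · exact h1 a ha1 (h2 a ha2)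
    · exact h2 a ha2 (h1 a ha1)
    · rcases hq1 with hq1 | hq1
      · exact hq2 (h1 q hq1)
      · exact hq2 (h2 q hq1)

theorem cross_both' {X Y W : Set A} (h : Cross (X ∩ Y) W ∧ Cross (X ∪ Y) W) :
    Cross X W ∧ Cross Y W := by
  obtain ⟨⟨⟨p, hp⟩, ⟨q, hq⟩, -, -⟩, ⟨-, -, ⟨r, hr⟩, ⟨s, hs⟩⟩⟩ := h
  simp only [Set.mem_inter_iff, Set.mem_compl_iff, Set.mem_union] at hp hq hr hs
  refine ⟨⟨⟨p, ?_, ?_⟩, ⟨q, ?_, ?_⟩, ⟨r, ?_, ?_⟩, ⟨s, ?_, ?_⟩⟩,
    ⟨⟨p, ?_, ?_⟩, ⟨q, ?_, ?_⟩, ⟨r, ?_, ?_⟩, ⟨s, ?_, ?_⟩⟩⟩ <;>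
  (try simp only [Set.mem_compl_iff]) <;> tauto

/-- Dunwoody: if there is a right-`Z`-invariant cut, there is one nested with all its left translates. -/
theorem exists_nested_cut (Z : Subgroup A) (hgen : Subgroup.closure (Set.range gen) ⊔ Z = ⊤)
    (hex : ∃ X, RInv Z X ∧ IsCut gen X) :
    ∃ X, RInv Z X ∧ IsCut gen X ∧ ∀ a, Nested (tr a X) X := by
  classical
  -- a minimal cut
  have hM : ∃ X, Mn gen Z X := by
    have hne : {X | GC gen Z X}.Nonempty := hex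
    obtain ⟨X, hX1, hX2⟩ := Function.argminOn_mem (fun X : Set A => (bd gen X).ncard)
      {X | GC gen Z X} hne |> fun h => (⟨_, h, fun Y (hY : GC gen Z Y) =>
        Function.argminOn_le (fun X : Set A => (bd gen X).ncard) {X | GC gen Z X} hY⟩ :
        ∃ X, GC gen Z X ∧ ∀ Y, GC gen Z Y → (bd gen X).ncard ≤ (bd gen Y).ncard)
    exact ⟨X, hX1, hX2⟩
  obtain ⟨X, hX, hmin⟩ : ∃ X, Mn gen Z X ∧ ∀ Y, Mn gen Z Y →
      (cr gen Z X).ncard ≤ (cr gen Z Y).ncard := by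
    have hne : {X | Mn gen Z X}.Nonempty := hM
    exact ⟨_, Function.argminOn_mem (fun X : Set A => (cr gen Z X).ncard) {X | Mn gen Z X} hne,
      fun Y hY => Function.argminOn_le (fun X : Set A => (cr gen Z X).ncard) {X | Mn gen Z X} hY⟩
  refine ⟨X, hX.1.1, hX.1.2, fun a => ?_⟩
  rw [nested_iff]
  intro hcr
  obtain ⟨Y, hY, hYX, hYm, hi1, hi2⟩ : ∃ Y, Mn gen Z Y ∧ Cross X Y ∧
      (cr gen Z Y).ncard = (cr gen Z X).ncard ∧ (X ∩ Y).Infinite ∧ (Xᶜ ∩ Yᶜ).Infinite := by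
    have hm : (cr gen Z (tr a X)).ncard = (cr gen Z X).ncard := by
      rw [cr_tr, Set.ncard_image_of_injective _ (tr_injective a)]
    have hT := Mn.tr gen hX a
    have split : ∀ P Q : Set A, P.Infinite → (P ∩ Q).Finite → (P ∩ Qᶜ).Infinite := by
      intro P Q hP hPQ hc
      apply hP
      have := hPQ.union hc
      rwa [← Set.inter_union_distrib_left, Set.union_compl_self, Set.inter_univ] at this
    by_cases h1 : (X ∩ tr a X).Infinite ∧ (Xᶜ ∩ (tr a X)ᶜ).Infinite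
    · exact ⟨tr a X, hT, cross_comm.mp hcr, hm, h1.1, h1.2⟩
    · refine ⟨(tr a X)ᶜ, Mn.compl gen hT, ?_, ?_, ?_⟩
      · rw [cross_comm, cross_compl_left]
        exact hcr
      · rw [cr_compl, hm]
      · rw [not_and_or, Set.not_infinite, Set.not_infinite] at h1
        rw [compl_compl]
        rcases h1 with h1 | h1
        · refine ⟨split _ _ hX.1.2.2.1 h1, ?_⟩
          have h2 := split _ _ hT.1.2.2.1 (by rwa [Set.inter_comm] at h1)
          rwa [Set.inter_comm] at h2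
        · have h2 := split _ _ hX.1.2.2.2 h1
          rw [compl_compl] at h2
          have h3 := split _ _ hT.1.2.2.2 (by rwa [Set.inter_comm] at h1)
          rw [compl_compl, Set.inter_comm] at h3
          exact ⟨h3, h2⟩
  obtain ⟨hE, hE'⟩ := Mn.uncross gen hX hY hi1 (by rwa [Set.compl_union])
  have hfX := cr_finite gen hgen hX
  have hfY := cr_finite gen hgen hY
  have hfE := cr_finite gen hgen hE
  have hfE' := cr_finite gen hgen hE'
  have hXY : X ∈ cr gen Z Y := ⟨hX, cross_comm.mp hYX⟩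
  have s1 : cr gen Z (X ∩ Y) ∪ cr gen Z (X ∪ Y) ⊆ (cr gen Z X ∪ cr gen Z Y) \ {X} := by
    intro W hW
    refine ⟨?_, ?_⟩
    · have hM : Mn gen Z W := by
        rcases hW with h | h
        · exact h.1
        · exact h.1
      rcases cross_both hYX (W := W) (by
        rcases hW with h | h
        · exact Or.inl h.2
        · exact Or.inr h.2) with h | h
      · exact Or.inl ⟨hM, h⟩
      · exact Or.inr ⟨hM, h⟩
    · rintro rfl
      rcases hW with h | h
      · obtain ⟨x, hx1, hx2⟩ := h.2.2.1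
        exact hx2 hx1.1
      · obtain ⟨x, hx1, hx2⟩ := h.2.2.2.1
        exact hx1 (Or.inl hx2)
  have s2 : cr gen Z (X ∩ Y) ∩ cr gen Z (X ∪ Y) ⊆ cr gen Z X ∩ cr gen Z Y := by
    rintro W ⟨h1, h2⟩
    have := cross_both' ⟨h1.2, h2.2⟩
    exact ⟨⟨h1.1, this.1⟩, ⟨h1.1, this.2⟩⟩
  have c1 := Set.ncard_union_add_ncard_inter _ _ hfE hfE'
  have c2 := Set.ncard_union_add_ncard_inter _ _ hfX hfY
  have c3 := Set.ncard_le_ncard s1 ((hfX.union hfY).sdiff)
  have c4 := Set.ncard_le_ncard s2 (hfX.inter_of_left _)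
  have c5 : ((cr gen Z X ∪ cr gen Z Y) \ {X}).ncard < (cr gen Z X ∪ cr gen Z Y).ncard :=
    Set.ncard_sdiff_singleton_lt_of_mem (Or.inr hXY) (hfX.union hfY)
  have m1 := hmin _ hE
  have m2 := hmin _ hE'
  omega

end Pool.Agent.TH97.KP.NCut
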