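import Pool.Agent.TH97.KP.Wall
import Pool.Agent.TH97.KP.NCut

/-!
# The tree of a nested cut
-/

set_option autoImplicit false

namespace Pool.Agent.TH97.KP

open Pool.Agent.H97R3.VR Pool.Agent.TH97.KP.NCut

section

variable {A : Type} [Group A]

theorem mem_tr {a x : A} {X : Set A} : x ∈ tr a X ↔ a⁻¹ * x ∈ X := Iff.rfl

theorem wallSpace {ι : Type} [Fintype ι] (gen : ι → A) (Z : Subgroup A)
    (hgen : Subgroup.closure (Set.range gen) ⊔ Z = ⊤) {X : Set A} (hR : RInv Z X)
    (hcut : IsCut gen X) (hn : ∀ a, Nested (tr a X) X) : Wsp (fun g : A => tr g X) := by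
  refine ⟨?_, ?_⟩
  · have key : ∀ s : A, ∀ x : A, (sp (fun g : A => tr g X) x (x * s)).Finite := by
      intro s
      have hs : s ∈ Subgroup.closure (Set.range gen ∪ (Z : Set A)) := by
        rw [Subgroup.closure_union, Subgroup.closure_eq, hgen]
        trivial
      have htri : ∀ x y z, (sp (fun g : A => tr g X) x y).Finite →
          (sp (fun g : A => tr g X) y z).Finite → (sp (fun g : A => tr g X) x z).Finite := by
        intro x y z h1 h2
        refine (h1.union h2).subset ?_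
        intro i hi
        rw [Set.mem_union, mem_sp, mem_sp]
        rw [mem_sp] at hi
        tauto
      induction hs using Subgroup.closure_induction with
      | mem s hs =>
        intro x
        rcases hs with ⟨i, rfl⟩ | hs
        · have h1 : sp (fun g : A => tr g X) x (x * gen i) =
              (fun g : A => ((g⁻¹ * x, i) : A × ι)) ⁻¹' bd gen X := by
            ext g
            rw [mem_sp, Set.mem_preimage, mem_bd, mem_tr, mem_tr, mul_assoc]
          rw [h1]
          refine hcut.1.preimage ?_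
          intro g _ g' _ h
          have h2 := (Prod.mk.inj h).1
          exact inv_injective (mul_right_cancel h2)
        · have h1 : sp (fun g : A => tr g X) x (x * s) = ∅ := by
            ext g
            rw [mem_sp, mem_tr, mem_tr, ← mul_assoc, hR _ s hs]
            simp
          rw [h1]
          exact Set.finite_empty
      | one =>
        intro x
        have h1 : sp (fun g : A => tr g X) x (x * 1) = ∅ := by
          ext g
          rw [mem_sp, mul_one]
          simp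
        rw [h1]
        exact Set.finite_empty
      | mul s t _ _ h1 h2 =>
        intro x
        refine htri x (x * s) _ (h1 x) ?_
        have := h2 (x * s)
        rwa [mul_assoc] at this
      | inv s _ h1 =>
        intro x
        have := h1 (x * s⁻¹)
        rw [inv_mul_cancel_right] at this
        rw [sp_comm]
        exact this
    intro x y
    have := key (x⁻¹ * y) x
    rwa [mul_inv_cancel_left] at this
  · intro i j x y z w hx1 hx2 hy1 hy2 hz1 hz2 hw1 hw2
    rw [mem_tr] at hx1 hx2 hy1 hy2 hz1 hz2 hw1 hw2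
    have e : ∀ u : A, j⁻¹ * u ∈ tr (j⁻¹ * i) X ↔ i⁻¹ * u ∈ X := by
      intro u
      rw [mem_tr]
      have : (j⁻¹ * i)⁻¹ * (j⁻¹ * u) = i⁻¹ * u := by group
      rw [this]
    rcases hn (j⁻¹ * i) with h | h | h | h
    · exact hy2 (h ((e y).2 hy1))
    · exact hz1 ((e z).1 (h hz2))
    · exact h ((e x).2 hx1) hx2
    · exact hw2 (h (fun h' => hw1 ((e w).1 h')))

/-- half spaces -/
def HS (X Y : Set A) : Prop := ∃ g : A, Y = tr g X ∨ Y = (tr g X)ᶜ

theorem HS.nested {X : Set A} (hn : ∀ a, Nested (tr a X) X) {Y Y' : Set A} (h : HS X Y)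
    (h' : HS X Y') : ¬ Cross Y Y' := by
  have key : ∀ i j : A, ¬ Cross (tr i X) (tr j X) := by
    intro i j hc
    have h1 := cross_tr j⁻¹ _ _ hc
    rw [tr_tr, tr_tr, inv_mul_cancel, tr_one] at h1
    exact nested_iff.1 (hn _) h1
  obtain ⟨i, rfl | rfl⟩ := h <;> obtain ⟨j, rfl | rfl⟩ := h'
  · exact key i j
  · rw [cross_comm, cross_compl_left]
    exact key j i
  · rw [cross_compl_left]
    exact key i j
  · rw [cross_compl_left, cross_comm, cross_compl_left]
    exact key j i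

theorem HS.tr {X Y : Set A} (h : HS X Y) (a : A) : HS X (NCut.tr a Y) := by
  obtain ⟨g, rfl | rfl⟩ := h
  · exact ⟨a * g, Or.inl (tr_tr a g X)⟩
  · refine ⟨a * g, Or.inr ?_⟩
    rw [tr_compl, tr_tr]

theorem unbdd {ι : Type} [Fintype ι] (gen : ι → A) (Z : Subgroup A)
    (hgen : Subgroup.closure (Set.range gen) ⊔ Z = ⊤) {X : Set A} (hR : RInv Z X)
    (hcut : IsCut gen X) (hn : ∀ a, Nested (tr a X) X) (R : ℕ)
    (hbd : ∀ a b : A, wd (fun g : A => tr g X) a b ≤ R) : False := by
  classical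
  set U : A → Set A := fun g => tr g X with hU
  have hW : Wsp U := wallSpace gen Z hgen hR hcut hn
  -- a pair at maximal distance
  obtain ⟨a, b, hmax⟩ : ∃ a b : A, ∀ a' b', wd U a' b' ≤ wd U a b := by
    have h1 : {n | ∃ a b : A, wd U a b = n}.Nonempty := ⟨_, 1, 1, rfl⟩
    have h2 : BddAbove {n | ∃ a b : A, wd U a b = n} := ⟨R, by
      rintro n ⟨a, b, rfl⟩
      exact hbd a b⟩
    obtain ⟨a, b, h3⟩ := Nat.sSup_mem h1 h2
    refine ⟨a, b, fun a' b' => ?_⟩
    rw [h3]
    exact le_csSup h2 ⟨a', b', rfl⟩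
  have hpos : 0 < wd U a b := by
    obtain ⟨x, hx⟩ := hcut.2.1.nonempty
    obtain ⟨y, hy⟩ := hcut.2.2.nonempty
    have h1 : (1 : A) ∈ sp U x y := by
      rw [mem_sp]
      show ¬ (x ∈ tr 1 X ↔ y ∈ tr 1 X)
      rw [tr_one]
      exact fun h => hy (h.1 hx)
    have h2 : 0 < (sp U x y).ncard := (Set.ncard_pos (hW.fin x y)).2 ⟨1, h1⟩
    have h3 := hmax x y
    unfold wd at h3 ⊢
    omega
  -- the half spaces containing `b` but not `a`
  have hsfin : {Y | HS X Y ∧ b ∈ Y ∧ a ∉ Y}.Finite := by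
    refine (((hW.fin a b).image (fun g => tr g X)).union
      ((hW.fin a b).image (fun g => (tr g X)ᶜ))).subset ?_
    rintro Y ⟨⟨g, rfl | rfl⟩, hb, ha⟩
    · exact Or.inl ⟨g, fun h => ha (h.2 hb), rfl⟩
    · refine Or.inr ⟨g, fun h => ?_, rfl⟩
      rw [Set.mem_compl_iff, not_not] at ha
      exact hb (h.1 ha)
  have hside : ∀ g ∈ sp U a b, ∃ H, HS X H ∧ b ∈ H ∧ a ∉ H ∧ ∀ c, c ∈ H → g ∈ sp U a c := by
    intro g hg
    rw [mem_sp] at hg
    by_cases hb : b ∈ U g
    · have ha : a ∉ U g := fun h => hg ⟨fun _ => hb, fun _ => h⟩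
      exact ⟨tr g X, ⟨g, Or.inl rfl⟩, hb, ha, fun c hc h => ha (h.2 hc)⟩
    · have ha : a ∈ U g := by
        by_contra ha
        exact hg ⟨fun h => absurd h ha, fun h => absurd h hb⟩
      exact ⟨(tr g X)ᶜ, ⟨g, Or.inr rfl⟩, hb, fun h => h ha, fun c hc h => hc (h.1 ha)⟩
  have hsne : {Y | HS X Y ∧ b ∈ Y ∧ a ∉ Y}.Nonempty := by
    have h1 : (sp U a b).Nonempty := by
      rw [← Set.ncard_pos (hW.fin a b)]
      unfold wd at hpos
      omega
    obtain ⟨g, hg⟩ := h1
    obtain ⟨H, h2, h3, h4, -⟩ := hside g hg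
    exact ⟨H, h2, h3, h4⟩
  obtain ⟨Y, hYmin⟩ := hsfin.exists_minimal hsne
  obtain ⟨hYH, hbY, haY⟩ := hYmin.1
  have hYm : ∀ Y', HS X Y' → b ∈ Y' → a ∉ Y' → Y' ⊆ Y → Y' = Y := by
    intro Y' h1 h2 h3 h4
    exact Set.Subset.antisymm h4 (hYmin.2 ⟨h1, h2, h3⟩ h4)
  have hinf : ∀ Y', HS X Y' → Y'.Infinite := by
    rintro Y' ⟨g, rfl | rfl⟩
    · exact tr_infinite g X hcut.2.1
    · rw [← tr_compl]
      exact tr_infinite g _ hcut.2.2
  have hM : ∀ Y', HS X Y' → Y' ⊆ Y → Y' = Y := by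
    intro Y' h1 h2
    by_cases hb : b ∈ Y'
    · exact hYm Y' h1 hb (fun h => haY (h2 h)) h2
    · exfalso
      obtain ⟨b', hb'⟩ := (hinf Y' h1).nonempty
      have hsub : sp U a b ⊆ sp U a b' := by
        intro g hg
        obtain ⟨H, h3, h4, h5, h6⟩ := hside g hg
        apply h6
        have h7 : ¬ Cross H Y := HS.nested hn h3 hYH
        have h8 : Y ⊆ H := by
          rcases nested_iff.2 h7 with h | h | h | h
          · rw [hYm H h3 h4 h5 h]
          · exact h
          · exact absurd hbY (h h4)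
          · exact absurd (h h5) haY
        exact h8 (h2 hb')
      obtain ⟨g, hg⟩ := h1
      have hg1 : g ∈ sp U a b' := by
        rw [mem_sp]
        rcases hg with rfl | rfl
        · exact fun h => haY (h2 (h.2 hb'))
        · have ha : a ∈ tr g X := by
            by_contra hc
            exact haY (h2 hc)
          exact fun h => hb' (h.1 ha)
      have hg2 : g ∉ sp U a b := by
        rw [mem_sp, not_not]
        rcases hg with rfl | rfl
        · exact ⟨fun h => absurd (h2 h) haY, fun h => absurd h hb⟩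
        · constructor
          · intro _
            by_contra hc
            exact hb hc
          · intro _
            by_contra hc
            exact haY (h2 hc)
      have h3 : (sp U a b).ncard < (sp U a b').ncard :=
        Set.ncard_lt_ncard ⟨hsub, fun h => hg2 (h hg1)⟩ (hW.fin a b')
      have h4 := hmax a b'
      unfold wd at h4
      omega
  -- the boundary of `Y`
  have hYR : RInv Z Y ∧ IsCut gen Y := by
    obtain ⟨g, rfl | rfl⟩ := hYH
    · exact ⟨hR.tr g, IsCut.tr gen hcut g⟩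
    · exact ⟨(hR.tr g).compl, IsCut.compl gen (IsCut.tr gen hcut g)⟩
  have hbdne : (bd gen Y).Nonempty := by
    rw [Set.nonempty_iff_ne_empty]
    intro h
    rcases bd_empty_imp gen hgen Y hYR.1 h with h1 | h1
    · rw [h1] at hbY
      exact hbY
    · rw [h1] at haY
      exact haY trivial
  obtain ⟨e, he⟩ := hbdne
  obtain ⟨c0, hc0⟩ : ∃ c0, c0 ∈ Y := ⟨b, hbY⟩
  obtain ⟨c1, hc1, hc2⟩ : ∃ c1, c1 ∈ Y ∧ (c1 = e.1 ∨ c1 = e.1 * gen e.2) := by
    rw [mem_bd] at he
    by_cases h : e.1 ∈ Y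
    · exact ⟨_, h, Or.inl rfl⟩
    · refine ⟨_, ?_, Or.inr rfl⟩
      by_contra hc
      exact he ⟨fun h' => absurd h' h, fun h' => absurd h' hc⟩
  have hstab : ∀ y ∈ Y, tr (y * c1⁻¹) Y = Y := by
    intro y hy
    have h1 : y ∈ tr (y * c1⁻¹) Y := by
      rw [mem_tr]
      have : (y * c1⁻¹)⁻¹ * y = c1 := by group
      rw [this]
      exact hc1
    have h2 : ¬ Cross (tr (y * c1⁻¹) Y) Y := HS.nested hn (hYH.tr _) hYH
    rcases nested_iff.2 h2 with h | h | h | h
    · exact hM _ (hYH.tr _) h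
    · have h3 : tr (y * c1⁻¹)⁻¹ Y ⊆ Y := by
        intro x hx
        rw [mem_tr, inv_inv] at hx
        have := h hx
        rw [mem_tr, inv_mul_cancel_left] at this
        exact this
      have h4 := hM _ (hYH.tr _) h3
      have h5 := congrArg (tr (y * c1⁻¹)) h4
      rw [tr_tr, mul_inv_cancel, tr_one] at h5
      exact h5.symm
    · exact absurd hy (h h1)
    · exfalso
      have h3 : HS X (tr (y * c1⁻¹) Y)ᶜ := by
        obtain ⟨g, hg | hg⟩ := hYH.tr (y * c1⁻¹)
        · exact ⟨g, Or.inr (by rw [hg])⟩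
        · exact ⟨g, Or.inl (by rw [hg, compl_compl])⟩
      have h4 := hM _ h3 h
      rw [← h4] at hy
      exact hy h1
  have hinj : Set.InjOn (fun y : A => ((y * c1⁻¹ * e.1, e.2) : A × ι)) Y := by
    intro y _ y' _ h
    have h2 := (Prod.mk.inj h).1
    exact mul_right_cancel (mul_right_cancel h2)
  refine (hinf Y hYH) (Set.Finite.of_finite_image (hYR.2.1.subset ?_) hinj)
  rintro _ ⟨y, hy, rfl⟩
  have h1 : bd gen (tr (y * c1⁻¹) Y) = bd gen Y := by rw [hstab y hy]
  rw [← h1, bd_tr]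
  exact ⟨e, he, rfl⟩

theorem cut_tree {ι : Type} [Fintype ι] (gen : ι → A) (Z : Subgroup A)
    (hgen : Subgroup.closure (Set.range gen) ⊔ Z = ⊤) (hex : ∃ X, RInv Z X ∧ IsCut gen X) :
    ∃ (V : Type) (T : SimpleGraph V) (_ : MulAction A V), TrA A T ∧
      (∀ (a : A) (x y : V), T.Adj x y → a • x = x → a • y = y → ∃ k > 0, a ^ k = 1) ∧
      ∃ v : V, (∀ z ∈ Z, z • v = v) ∧ ∀ R : ℕ, ∃ a : A, R < T.dist v (a • v) := by
  obtain ⟨X, hR, hcut, hn⟩ := exists_nested_cut gen Z hgen hex
  set U : A → Set A := fun g => tr g X with hU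
  have hW : Wsp U := wallSpace gen Z hgen hR hcut hn
  have hUs : ∀ (a : A) (i : A) (x : A), a • x ∈ U (a • i) ↔ x ∈ U i := by
    intro a i x
    show (a * i)⁻¹ * (a * x) ∈ X ↔ i⁻¹ * x ∈ X
    have : (a * i)⁻¹ * (a * x) = i⁻¹ * x := by group
    rw [this]
  have hinv : ∀ (a x y : A), wd U (a • x) (a • y) = wd U x y := fun a x y => wd_smul hUs a x y
  let act := TS.act (A := A) (P := A) (d := wd U) hinv
  have htr : IsTr (TSg (wd U)) := TS.tree hW.tm
  have hact : ∀ (a : A) (x y : TS (wd U)), (TSg (wd U)).Adj x y →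
      (TSg (wd U)).Adj (a • x) (a • y) := by
    intro a φ ψ hadj
    refine ⟨fun he => hadj.1 (smul_left_cancel a he), fun x => ?_⟩
    exact hadj.2 (a⁻¹ • x)
  have hpt : ∀ a b : A, a • TS.pt hW.tm b = TS.pt hW.tm (a * b) := by
    intro a b
    refine TS.ext' fun y => ?_
    show wd U b (a⁻¹ • y) = wd U (a • b) y
    rw [← hinv a, smul_inv_smul]
  have hd : ∀ a b : A, (TSg (wd U)).dist (a • TS.pt hW.tm 1) (b • TS.pt hW.tm 1) = wd U a b := by
    intro a b
    rw [hpt, hpt, mul_one, mul_one, TS.dist_pts]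
  have hd1 : ∀ a : A, (TSg (wd U)).dist (TS.pt hW.tm 1) (a • TS.pt hW.tm 1) = wd U 1 a := by
    intro a
    have := hd 1 a
    rwa [one_smul] at this
  refine ⟨TS (wd U), TSg (wd U), inferInstance, ⟨htr, hact, ?_⟩, ?_, TS.pt hW.tm 1, ?_, ?_⟩
  · intro a p q hpq hp hq
    have h2 := (inv_le htr hact hpq hp hq (TS.pt hW.tm 1)).2
    rw [hd1] at h2
    exact h2 ⟨(sp U 1 a).ncard, by unfold wd; omega⟩
  · intro a φ ψ hadj hφ hψ
    have key : ∀ χ : TS (wd U), a • χ = χ → ∀ y, χ.1 (a • y) = χ.1 y := by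
      intro χ hχ y
      have h1 : (a • χ).1 (a • y) = χ.1 (a⁻¹ • a • y) := rfl
      rw [hχ, inv_smul_smul] at h1
      exact h1
    obtain ⟨k, hk, i, hi⟩ := edge_stab hW hUs hadj a (key φ hφ) (key ψ hψ)
    refine ⟨k, hk, ?_⟩
    have h1 : a ^ k * i = 1 * i := by rw [one_mul]; exact hi
    exact mul_right_cancel h1
  · intro z hz
    rw [hpt, mul_one]
    apply TS.pt_of_zero hW.tm (φ := TS.pt hW.tm z) (x := 1)
    show wd U z 1 = 0
    have h1 : sp U z 1 = ∅ := by
      ext g
      rw [mem_sp]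
      show ¬ (g⁻¹ * z ∈ X ↔ g⁻¹ * 1 ∈ X) ↔ g ∈ (∅ : Set A)
      rw [hR _ z hz, mul_one]
      simp
    unfold wd
    rw [h1, Set.ncard_empty]
  · intro R
    by_contra hcon
    push Not at hcon
    refine unbdd gen Z hgen hR hcut hn R ?_
    intro a b
    have h1 := hcon (a⁻¹ * b)
    rw [hd1] at h1
    have h2 := hinv a⁻¹ a b
    rw [smul_eq_mul, smul_eq_mul, inv_mul_cancel] at h2
    rw [← h2]
    exact h1

end

end Pool.Agent.TH97.KP
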