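import Pool.Agent.TH97.KP.Mea
import Pool.Agent.TH97.KP.CutTree

/-!
# Finitely generated virtually free groups act on trees
-/

set_option autoImplicit false

namespace Pool.Agent.TH97.KP

open Pool.Agent.H97R3.VR Pool.Agent.TH97.KP.NCut

theorem BUA {A V : Type} [Group A] [MulAction A V] {X : SimpleGraph V} (hX : TrA A X)
    (F : Subgroup A) [hN : F.Normal] [F.FiniteIndex] (hTE : TEF F X) {Ω : Type} (r : Ω → V)
    (hr : ∀ x, ∃ (a : A) (ω : Ω), a • r ω = x) (hr' : ∀ ω ω' (a : A), a • r ω = r ω' → ω = ω')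
    (d : ∀ ω, MulAction.stabilizer A (r ω) → MulAction.stabilizer A (r ω) → ℕ)
    (hd : ∀ ω, LF (F.subgroupOf (MulAction.stabilizer A (r ω))) (d ω)) :
    ∃ (E : Type) (Z : SimpleGraph E) (_ : MulAction A E), TrA A Z ∧
      (∀ f ∈ F, ∀ e : E, f • e = e → f = 1) ∧
      ∀ ω, ∃ e : E, ∀ s s' : MulAction.stabilizer A (r ω),
        Z.dist ((s : A) • e) ((s' : A) • e) = d ω s s' := by
  choose T Y actT hY hfr t0 hd0 using fun ω => (hd ω).tree
  obtain ⟨E, actE, Z, p, ι, hZ, hp, hι, hs, hinj, hex, hadj, hdist⟩ := blow (Y := Y) hX hr hr' hY (by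
    intro ω y hy
    let C : Subgroup (MulAction.stabilizer A (r ω)) :=
      MulAction.stabilizer (MulAction.stabilizer A (r ω)) y
    have hCf : Finite C := by
      have : Finite (A ⧸ F) := Subgroup.finite_quotient_of_finiteIndex
      refine Finite.of_injective
        (fun c : C => (((c : MulAction.stabilizer A (r ω)) : A) : A ⧸ F)) ?_
      intro c c' h
      have h1 := QuotientGroup.eq.1 h
      have h2 := hTE _ h1 (r ω) y hy (by
        rw [mul_smul, (c' : MulAction.stabilizer A (r ω)).2, inv_smul_eq_iff]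
        exact (c : MulAction.stabilizer A (r ω)).2.symm) (by
        have e1 : ((c' : MulAction.stabilizer A (r ω)) : A) • y = y := c'.2
        have e2 : ((c : MulAction.stabilizer A (r ω)) : A) • y = y := c.2
        rw [mul_smul, e1, inv_smul_eq_iff, e2])
      exact Subtype.ext (Subtype.ext (inv_mul_eq_one.1 h2))
    obtain ⟨R, hR⟩ := (Set.finite_range
      (fun c : C => (Y ω).dist (t0 ω) ((c : MulAction.stabilizer A (r ω)) • t0 ω))).bddAbove
    obtain ⟨t, ht⟩ := (hY ω).fix C (t0 ω) R (fun c hc => hR ⟨⟨c, hc⟩, rfl⟩)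
    exact ⟨t, fun s hsy => ht s hsy⟩)
  refine ⟨E, Z, actE, hZ, ?_, fun ω => ⟨ι ω (t0 ω), fun s s' => ?_⟩⟩
  · intro f hf e he
    obtain ⟨a, ω, t, rfl⟩ := hex e
    obtain ⟨h1, h2⟩ := blow_stab hp hι hs hinj he
    have h3 : a⁻¹ * f * a ∈ F := by
      have := hN.conj_mem f hf a⁻¹
      rwa [inv_inv] at this
    have h4 := hfr ω ⟨a⁻¹ * f * a, h1⟩ h3 t h2
    have h5 : a⁻¹ * f * a = 1 := congrArg Subtype.val h4
    have h6 : f = a * (a⁻¹ * f * a) * a⁻¹ := by group
    rw [h6, h5]
    group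
  · rw [← hs, ← hs, hdist, hd0]

/-- finitely many representatives -/
theorem exists_reps {A : Type} [Group A] (F : Subgroup A) [F.FiniteIndex] :
    ∃ R : Set A, R.Finite ∧ ∀ a : A, ∃ f ∈ F, ∃ r ∈ R, a = f * r := by
  have : Finite (A ⧸ F) := Subgroup.finite_quotient_of_finiteIndex
  refine ⟨Set.range (fun q : A ⧸ F => (q.out)⁻¹), Set.finite_range _, fun a => ?_⟩
  obtain ⟨h, hh⟩ := QuotientGroup.mk_out_eq_mul F a⁻¹
  refine ⟨h, h.2, _, ⟨(a⁻¹ : A), rfl⟩, ?_⟩
  show a = (h : A) * (((a⁻¹ : A) : A ⧸ F).out)⁻¹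
  rw [hh]
  group

theorem cut_bd {A V : Type} [Group A] (F : Subgroup A) [F.FiniteIndex] [MulAction F V] (ψ : A → V)
    (hψ : ∀ (f : F) (a : A), ψ ((f : A) * a) = f • ψ a) (U : Set V)
    (hU : ∀ x y : V, {f : F | ¬ (f • x ∈ U ↔ f • y ∈ U)}.Finite) {ι : Type} [Fintype ι]
    (gen : ι → A) : (bd gen {a | ψ a ∈ U}).Finite := by
  obtain ⟨R, hR, hRc⟩ := exists_reps F
  have h1 : (⋃ r ∈ R, ⋃ i : ι, (fun f : F => (((f : A) * r, i) : A × ι)) ''
      {f : F | ¬ (f • ψ r ∈ U ↔ f • ψ (r * gen i) ∈ U)}).Finite :=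
    hR.biUnion fun r _ => Set.finite_iUnion fun i => (hU _ _).image _
  refine h1.subset ?_
  rintro ⟨a, i⟩ h
  obtain ⟨f, hf, r, hr, rfl⟩ := hRc a
  simp only [Set.mem_iUnion]
  refine ⟨r, hr, i, ⟨f, hf⟩, ?_, rfl⟩
  have h2 : ¬ (ψ (f * r) ∈ U ↔ ψ (f * r * gen i) ∈ U) := h
  have h3 := hψ ⟨f, hf⟩ r
  have h4 := hψ ⟨f, hf⟩ (r * gen i)
  rw [← mul_assoc] at h4
  simp only at h3 h4
  rw [h3, h4] at h2
  exact h2

theorem exists_gens {A : Type} [Group A] (F : Subgroup A) [F.FiniteIndex] (Z : Subgroup A)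
    (h : RFG F (rel F Z)) : ∃ (ι : Type) (_ : Fintype ι) (gen : ι → A),
      Subgroup.closure (Set.range gen) ⊔ Z = ⊤ := by
  obtain ⟨E, hE, h⟩ := h
  obtain ⟨R, hR, hRc⟩ := exists_reps F
  have hfin : ((Subtype.val '' E) ∪ R : Set A).Finite := (hE.image _).union hR
  refine ⟨((Subtype.val '' E) ∪ R : Set A), hfin.fintype, Subtype.val, ?_⟩
  rw [Subtype.range_val, eq_top_iff]
  intro a _
  obtain ⟨f, hf, r, hr, rfl⟩ := hRc a
  refine Subgroup.mul_mem _ ?_ ?_
  · have h1 : (⟨f, hf⟩ : F) ∈ Subgroup.closure (rel F Z ∪ E) := by rw [h]; trivial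
    have h2 : Subgroup.closure (rel F Z ∪ E) ≤
        (Subgroup.closure ((Subtype.val '' E) ∪ R) ⊔ Z).comap F.subtype := by
      rw [Subgroup.closure_le]
      rintro x (hx | hx)
      · exact (le_sup_right : Z ≤ _) hx
      · exact (le_sup_left : Subgroup.closure ((Subtype.val '' E) ∪ R) ≤ _)
          (Subgroup.subset_closure (Or.inl ⟨x, hx, rfl⟩))
    exact h2 h1
  · exact (le_sup_left : Subgroup.closure ((Subtype.val '' E) ∪ R) ≤ _)
      (Subgroup.subset_closure (Or.inr hr))

/-- a finite index subgroup with a fixed vertex has bounded orbits -/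
theorem bdd_of_fix {A V : Type} [Group A] [MulAction A V] {X : SimpleGraph V} (hX : TrA A X)
    (F : Subgroup A) [F.FiniteIndex] (v w : V) (hw : ∀ f ∈ F, f • w = w) :
    ∃ R : ℕ, ∀ a : A, X.dist v (a • v) ≤ R := by
  obtain ⟨R, hR, hRc⟩ := exists_reps F
  obtain ⟨M, hM⟩ := (hR.image (fun r => X.dist w (r • v))).bddAbove
  refine ⟨X.dist v w + M, fun a => ?_⟩
  obtain ⟨f, hf, r, hr, rfl⟩ := hRc a
  have h1 : X.dist v ((f * r) • v) ≤ X.dist v w + X.dist w ((f * r) • v) := hX.tr.conn.dist_triangle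
  have h2 : X.dist w ((f * r) • v) = X.dist w (r • v) := by
    rw [mul_smul]
    conv_lhs => rw [← hw f hf]
    rw [hX.dsm]
  have h3 : X.dist w (r • v) ≤ M := hM ⟨r, hr, rfl⟩
  omega

theorem AT (n : ℕ) : ∀ (A : Type) [Group A] (F : Subgroup A) [F.Normal] [F.FiniteIndex]
    [IsFreeGroup F], RFG F (rel F ⊥) → Nat.card (Th F (rel F ⊥)) < n → ∃ d : A → A → ℕ, LF F d := by
  classical
  induction n with
  | zero =>
    intro A _ F _ _ _ _ h
    exact absurd h (Nat.not_lt_zero _)
  | succ n ih =>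
    intro A _ F hN hFI hfree hfg hcard
    by_cases hF : F = ⊥
    · obtain ⟨T, Y, act, h1, -, t, -⟩ := point_tree A
      refine ⟨_, h1.lf F ?_ t⟩
      intro f hf _ _
      rw [hF, Subgroup.mem_bot] at hf
      exact hf
    · -- a basis element
      have e := IsFreeGroup.toFreeGroup F
      have hne : Nonempty (IsFreeGroup.Generators F) := by
        by_contra hcon
        rw [not_nonempty_iff] at hcon
        apply hF
        rw [eq_bot_iff]
        intro x hx
        have h2 : e ⟨x, hx⟩ = e 1 := Subsingleton.elim _ _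
        have h3 := e.injective h2
        rw [Subgroup.mem_bot]
        exact congrArg Subtype.val h3
      obtain ⟨b⟩ := hne
      obtain ⟨ι, hι, gen, hgen⟩ := exists_gens F ⊥ hfg
      -- the equivariant map
      have hψex : ∀ a : A, a * ((a⁻¹ : A) : A ⧸ F).out ∈ F := by
        intro a
        obtain ⟨h, hh⟩ := QuotientGroup.mk_out_eq_mul F a⁻¹
        rw [hh, mul_inv_cancel_left]
        exact h.2
      let ψ : A → F := fun a => ⟨a * ((a⁻¹ : A) : A ⧸ F).out, hψex a⟩
      have hψ : ∀ (f : F) (a : A), ψ ((f : A) * a) = f • ψ a := by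
        intro f a
        apply Subtype.ext
        show (f : A) * a * ((((f : A) * a)⁻¹ : A) : A ⧸ F).out = f * (a * ((a⁻¹ : A) : A ⧸ F).out)
        have h1 : ((((f : A) * a)⁻¹ : A) : A ⧸ F) = ((a⁻¹ : A) : A ⧸ F) := by
          rw [QuotientGroup.eq]
          have : (((f : A) * a)⁻¹)⁻¹ * a⁻¹ = f := by group
          rw [this]
          exact f.2
        rw [h1, mul_assoc]
      let W : Set F := {f | e f ∈ Wd b}
      have hW1 : W = e.symm '' (Wd b) := by
        ext f
        constructor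
        · intro h
          exact ⟨e f, h, e.symm_apply_apply f⟩
        · rintro ⟨x, hx, rfl⟩
          show e (e.symm x) ∈ Wd b
          rwa [e.apply_symm_apply]
      have hW2 : Wᶜ = e.symm '' (Wd b)ᶜ := by
        ext f
        constructor
        · intro h
          exact ⟨e f, h, e.symm_apply_apply f⟩
        · rintro ⟨x, hx, rfl⟩
          show ¬ e (e.symm x) ∈ Wd b
          rwa [e.apply_symm_apply]
      have hWi : W.Infinite := hW1 ▸ (Wd.inf b).image e.symm.injective.injOn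
      have hWi' : Wᶜ.Infinite := hW2 ▸ (Wd.inf' b).image e.symm.injective.injOn
      have hinj : Function.Injective (fun f : F => ((f : A) * ((ψ 1)⁻¹ : F))) := by
        intro f g h
        exact Subtype.ext (mul_right_cancel h)
      have hψf : ∀ f : F, ψ ((f : A) * ((ψ 1)⁻¹ : F)) = f := by
        intro f
        have h1 := hψ (f * (ψ 1)⁻¹) 1
        rw [mul_one, Subgroup.coe_mul] at h1
        rw [h1, smul_eq_mul, inv_mul_cancel_right]
      have hcut : IsCut gen {a | ψ a ∈ W} := by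
        refine ⟨?_, ?_, ?_⟩
        · refine cut_bd F ψ hψ W ?_ gen
          intro x y
          have h1 := Wd.fin b (e (x⁻¹ * y))
          refine (h1.preimage (f := fun f : F => e (f * x)) ?_).subset ?_
          · intro f _ g _ h
            exact mul_right_cancel (e.injective h)
          · intro f hf
            have hf' : ¬ (e (f * x) ∈ Wd b ↔ e (f * y) ∈ Wd b) := hf
            show ¬ (e (f * x) ∈ Wd b ↔ e (f * x) * e (x⁻¹ * y) ∈ Wd b)
            rw [← map_mul]
            have : f * x * (x⁻¹ * y) = f * y := by group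
            rwa [this]
        · refine (hWi.image (f := fun f : F => ((f : A) * ((ψ 1)⁻¹ : F))) hinj.injOn).mono ?_
          rintro _ ⟨f, hf, rfl⟩
          show ψ ((f : A) * ((ψ 1)⁻¹ : F)) ∈ W
          rwa [hψf]
        · refine (hWi'.image (f := fun f : F => ((f : A) * ((ψ 1)⁻¹ : F))) hinj.injOn).mono ?_
          rintro _ ⟨f, hf, rfl⟩
          show ¬ ψ ((f : A) * ((ψ 1)⁻¹ : F)) ∈ W
          rwa [hψf]
      have hRI : RInv ⊥ {a | ψ a ∈ W} := by
        intro x z hz
        rw [Subgroup.mem_bot] at hz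
        rw [hz, mul_one]
      obtain ⟨V, T, act, hT, htors, v, -, hunb⟩ := cut_tree gen ⊥ hgen ⟨_, hRI, hcut⟩
      have hTE : TEF F T := by
        intro f hf x y hxy hx hy
        obtain ⟨k, hk, h1⟩ := htors f x y hxy hx hy
        have h2 : (⟨f, hf⟩ : F) ^ k = 1 := Subtype.ext (by simpa using h1)
        exact congrArg Subtype.val (free_tors _ k hk h2)
      have hmove : ∀ w : V, ∃ f ∈ F, f • w ≠ w := by
        intro w
        by_contra hcon
        push Not at hcon
        obtain ⟨R, hR⟩ := bdd_of_fix hT F v w hcon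
        obtain ⟨a, ha⟩ := hunb R
        have := hR a
        omega
      have hIH : ∀ w : V, ∃ d : MulAction.stabilizer A w → MulAction.stabilizer A w → ℕ,
          LF (F.subgroupOf (MulAction.stabilizer A w)) d := by
        intro w
        obtain ⟨h1, h2⟩ := vertexA hT hTE (fun Q hQ => free_C2 Q hQ) w (hmove w) ⊥ (by
          intro z hz _
          rw [Subgroup.mem_bot] at hz
          rw [hz, one_smul]) hfg
        rw [Subgroup.bot_subgroupOf] at h1 h2
        have := free_sub F (MulAction.stabilizer A w)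
        exact ih (MulAction.stabilizer A w) (F.subgroupOf (MulAction.stabilizer A w)) h1 (by omega)
      obtain ⟨Ω, r, ω0, -, hr, hr'⟩ := exists_sec (A := A) v
      choose d hd using fun ω => hIH (r ω)
      obtain ⟨E, Z, actE, h1, h2, h3⟩ := BUA hT F hTE r hr hr' d hd
      obtain ⟨e0, -⟩ := h3 ω0
      exact ⟨_, h1.lf F h2 e0⟩

end Pool.Agent.TH97.KP
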