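import Pool.Agent.TH97.KP.RT

/-!
# Subgroups generated by parts of a basis
-/

set_option autoImplicit false

namespace Pool.Agent.TH97.KP

open Pool.Agent.H97R3.VR

section basis

variable {G : Type} [Group G] {F : Subgroup G} {β : Type} (e : F ≃* FreeGroup β)

/-- basis elements -/
def bs (b : β) : G := ((e.symm (FreeGroup.of b) : F) : G)

/-- the subgroup generated by part of the basis -/
def Fb (s : Set β) : Subgroup G := Subgroup.closure (bs e '' s)

theorem Fb_eq (s : Set β) : Fb e s = (Bs s).map (F.subtype.comp e.symm.toMonoidHom) := by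
  unfold Fb Bs
  rw [MonoidHom.map_closure, Set.image_image]
  rfl

theorem mem_Fb {s : Set β} (x : F) : (x : G) ∈ Fb e s ↔ e x ∈ Bs s := by
  rw [Fb_eq]
  constructor
  · rintro ⟨y, hy, hyx⟩
    have h1 : e.symm y = x := Subtype.ext hyx
    rw [← h1, e.apply_symm_apply]
    exact hy
  · intro h
    refine ⟨e x, h, ?_⟩
    show ((e.symm (e x) : F) : G) = x
    rw [e.symm_apply_apply]

theorem bs_mem_F (b : β) : bs e b ∈ F := (e.symm (FreeGroup.of b)).2

theorem Fb_le (s : Set β) : Fb e s ≤ F := by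
  unfold Fb
  rw [Subgroup.closure_le]
  rintro _ ⟨b, -, rfl⟩
  exact bs_mem_F e b

theorem Fb_mono {s t : Set β} (h : s ⊆ t) : Fb e s ≤ Fb e t :=
  Subgroup.closure_mono (Set.image_mono h)

theorem bs_mem {s : Set β} {b : β} (h : b ∈ s) : bs e b ∈ Fb e s :=
  Subgroup.subset_closure ⟨b, h, rfl⟩

theorem Fb_ff (s : Set β) : FFac F ((Fb e s).subgroupOf F) := by
  have h1 := (FFac.basis s).comap e.toMonoidHom e.injective
  have h2 : (Bs s).comap e.toMonoidHom = (Fb e s).subgroupOf F := by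
    ext x
    rw [Subgroup.mem_comap, Subgroup.mem_subgroupOf, mem_Fb]
    rfl
  rwa [h2] at h1

theorem Fb_univ : Fb e Set.univ = F := by
  refine le_antisymm (Fb_le e _) ?_
  intro x hx
  have h1 := mem_Fb e (s := Set.univ) ⟨x, hx⟩
  rw [show ((⟨x, hx⟩ : F) : G) = x from rfl] at h1
  rw [h1]
  unfold Bs
  rw [Set.image_univ, FreeGroup.closure_range_of]
  trivial

theorem of_Bs {s : Set β} {b : β} (h : FreeGroup.of b ∈ Bs s) : b ∈ s := by
  by_contra hc
  have h2 := Wd.inv_right hc h 1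
  rw [one_mul] at h2
  exact Wd.one b (h2.1 (Wd.of b))

theorem bs_Fb {s : Set β} {b : β} (h : bs e b ∈ Fb e s) : b ∈ s := by
  have h1 := (mem_Fb e (s := s) (e.symm (FreeGroup.of b))).1 h
  rw [e.apply_symm_apply] at h1
  exact of_Bs h1

theorem Fb_finite {s : Set β} {x : G} (hx : x ∈ Fb e s) : ∃ t : Set β, t.Finite ∧ t ⊆ s ∧
    x ∈ Fb e t := by
  unfold Fb at hx
  induction hx using Subgroup.closure_induction with
  | mem x hx =>
    obtain ⟨b, hb, rfl⟩ := hx
    exact ⟨{b}, Set.finite_singleton b, Set.singleton_subset_iff.2 hb, bs_mem e rfl⟩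
  | one => exact ⟨∅, Set.finite_empty, Set.empty_subset _, Subgroup.one_mem _⟩
  | mul x y _ _ h1 h2 =>
    obtain ⟨t, h3, h4, h5⟩ := h1
    obtain ⟨u, h6, h7, h8⟩ := h2
    exact ⟨t ∪ u, h3.union h6, Set.union_subset h4 h7,
      Subgroup.mul_mem _ (Fb_mono e Set.subset_union_left h5) (Fb_mono e Set.subset_union_right h8)⟩
  | inv x _ h1 =>
    obtain ⟨t, h3, h4, h5⟩ := h1
    exact ⟨t, h3, h4, Subgroup.inv_mem _ h5⟩

theorem Fb_finset {C : Set G} (hC : C.Finite) (hCF : ∀ c ∈ C, c ∈ F) :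
    ∃ t : Set β, t.Finite ∧ ∀ c ∈ C, c ∈ Fb e t := by
  have h : ∀ c : C, ∃ t : Set β, t.Finite ∧ (c : G) ∈ Fb e t := by
    rintro ⟨c, hc⟩
    have h1 : c ∈ Fb e Set.univ := by rw [Fb_univ]; exact hCF c hc
    obtain ⟨t, h2, -, h3⟩ := Fb_finite e h1
    exact ⟨t, h2, h3⟩
  choose t ht ht' using h
  have : Finite C := hC.to_subtype
  refine ⟨⋃ c : C, t c, Set.finite_iUnion ht, fun c hc => ?_⟩
  exact Fb_mono e (Set.subset_iUnion t ⟨c, hc⟩) (ht' ⟨c, hc⟩)

end basis

/-! ### a class of free factors -/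

/-- relative finite generation of a subgroup -/
def RF {G : Type} [Group G] (Z Q : Subgroup G) : Prop := RFG Q {x | (x : G) ∈ Z}

/-- free factors of `F` which contain `Z ⊓ F` and are finitely generated relative to it -/
structure Cls {G : Type} [Group G] (F Z Q : Subgroup G) : Prop where
  le : Q ≤ F
  ge : Z ⊓ F ≤ Q
  ff : FFac F (Q.subgroupOf F)
  rf : RF Z Q

section cls

variable {G : Type} [Group G] {F Z : Subgroup G}

theorem Cls.inf {Q Q' : Subgroup G} (h : Cls F Z Q) (h' : Cls F Z Q') : Cls F Z (Q ⊓ Q') := by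
  refine ⟨inf_le_left.trans h.le, le_inf h.ge h'.ge, ?_, ?_⟩
  · have h1 := h.ff.inf h'.ff
    have h2 : Q.subgroupOf F ⊓ Q'.subgroupOf F = (Q ⊓ Q').subgroupOf F := by
      ext x
      simp [Subgroup.mem_subgroupOf]
    rwa [h2] at h1
  · -- the retraction of `Q` onto `Q ⊓ Q'`
    have h1 := h'.ff.comap (Subgroup.inclusion h.le) (Subgroup.inclusion_injective h.le)
    obtain ⟨V, X, act, hX, hTE, v, hv⟩ := h1
    obtain ⟨ρ, h2, h3, -⟩ := exists_retr hX hTE v
    have hv' : ∀ f : Q, f • v = v ↔ (f : G) ∈ Q' := fun f => hv f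
    let ρ' : Q →* (Q ⊓ Q' : Subgroup G) :=
      MonoidHom.mk' (fun f => ⟨((ρ f : Q) : G), (ρ f).2, (hv' _).1 (h2 f)⟩) (by
        intro f g
        apply Subtype.ext
        show ((ρ (f * g) : Q) : G) = (ρ f : G) * (ρ g : G)
        rw [map_mul]
        rfl)
    have hρ' : ∀ f : Q, (f : G) ∈ Q' → ((ρ' f : (Q ⊓ Q' : Subgroup G)) : G) = f := by
      intro f hf
      show ((ρ f : Q) : G) = f
      rw [h3 f ((hv' f).2 hf)]
    refine RFG.map ρ' ?_ ?_ h.rf
    · rintro ⟨y, hy⟩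
      exact ⟨⟨y, hy.1⟩, Subtype.ext (hρ' ⟨y, hy.1⟩ hy.2)⟩
    · intro p hp
      apply Subgroup.subset_closure
      show ((ρ' p : (Q ⊓ Q' : Subgroup G)) : G) ∈ Z
      have hp' : (p : G) ∈ Z := hp
      rw [hρ' p (h'.ge ⟨hp', h.le p.2⟩)]
      exact hp'

/-- conjugates -/
def cj (z : G) (Q : Subgroup G) : Subgroup G := Q.comap (MulAut.conj z⁻¹).toMonoidHom

theorem mem_cj {z x : G} {Q : Subgroup G} : x ∈ cj z Q ↔ z⁻¹ * x * z ∈ Q := by
  unfold cj
  rw [Subgroup.mem_comap]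
  show z⁻¹ * x * z⁻¹⁻¹ ∈ Q ↔ _
  rw [inv_inv]

theorem Cls.conj [hN : F.Normal] {Q : Subgroup G} (h : Cls F Z Q) {z : G} (hz : z ∈ Z) :
    Cls F Z (cj z Q) := by
  have hF : ∀ x, x ∈ F ↔ z⁻¹ * x * z ∈ F := by
    intro x
    constructor
    · intro hx
      have := hN.conj_mem x hx z⁻¹
      rwa [inv_inv] at this
    · intro hx
      have := hN.conj_mem _ hx z
      have e1 : z * (z⁻¹ * x * z) * z⁻¹ = x := by group
      rwa [e1] at this
  have hZ : ∀ x, x ∈ Z ↔ z⁻¹ * x * z ∈ Z := by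
    intro x
    constructor
    · intro hx
      exact Z.mul_mem (Z.mul_mem (Z.inv_mem hz) hx) hz
    · intro hx
      have := Z.mul_mem (Z.mul_mem hz hx) (Z.inv_mem hz)
      have e1 : z * (z⁻¹ * x * z) * z⁻¹ = x := by group
      rwa [e1] at this
  refine ⟨?_, ?_, ?_, ?_⟩
  · intro x hx
    rw [hF]
    exact h.le (mem_cj.1 hx)
  · rintro x ⟨hx1, hx2⟩
    rw [mem_cj]
    exact h.ge ⟨(hZ x).1 hx1, (hF x).1 hx2⟩
  · let j : F →* F := MonoidHom.mk' (fun x => ⟨z⁻¹ * x * z, (hF x).1 x.2⟩) (by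
      intro x y
      apply Subtype.ext
      show z⁻¹ * ((x : G) * y) * z = z⁻¹ * x * z * (z⁻¹ * y * z)
      group)
    have hj : Function.Injective j := by
      intro x y hxy
      have h1 : z⁻¹ * (x : G) * z = z⁻¹ * y * z := congrArg Subtype.val hxy
      exact Subtype.ext (mul_left_cancel (mul_right_cancel h1))
    have h1 := h.ff.comap j hj
    have h2 : (Q.subgroupOf F).comap j = (cj z Q).subgroupOf F := by
      ext x
      rw [Subgroup.mem_subgroupOf, mem_cj]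
      rfl
    rwa [h2] at h1
  · have hc : ∀ x : Q, z * x * z⁻¹ ∈ cj z Q := by
      intro x
      rw [mem_cj]
      have e1 : z⁻¹ * (z * x * z⁻¹) * z = x := by group
      rw [e1]
      exact x.2
    let j : Q →* cj z Q := MonoidHom.mk' (fun x => ⟨z * x * z⁻¹, hc x⟩) (by
      intro x y
      apply Subtype.ext
      show z * ((x : G) * y) * z⁻¹ = z * x * z⁻¹ * (z * y * z⁻¹)
      group)
    refine RFG.map j ?_ ?_ h.rf
    · rintro ⟨y, hy⟩
      refine ⟨⟨z⁻¹ * y * z, mem_cj.1 hy⟩, Subtype.ext ?_⟩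
      show z * (z⁻¹ * y * z) * z⁻¹ = y
      group
    · intro p hp
      apply Subgroup.subset_closure
      show z * (p : G) * z⁻¹ ∈ Z
      exact Z.mul_mem (Z.mul_mem hz hp) (Z.inv_mem hz)

end cls

end Pool.Agent.TH97.KP
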