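import Pool.Agent.TH97.KP.Conv

/-!
# Blowing up the vertices of a tree
-/

set_option autoImplicit false

namespace Pool.Agent.TH97.KP

open Pool.Agent.H97R3.VR

theorem dist_map {V V' : Type} {X : SimpleGraph V} {X' : SimpleGraph V'} (hc : X.Connected)
    (hc' : X'.Connected) (g : V → V') (hg : ∀ u w, X.Adj u w → g u = g w ∨ X'.Adj (g u) (g w))
    (n : ℕ) : ∀ u w, X.dist u w = n → X'.dist (g u) (g w) ≤ n := by
  induction n with
  | zero =>
    intro u w h
    rw [hc.dist_eq_zero_iff] at h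
    rw [h, SimpleGraph.dist_self]
  | succ n ih =>
    intro u w h
    obtain ⟨z, h1, h2⟩ := exists_pred hc h
    have h3 := ih u z h2
    rcases hg z w h1 with h4 | h4
    · rw [← h4]
      omega
    · have h5 : X'.dist (g u) (g w) ≤ X'.dist (g u) (g z) + X'.dist (g z) (g w) := hc'.dist_triangle
      rw [adj_one h4] at h5
      omega

/-- equivariant choices -/
theorem equi_choice {A Q E : Type} [Group A] [MulAction A Q] [MulAction A E] (Q0 : Q → Prop)
    (R : Q → E → Prop) (hQ : ∀ (a : A) q, Q0 q → Q0 (a • q))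
    (hR : ∀ (a : A) q e, Q0 q → R q e → R (a • q) (a • e))
    (hex : ∀ q, Q0 q → ∃ e, R q e ∧ ∀ a : A, a • q = q → a • e = e) :
    ∃ α : Q → E → Prop, (∀ q, Q0 q → ∃! e, α q e) ∧ (∀ q e, α q e → R q e) ∧
      ∀ (a : A) q e, α q e → α (a • q) (a • e) := by
  classical
  have hrep : ∀ q : Q, ∃ a : A, a • q = (Quotient.out (Quotient.mk (MulAction.orbitRel A Q) q)) := by
    intro q
    have h1 : Quotient.mk (MulAction.orbitRel A Q)
        (Quotient.out (Quotient.mk (MulAction.orbitRel A Q) q)) =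
        Quotient.mk (MulAction.orbitRel A Q) q := Quotient.out_eq _
    have h2 := Quotient.exact h1
    obtain ⟨a, ha⟩ := h2
    exact ⟨a, ha⟩
  -- chosen value at the representative
  have hval : ∀ q : Q, ∃ e : Option E, ∀ (_ : Q0 q), ∃ e', e = some e' ∧ R q e' ∧
      ∀ a : A, a • q = q → a • e' = e' := by
    intro q
    by_cases h : Q0 q
    · obtain ⟨e, h1, h2⟩ := hex q h
      exact ⟨some e, fun _ => ⟨e, rfl, h1, h2⟩⟩
    · exact ⟨none, fun h' => absurd h' h⟩
  choose val hval using hval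
  refine ⟨fun q e => Q0 q ∧ ∃ a : A, ∃ q0 : Q, q0 = Quotient.out (Quotient.mk (MulAction.orbitRel A Q) q) ∧
    a • q = q0 ∧ val q0 = some (a • e), ?_, ?_, ?_⟩
  · intro q hq
    obtain ⟨a, ha⟩ := hrep q
    have hq0 : Q0 (a • q) := hQ a q hq
    obtain ⟨e', h1, h2, h3⟩ := hval (a • q) hq0
    refine ⟨a⁻¹ • e', ⟨hq, a, a • q, ha, rfl, ?_⟩, ?_⟩
    · rw [smul_inv_smul]
      exact h1
    · rintro e ⟨-, b, q0, hb0, hb, he⟩
      have h4 : q0 = a • q := by rw [hb0, ha]
      rw [h4, h1] at he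
      have h5 : b • e = e' := (Option.some.inj he).symm
      have h6 : (a * b⁻¹) • (a • q) = a • q := by
        have : a • q = b • q := by rw [hb, h4]
        rw [mul_smul]
        conv_lhs => rw [this]
        rw [inv_smul_smul]
      have h7 := h3 (a * b⁻¹) h6
      rw [← h5, ← mul_smul] at h7
      rw [inv_mul_cancel_right] at h7
      rw [← h5, ← h7, inv_smul_smul]
  · rintro q e ⟨hq, a, q0, -, ha, he⟩
    have hq0 : Q0 q0 := ha ▸ hQ a q hq
    obtain ⟨e', h1, h2, h3⟩ := hval q0 hq0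
    rw [h1] at he
    have h4 : e' = a • e := Option.some.inj he
    have h5 := hR a⁻¹ q0 e' hq0 h2
    rwa [h4, inv_smul_smul, ← ha, inv_smul_smul] at h5
  · rintro b q e ⟨hq, a, q0, ha0, ha, he⟩
    refine ⟨hQ b q hq, a * b⁻¹, q0, ?_, ?_, ?_⟩
    · rw [ha0]
      congr 1
      refine Quotient.sound ?_
      exact ⟨b⁻¹, by simp⟩
    · rw [mul_smul, inv_smul_smul, ha]
    · rw [mul_smul, inv_smul_smul, he]

section bl

variable {A V E : Type} {X : SimpleGraph V} {Y : SimpleGraph E} {p : E → V} {α : V → V → E}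

/-- the blown up graph -/
def Bl (X : SimpleGraph V) (Y : SimpleGraph E) (p : E → V) (α : V → V → E) : SimpleGraph E where
  Adj e e' := Y.Adj e e' ∨ (X.Adj (p e) (p e') ∧ α (p e) (p e') = e ∧ α (p e') (p e) = e')
  symm := ⟨fun _ _ h => by
    rcases h with h | ⟨h1, h2, h3⟩
    · exact Or.inl h.symm
    · exact Or.inr ⟨h1.symm, h3, h2⟩⟩
  loopless := ⟨fun e h => by
    rcases h with h | ⟨h1, -⟩
    · exact Y.loopless.irrefl e h
    · exact X.loopless.irrefl _ h1⟩

structure BD (X : SimpleGraph V) (Y : SimpleGraph E) (p : E → V) (α : V → V → E) : Prop where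
  hX : IsTr X
  hp : ∀ e e', Y.Adj e e' → p e = p e'
  hconn : ∀ e e', p e = p e' → Y.Reachable e e'
  hcut : ∀ e e', Y.Adj e e' → ∃ U : Set E, e ∈ U ∧ e' ∉ U ∧
    ∀ u ∈ U, ∀ w, w ∉ U → Y.Adj u w → u = e ∧ w = e'
  hα : ∀ x y, X.Adj x y → p (α x y) = x
  hs : ∀ x, ∃ e, p e = x

open Classical in
/-- first step -/
noncomputable def nx (X : SimpleGraph V) (v x : V) : V :=
  if h : ∃ n, X.Adj n v ∧ X.dist n x + 1 = X.dist v x then h.choose else v

theorem nx_spec (hc : X.Connected) {v x : V} (h : x ≠ v) :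
    X.Adj (nx X v x) v ∧ X.dist (nx X v x) x + 1 = X.dist v x := by
  have h1 : ∃ n, X.Adj n v ∧ X.dist n x + 1 = X.dist v x := exists_next hc h.symm
  unfold nx
  rw [dif_pos h1]
  exact h1.choose_spec

theorem nx_eq (ht : IsTr X) {v x n : V} (h : x ≠ v) (h1 : X.Adj n v)
    (h2 : X.dist n x + 1 = X.dist v x) : nx X v x = n := by
  obtain ⟨h3, h4⟩ := nx_spec ht.conn h
  exact ht.next_unique h3 h1 h4 h2

open Classical in
/-- retraction to a fibre -/
noncomputable def rt (X : SimpleGraph V) (p : E → V) (α : V → V → E) (v : V) (u : E) : E :=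
  if p u = v then u else α v (nx X v (p u))

theorem BD.rt_adj (h : BD X Y p α) (v : V) {u w : E} (huw : (Bl X Y p α).Adj u w) :
    rt X p α v u = rt X p α v w ∨ (Y.Adj u w ∧ p u = v ∧ p w = v) := by
  classical
  rcases huw with h1 | ⟨h1, h2, h3⟩
  · have h4 := h.hp u w h1
    by_cases hv : p u = v
    · exact Or.inr ⟨h1, hv, h4 ▸ hv⟩
    · left
      unfold rt
      rw [if_neg hv, if_neg (h4 ▸ hv), h4]
  · left
    have key : ∀ u w : E, X.Adj (p u) (p w) → α (p u) (p w) = u → p u = v →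
        rt X p α v u = rt X p α v w := by
      intro u w h1 h2 hu
      have hw : p w ≠ v := by
        intro hw
        rw [hu, hw] at h1
        exact X.loopless.irrefl _ h1
      unfold rt
      rw [if_pos hu, if_neg hw]
      have h5 : nx X v (p w) = p w := by
        refine nx_eq h.hX hw (hu ▸ h1.symm) ?_
        rw [SimpleGraph.dist_self, adj_one (hu ▸ h1)]
      rw [h5, ← hu, h2]
    by_cases hu : p u = v
    · exact key u w h1 h2 hu
    · by_cases hw : p w = v
      · exact (key w u h1.symm h3 hw).symm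
      · unfold rt
        rw [if_neg hu, if_neg hw]
        congr 1
        obtain ⟨h4, h5⟩ := nx_spec h.hX.conn hu
        symm
        refine nx_eq h.hX hw h4 ?_
        rcases h.hX.side h4 (p w) with h6 | h6
        · exact h6
        · exact absurd (h.hX.crossing h4 h5 h6 h1).2 hw

theorem BD.tr (h : BD X Y p α) : IsTr (Bl X Y p α) := by
  classical
  have hYle : ∀ u w, Y.Reachable u w → (Bl X Y p α).Reachable u w := by
    intro u w huw
    exact huw.mono (fun a b hab => Or.inl hab)
  refine ⟨?_, ?_⟩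
  · obtain ⟨x0⟩ := h.hX.conn.nonempty
    obtain ⟨e0, he0⟩ := h.hs x0
    have : Nonempty E := ⟨e0⟩
    have key : ∀ x, ∀ e, p e = x → (Bl X Y p α).Reachable e0 e := by
      intro x
      refine conn_ind h.hX.conn (fun x => ∀ e, p e = x → (Bl X Y p α).Reachable e0 e) x0 ?_ ?_ x
      · intro e he
        exact hYle _ _ (h.hconn _ _ (he0.trans he.symm))
      · intro x y hxy ih e he
        have h1 := ih (α x y) (h.hα x y hxy)
        have h2 : (Bl X Y p α).Adj (α x y) (α y x) := by
          refine Or.inr ?_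
          rw [h.hα x y hxy, h.hα y x hxy.symm]
          exact ⟨hxy, rfl, rfl⟩
        refine h1.trans (h2.reachable.trans (hYle _ _ (h.hconn _ _ ?_)))
        rw [h.hα y x hxy.symm, he]
    exact SimpleGraph.Connected.mk fun u w => (key _ u rfl).symm.trans (key _ w rfl)
  · intro e e' hadj
    rcases hadj with h1 | ⟨h1, h2, h3⟩
    · obtain ⟨U, hU1, hU2, hU3⟩ := h.hcut e e' h1
      have hpe := h.hp e e' h1
      have hid : ∀ u, p u = p e → rt X p α (p e) u = u := fun u hu => if_pos hu
      refine ⟨{u | rt X p α (p e) u ∈ U}, ?_, ?_, ?_⟩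
      · show rt X p α (p e) e ∈ U
        rw [hid e rfl]
        exact hU1
      · show ¬ rt X p α (p e) e' ∈ U
        rw [hid e' hpe.symm]
        exact hU2
      · intro u hu w hw huw
        rcases h.rt_adj (p e) huw with h4 | ⟨h4, h5, h6⟩
        · have hu' : rt X p α (p e) u ∈ U := hu
          rw [h4] at hu'
          exact absurd hu' hw
        · have hu' : rt X p α (p e) u ∈ U := hu
          have hw' : ¬ rt X p α (p e) w ∈ U := hw
          rw [hid u h5] at hu'
          rw [hid w h6] at hw'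
          exact hU3 u hu' w hw' h4
    · refine ⟨{u | p u ∈ Sd X (p e) (p e')}, ?_, ?_, ?_⟩
      · show X.dist (p e) (p e) + 1 = X.dist (p e') (p e)
        rw [SimpleGraph.dist_self, adj_one h1.symm]
      · show ¬ X.dist (p e) (p e') + 1 = X.dist (p e') (p e')
        rw [SimpleGraph.dist_self]
        omega
      · intro u hu w hw huw
        have hw' : p w ∈ Sd X (p e') (p e) := by
          rcases h.hX.side h1 (p w) with h4 | h4
          · exact absurd h4 hw
          · exact h4
        rcases huw with h4 | ⟨h4, h5, h6⟩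
        · have h7 := h.hp u w h4
          have hu' : p u ∈ Sd X (p e) (p e') := hu
          rw [h7] at hu'
          exact absurd hw' (sd_not hu')
        · obtain ⟨h7, h8⟩ := h.hX.crossing h1 hu hw' h4
          rw [h7, h8] at h5 h6
          exact ⟨h5.symm.trans h2, h6.symm.trans h3⟩

end bl

/-! ### induced graphs -/

section ind

variable {A : Type} [Group A] (S : Subgroup A) (T : Type) [MulAction S T]

/-- identifications -/
def indS : Setoid (A × T) where
  r x y := ∃ s : S, y.1 = x.1 * (s : A)⁻¹ ∧ y.2 = s • x.2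
  iseqv := by
    refine ⟨fun x => ⟨1, by simp, by simp⟩, ?_, ?_⟩
    · rintro ⟨a, t⟩ ⟨b, u⟩ ⟨s, h1, h2⟩
      refine ⟨s⁻¹, ?_, ?_⟩
      · simp only at h1 ⊢
        rw [h1]; simp
      · simp only at h2 ⊢
        rw [h2, inv_smul_smul]
    · rintro ⟨a, t⟩ ⟨b, u⟩ ⟨c, v⟩ ⟨s, h1, h2⟩ ⟨s', h3, h4⟩
      refine ⟨s' * s, ?_, ?_⟩
      · simp only at h1 h3 ⊢
        rw [h3, h1]; simp [mul_assoc]
      · simp only at h2 h4 ⊢
        rw [h4, h2, mul_smul]

/-- the induced set -/
def Ind : Type := Quotient (indS S T)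

variable {S T}

/-- its elements -/
def Ind.mk (a : A) (t : T) : Ind S T := Quotient.mk (indS S T) (a, t)

theorem Ind.mk_eq {a b : A} {t u : T} :
    (Ind.mk a t : Ind S T) = Ind.mk b u ↔ ∃ s : S, b = a * (s : A)⁻¹ ∧ u = s • t := by
  constructor
  · intro h
    exact Quotient.exact h
  · intro h
    exact Quotient.sound h

theorem Ind.mk_mul (a : A) (s : S) (t : T) : (Ind.mk (a * s) t : Ind S T) = Ind.mk a (s • t) := by
  rw [Ind.mk_eq]
  exact ⟨s, by simp, rfl⟩

theorem Ind.ind' (q : Ind S T) : ∃ a t, q = Ind.mk a t := by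
  induction q using Quotient.inductionOn with
  | h x => exact ⟨x.1, x.2, rfl⟩

instance : MulAction A (Ind S T) where
  smul b := Quotient.map (fun x : A × T => (b * x.1, x.2)) (by
    rintro ⟨a, t⟩ ⟨a', t'⟩ ⟨s, h1, h2⟩
    refine ⟨s, ?_, h2⟩
    simp only at h1 ⊢
    rw [h1, mul_assoc])
  one_smul q := by
    obtain ⟨a, t, rfl⟩ := q.ind'
    show Ind.mk (1 * a) t = Ind.mk a t
    rw [one_mul]
  mul_smul b c q := by
    obtain ⟨a, t, rfl⟩ := q.ind'
    show Ind.mk (b * c * a) t = Ind.mk (b * (c * a)) t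
    rw [mul_assoc]

theorem Ind.smul_mk (b a : A) (t : T) : b • (Ind.mk a t : Ind S T) = Ind.mk (b * a) t := rfl

end ind

end Pool.Agent.TH97.KP
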