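import Pool.Agent.TH97.KP.Blow

/-!
# Blowing up the vertices of a tree with a group action
-/

set_option autoImplicit false

namespace Pool.Agent.TH97.KP

open Pool.Agent.H97R3.VR

section

variable {A V : Type} [Group A] [MulAction A V] {X : SimpleGraph V} {Ω : Type} (r : Ω → V)
  (T : Ω → Type) [∀ ω, MulAction (MulAction.stabilizer A (r ω)) (T ω)] (Y : ∀ ω, SimpleGraph (T ω))

/-- the total space -/
def Tot : Type := Σ ω, Ind (MulAction.stabilizer A (r ω)) (T ω)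

instance : MulAction A (Tot (A := A) r T) :=
  inferInstanceAs (MulAction A (Σ ω, Ind (MulAction.stabilizer A (r ω)) (T ω)))

variable {T}

/-- points of the total space -/
def Tot.mk (ω : Ω) (a : A) (t : T ω) : Tot (A := A) r T := ⟨ω, Ind.mk a t⟩

variable {r}

theorem Tot.smul_mk (b : A) (ω : Ω) (a : A) (t : T ω) :
    b • Tot.mk r ω a t = Tot.mk r ω (b * a) t := rfl

theorem Tot.ind' (e : Tot (A := A) r T) : ∃ ω a t, e = Tot.mk r ω a t := by
  obtain ⟨ω, q⟩ := e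
  obtain ⟨a, t, rfl⟩ := q.ind'
  exact ⟨ω, a, t, rfl⟩

theorem Tot.mk_eq {ω : Ω} {a b : A} {t u : T ω} :
    Tot.mk r ω a t = Tot.mk r ω b u ↔
      ∃ s : MulAction.stabilizer A (r ω), b = a * (s : A)⁻¹ ∧ u = s • t := by
  rw [← Ind.mk_eq]
  constructor
  · intro h
    have := (Sigma.mk.inj_iff.1 h).2
    exact eq_of_heq this
  · intro h
    show (⟨ω, Ind.mk a t⟩ : Σ ω, Ind (MulAction.stabilizer A (r ω)) (T ω)) = ⟨ω, Ind.mk b u⟩
    rw [h]

theorem Tot.mk_fst {ω ω' : Ω} {a b : A} {t : T ω} {u : T ω'}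
    (h : Tot.mk r ω a t = Tot.mk r ω' b u) : ω = ω' := (Sigma.mk.inj_iff.1 h).1

theorem Tot.mk_mul (ω : Ω) (a : A) (s : MulAction.stabilizer A (r ω)) (t : T ω) :
    Tot.mk r ω (a * s) t = Tot.mk r ω a (s • t) := by
  rw [Tot.mk_eq]
  exact ⟨s, by simp, rfl⟩

theorem Tot.mk_inj {ω : Ω} {a : A} {t u : T ω} (h : Tot.mk r ω a t = Tot.mk r ω a u) : t = u := by
  rw [Tot.mk_eq] at h
  obtain ⟨s, h1, h2⟩ := h
  have : (s : A) = 1 := by
    have h3 : a * (s : A)⁻¹ = a * 1 := by rw [← h1, mul_one]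
    simpa using mul_left_cancel h3
  have hs : s = 1 := Subtype.ext this
  rw [h2, hs, one_smul]

/-- the projection -/
def Tot.p (e : Tot (A := A) r T) : V :=
  Quotient.lift (fun x : A × T e.1 => x.1 • r e.1) (by
    rintro ⟨a, t⟩ ⟨b, u⟩ ⟨s, h1, h2⟩
    simp only at h1 ⊢
    rw [h1, mul_smul]
    congr 1
    rw [eq_inv_smul_iff]
    exact s.2) e.2

theorem Tot.p_mk (ω : Ω) (a : A) (t : T ω) : (Tot.mk r ω a t).p = a • r ω := rfl

theorem Tot.p_smul (b : A) (e : Tot (A := A) r T) : (b • e).p = b • e.p := by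
  obtain ⟨ω, a, t, rfl⟩ := e.ind'
  rw [Tot.smul_mk, Tot.p_mk, Tot.p_mk, mul_smul]

variable (r) in
/-- the graph on the fibres -/
def Tot.G (Y : ∀ ω, SimpleGraph (T ω)) : SimpleGraph (Tot (A := A) r T) where
  Adj e e' := ∃ ω a t t', (Y ω).Adj t t' ∧ e = Tot.mk r ω a t ∧ e' = Tot.mk r ω a t'
  symm := ⟨fun _ _ ⟨ω, a, t, t', h1, h2, h3⟩ => ⟨ω, a, t', t, h1.symm, h3, h2⟩⟩
  loopless := ⟨fun _ ⟨ω, a, t, t', h1, h2, h3⟩ => by
    rw [h2] at h3
    exact (Y ω).loopless.irrefl t (Tot.mk_inj h3 ▸ h1)⟩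

theorem blow (hX : TrA A X) (hr : ∀ x, ∃ (a : A) (ω : Ω), a • r ω = x)
    (hr' : ∀ ω ω' (a : A), a • r ω = r ω' → ω = ω')
    (hY : ∀ ω, TrA (MulAction.stabilizer A (r ω)) (Y ω))
    (hatt : ∀ ω y, X.Adj (r ω) y → ∃ t : T ω, ∀ s : MulAction.stabilizer A (r ω),
      (s : A) • y = y → s • t = t) :
    ∃ (E : Type) (_ : MulAction A E) (Z : SimpleGraph E) (p : E → V) (ι : ∀ ω, T ω → E),
      TrA A Z ∧ (∀ (a : A) e, p (a • e) = a • p e) ∧ (∀ ω t, p (ι ω t) = r ω) ∧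
      (∀ ω (s : MulAction.stabilizer A (r ω)) t, ι ω (s • t) = (s : A) • ι ω t) ∧
      (∀ ω, Function.Injective (ι ω)) ∧ (∀ e, ∃ (a : A) (ω : Ω) (t : T ω), e = a • ι ω t) ∧
      (∀ e e', Z.Adj e e' → X.Adj (p e) (p e') ∨
        ∃ (a : A) (ω : Ω) (t t' : T ω), (Y ω).Adj t t' ∧ e = a • ι ω t ∧ e' = a • ι ω t') ∧
      (∀ ω t t', Z.dist (ι ω t) (ι ω t') = (Y ω).dist t t') := by
  classical
  -- attaching map
  obtain ⟨α0, hα1, hα2, hα3⟩ := equi_choice (A := A) (Q := V × V) (E := Tot (A := A) r T)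
    (fun q => X.Adj q.1 q.2) (fun q e => e.p = q.1)
    (fun a q h => hX.act a _ _ h) (fun a q e _ h => by
      show (a • e).p = a • q.1
      rw [Tot.p_smul, h]) (by
      rintro ⟨x, y⟩ hxy
      simp only at hxy ⊢
      obtain ⟨a, ω, ha⟩ := hr x
      have h1 : X.Adj (r ω) (a⁻¹ • y) := by
        have := hX.act a⁻¹ _ _ hxy
        rwa [← ha, inv_smul_smul] at this
      obtain ⟨t, ht⟩ := hatt ω _ h1
      refine ⟨Tot.mk r ω a t, ?_, ?_⟩
      · rw [Tot.p_mk, ha]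
      · intro b hb
        have hb1 : b • x = x := congrArg Prod.fst hb
        have hb2 : b • y = y := congrArg Prod.snd hb
        have hs : (a⁻¹ * b * a) • r ω = r ω := by
          rw [mul_smul, mul_smul, ha, hb1, ← ha, inv_smul_smul]
        have h2 := ht ⟨a⁻¹ * b * a, hs⟩ (by
          show (a⁻¹ * b * a) • a⁻¹ • y = a⁻¹ • y
          rw [mul_smul, mul_smul, smul_inv_smul, hb2])
        rw [Tot.smul_mk]
        have h3 : b * a = a * ((⟨a⁻¹ * b * a, hs⟩ : MulAction.stabilizer A (r ω)) : A) := by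
          show b * a = a * (a⁻¹ * b * a)
          group
        rw [h3, Tot.mk_mul, h2])
  have hne : ∀ x, ∃ e : Tot (A := A) r T, e.p = x := by
    intro x
    obtain ⟨a, ω, ha⟩ := hr x
    obtain ⟨t⟩ := (hY ω).tr.conn.nonempty
    exact ⟨Tot.mk r ω a t, by rw [Tot.p_mk, ha]⟩
  have hαex : ∀ x y, ∃ e : Tot (A := A) r T, (X.Adj x y → α0 (x, y) e) := by
    intro x y
    by_cases h : X.Adj x y
    · obtain ⟨e, he, -⟩ := hα1 (x, y) h
      exact ⟨e, fun _ => he⟩
    · obtain ⟨e, -⟩ := hne x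
      exact ⟨e, fun h' => absurd h' h⟩
  choose α hα using hαex
  have hαp : ∀ x y, X.Adj x y → (α x y).p = x := fun x y h => hα2 (x, y) _ (hα x y h)
  have hαs : ∀ (a : A) x y, X.Adj x y → α (a • x) (a • y) = a • α x y := by
    intro a x y h
    have h1 := hα (a • x) (a • y) (hX.act a _ _ h)
    have h2 := hα3 a (x, y) _ (hα x y h)
    exact (hα1 (a • x, a • y) (hX.act a _ _ h)).unique h1 h2
  -- the fibre graph
  have hGp : ∀ e e' : Tot (A := A) r T, (Tot.G r Y).Adj e e' → e.p = e'.p := by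
    rintro e e' ⟨ω, a, t, t', -, rfl, rfl⟩
    rfl
  have hfib : ∀ (e : Tot (A := A) r T) ω a, e.p = a • r ω → ∃ t, e = Tot.mk r ω a t := by
    intro e ω a he
    obtain ⟨ω', b, u, rfl⟩ := e.ind'
    rw [Tot.p_mk] at he
    have h1 : ω' = ω := hr' ω' ω (a⁻¹ * b) (by rw [mul_smul, he, inv_smul_smul])
    subst h1
    have hs : (a⁻¹ * b) • r ω' = r ω' := by rw [mul_smul, he, inv_smul_smul]
    refine ⟨(⟨a⁻¹ * b, hs⟩ : MulAction.stabilizer A (r ω')) • u, ?_⟩
    rw [← Tot.mk_mul]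
    show Tot.mk r ω' b u = Tot.mk r ω' (a * (a⁻¹ * b)) u
    rw [mul_inv_cancel_left]
  have hBD : BD X (Tot.G r Y) Tot.p α := by
    refine ⟨hX.tr, hGp, ?_, ?_, hαp, hne⟩
    · intro e e' hee
      obtain ⟨ω, a, t, rfl⟩ := e.ind'
      obtain ⟨t', rfl⟩ := hfib e' ω a hee.symm
      obtain ⟨w⟩ := (hY ω).tr.conn.preconnected t t'
      let f : (Y ω) →g (Tot.G r Y) := ⟨fun t => Tot.mk r ω a t, fun {t t'} h => ⟨ω, a, t, t', h, rfl, rfl⟩⟩
      exact ⟨w.map f⟩
    · rintro e e' ⟨ω, a, t, t', h1, rfl, rfl⟩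
      obtain ⟨U, hU1, hU2, hU3⟩ := (hY ω).tr.cut t t' h1
      refine ⟨{e | ∃ t1 ∈ U, e = Tot.mk r ω a t1}, ⟨t, hU1, rfl⟩, ?_, ?_⟩
      · rintro ⟨t1, ht1, h2⟩
        exact hU2 (Tot.mk_inj h2 ▸ ht1)
      · rintro u ⟨t1, ht1, rfl⟩ w hw ⟨ω', b, s, s', hss, h2, rfl⟩
        have h3 := Tot.mk_fst h2
        subst h3
        rw [Tot.mk_eq] at h2
        obtain ⟨c, h3, h4⟩ := h2
        have h5 : Tot.mk r ω b s' = Tot.mk r ω a (c⁻¹ • s') := by
          rw [← Tot.mk_mul]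
          rw [h3]
          rfl
        have h6 : (Y ω).Adj t1 (c⁻¹ • s') := by
          have := (hY ω).act c⁻¹ _ _ hss
          rwa [h4, inv_smul_smul] at this
        have h7 : c⁻¹ • s' ∉ U := fun hc => hw ⟨_, hc, h5⟩
        obtain ⟨h8, h9⟩ := hU3 t1 ht1 _ h7 h6
        rw [h5, h9, h8]
        exact ⟨rfl, rfl⟩
  have hTr := hBD.tr
  have hact : ∀ (a : A) (e e' : Tot (A := A) r T), (Bl X (Tot.G r Y) Tot.p α).Adj e e' →
      (Bl X (Tot.G r Y) Tot.p α).Adj (a • e) (a • e') := by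
    intro a e e' h
    rcases h with ⟨ω, b, t, t', h1, rfl, rfl⟩ | ⟨h1, h2, h3⟩
    · exact Or.inl ⟨ω, a * b, t, t', h1, rfl, rfl⟩
    · refine Or.inr ?_
      rw [Tot.p_smul, Tot.p_smul]
      refine ⟨hX.act a _ _ h1, ?_, ?_⟩
      · rw [hαs a _ _ h1, h2]
      · rw [hαs a _ _ h1.symm, h3]
  refine ⟨Tot (A := A) r T, inferInstance, Bl X (Tot.G r Y) Tot.p α, Tot.p,
    fun ω t => Tot.mk r ω 1 t, ⟨hTr, hact, ?_⟩, Tot.p_smul, ?_, ?_, ?_, ?_, ?_, ?_⟩
  · -- no inversions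
    intro a e e' h h1 h2
    rcases h with ⟨ω, b, t, t', h3, rfl, rfl⟩ | ⟨h3, -, -⟩
    · have h4 : (b⁻¹ * a * b) • r ω = r ω := by
        have := congrArg Tot.p h1
        rw [Tot.p_smul, Tot.p_mk, Tot.p_mk] at this
        rw [mul_smul, mul_smul, this, inv_smul_smul]
      have key : ∀ t t' : T ω, a • Tot.mk r ω b t = Tot.mk r ω b t' →
          (⟨b⁻¹ * a * b, h4⟩ : MulAction.stabilizer A (r ω)) • t = t' := by
        intro t t' h
        rw [Tot.smul_mk] at h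
        have h5 : a * b = b * ((⟨b⁻¹ * a * b, h4⟩ : MulAction.stabilizer A (r ω)) : A) := by
          show a * b = b * (b⁻¹ * a * b)
          group
        rw [h5, Tot.mk_mul] at h
        exact Tot.mk_inj h
      exact (hY ω).ninv _ t t' h3 (key t t' h1) (key t' t h2)
    · refine hX.ninv a _ _ h3 ?_ ?_
      · rw [← Tot.p_smul, h1]
      · rw [← Tot.p_smul, h2]
  · intro ω t
    rw [Tot.p_mk, one_smul]
  · intro ω s t
    show Tot.mk r ω 1 (s • t) = (s : A) • Tot.mk r ω 1 t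
    rw [Tot.smul_mk, ← Tot.mk_mul, one_mul, mul_one]
  · intro ω t t' h
    exact Tot.mk_inj h
  · intro e
    obtain ⟨ω, a, t, rfl⟩ := e.ind'
    exact ⟨a, ω, t, by rw [Tot.smul_mk, mul_one]⟩
  · intro e e' h
    rcases h with ⟨ω, a, t, t', h1, rfl, rfl⟩ | ⟨h1, -, -⟩
    · exact Or.inr ⟨a, ω, t, t', h1, by rw [Tot.smul_mk, mul_one], by rw [Tot.smul_mk, mul_one]⟩
    · exact Or.inl h1
  · intro ω t t'
    refine le_antisymm ?_ ?_
    · refine dist_map (hY ω).tr.conn hTr.conn (fun t => Tot.mk r ω 1 t) ?_ _ t t' rfl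
      intro u w huw
      exact Or.inr (Or.inl ⟨ω, 1, u, w, huw, rfl, rfl⟩)
    · have hgex : ∀ e : Tot (A := A) r T, ∃ t : T ω, rt X Tot.p α (r ω) e = Tot.mk r ω 1 t := by
        intro e
        apply hfib
        rw [one_smul]
        by_cases h : e.p = r ω
        · unfold rt
          rw [if_pos h, h]
        · unfold rt
          rw [if_neg h]
          exact hαp _ _ (nx_spec hX.tr.conn h).1.symm
      choose g hg using hgex
      have hg1 : ∀ t : T ω, g (Tot.mk r ω 1 t) = t := by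
        intro t
        have h1 := hg (Tot.mk r ω 1 t)
        have h2 : rt X Tot.p α (r ω) (Tot.mk r ω 1 t) = Tot.mk r ω 1 t := by
          unfold rt
          rw [if_pos]
          rw [Tot.p_mk, one_smul]
        rw [h2] at h1
        exact (Tot.mk_inj h1).symm
      have := dist_map hTr.conn (hY ω).tr.conn g (by
        intro u w huw
        rcases hBD.rt_adj (r ω) huw with h1 | ⟨h1, h2, h3⟩
        · left
          rw [hg, hg] at h1
          exact Tot.mk_inj h1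
        · right
          have e1 : u = Tot.mk r ω 1 (g u) := by
            rw [← hg u]
            unfold rt
            rw [if_pos h2]
          have e2 : w = Tot.mk r ω 1 (g w) := by
            rw [← hg w]
            unfold rt
            rw [if_pos h3]
          obtain ⟨ω', b, s, s', hss, h4, h5⟩ := h1
          rw [e1] at h4
          rw [e2] at h5
          have h6 := Tot.mk_fst h4
          subst h6
          rw [Tot.mk_eq] at h4 h5
          obtain ⟨c, h7, h8⟩ := h4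
          obtain ⟨c', h9, h10⟩ := h5
          have h11 : c = c' := by
            apply Subtype.ext
            have h12 : (1 : A) * (c : A)⁻¹ = 1 * (c' : A)⁻¹ := h7.symm.trans h9
            simpa using h12
          rw [h8, h10, ← h11] at hss
          have := (hY ω).act c⁻¹ _ _ hss
          rwa [inv_smul_smul, inv_smul_smul] at this) _ (Tot.mk r ω 1 t) (Tot.mk r ω 1 t') rfl
      rw [hg1, hg1] at this
      exact this

end

end Pool.Agent.TH97.KP
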