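import Pool.Agent.TH97.KP.TS

/-!
# Length functions and based trees
-/

set_option autoImplicit false

namespace Pool.Agent.TH97.KP

open Pool.Agent.H97R3.VR

section basic

variable {A V : Type} [Group A] [MulAction A V] {X : SimpleGraph V}

theorem dsm' (hc : X.Connected) (hact : ∀ (a : A) (x y : V), X.Adj x y → X.Adj (a • x) (a • y))
    (a : A) (x y : V) : X.dist (a • x) (a • y) = X.dist x y := by
  have key : ∀ (a : A) (n : ℕ) (x y : V), X.dist x y = n → X.dist (a • x) (a • y) ≤ n := by
    intro a n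
    induction n with
    | zero =>
      intro x y e
      rw [hc.dist_eq_zero_iff] at e
      rw [e, SimpleGraph.dist_self]
    | succ n ih =>
      intro x y e
      obtain ⟨z, h1, h2⟩ := exists_pred hc e
      have h3 := ih x z h2
      have h4 : X.dist (a • x) (a • y) ≤ X.dist (a • x) (a • z) + X.dist (a • z) (a • y) :=
        hc.dist_triangle
      rw [adj_one (hact a _ _ h1)] at h4
      omega
  refine le_antisymm (key a _ x y rfl) ?_
  have := key a⁻¹ _ (a • x) (a • y) rfl
  rwa [inv_smul_smul, inv_smul_smul] at this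

theorem exists_btw (hc : X.Connected) (x : V) (n : ℕ) : ∀ z, X.dist x z = n → ∀ t ≤ n,
    ∃ y, X.dist x y = t ∧ H97R3.VR.Btw X x z y := by
  induction n with
  | zero =>
    intro z hz t ht
    refine ⟨z, by omega, ?_⟩
    unfold H97R3.VR.Btw
    rw [SimpleGraph.dist_self, add_zero]
  | succ n ih =>
    intro z hz t ht
    rcases Nat.lt_or_ge n t with h | h
    · refine ⟨z, by omega, ?_⟩
      unfold H97R3.VR.Btw
      rw [SimpleGraph.dist_self, add_zero]
    · obtain ⟨w, h1, h2⟩ := exists_pred hc hz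
      obtain ⟨y, h3, h4⟩ := ih w h2 t h
      refine ⟨y, h3, ?_⟩
      unfold H97R3.VR.Btw at h4 ⊢
      have h5 : X.dist y z ≤ X.dist y w + X.dist w z := hc.dist_triangle
      have h6 : X.dist x z ≤ X.dist x y + X.dist y z := hc.dist_triangle
      rw [adj_one h1] at h5
      omega

/-- elliptic elements -/
theorem fix_le (ht : IsTr X) (hact : ∀ (a : A) (x y : V), X.Adj x y → X.Adj (a • x) (a • y))
    {a : A} {v : V} (hv : a • v = v) (x : V) :
    X.dist x (a • a • x) ≤ X.dist x (a • x) := by
  classical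
  have hex : ∃ k, ∃ v : V, a • v = v ∧ X.dist v x = k := ⟨_, v, hv, rfl⟩
  obtain ⟨p, hp, hpk⟩ := Nat.find_spec hex
  set k := Nat.find hex with hk
  have hmin : ∀ q : V, a • q = q → k ≤ X.dist q x := fun q hq => Nat.find_min' hex ⟨q, hq, rfl⟩
  have e1 : X.dist p (a • x) = k := by
    have := dsm' ht.conn hact a p x
    rw [hp] at this
    omega
  have e2 : X.dist p (a • a • x) = k := by
    have := dsm' ht.conn hact a p (a • x)
    rw [hp] at this
    omega
  have e3 : X.dist x (a • a • x) ≤ X.dist x p + X.dist p (a • a • x) := ht.conn.dist_triangle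
  have e4 : X.dist x p = X.dist p x := SimpleGraph.dist_comm
  suffices h : 2 * k ≤ X.dist x (a • x) by omega
  rcases Nat.eq_zero_or_pos k with h0 | h0
  · omega
  · have hne : p ≠ x := by
      rintro rfl
      rw [SimpleGraph.dist_self] at hpk
      omega
    obtain ⟨q, hq1, hq2⟩ := exists_next ht.conn hne
    have hx : x ∈ Sd X q p := hq2
    rcases ht.side hq1 (a • x) with h1 | h1
    · exfalso
      have h2 : X.dist q (a • x) + 1 = X.dist p (a • x) := h1
      have h3 : X.Adj (a • q) p := by
        have := hact a _ _ hq1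
        rwa [hp] at this
      have h4 : X.dist (a • q) (a • x) + 1 = X.dist p (a • x) := by
        rw [dsm' ht.conn hact]
        omega
      have h5 := ht.next_unique h3 hq1 h4 h2
      have := hmin q h5
      omega
    · have h2 := ht.across hq1 hx h1
      have h3 : X.dist x q = X.dist q x := SimpleGraph.dist_comm
      omega

/-- inverted edges -/
theorem inv_le (ht : IsTr X) (hact : ∀ (a : A) (x y : V), X.Adj x y → X.Adj (a • x) (a • y))
    {a : A} {p q : V} (hpq : X.Adj p q) (hp : a • p = q) (hq : a • q = p) (x : V) :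
    X.dist x (a • a • x) ≤ X.dist x (a • x) ∧ ¬ Even (X.dist x (a • x)) := by
  have key : ∀ p q : V, X.Adj p q → a • p = q → a • q = p → x ∈ Sd X p q →
      X.dist x (a • a • x) ≤ X.dist x (a • x) ∧ ¬ Even (X.dist x (a • x)) := by
    intro p q hpq hp hq hx
    have h1 : X.dist p x + 1 = X.dist q x := hx
    have h2 : X.dist q (a • x) = X.dist p x := by
      rw [← dsm' ht.conn hact a p x, hp]
    have h3 : X.dist p (a • x) = X.dist q x := by
      rw [← dsm' ht.conn hact a q x, hq]
    have h4 : a • x ∈ Sd X q p := by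
      show X.dist q (a • x) + 1 = X.dist p (a • x)
      omega
    have h5 := ht.across hpq hx h4
    have h6 : X.dist x p = X.dist p x := SimpleGraph.dist_comm
    have h7 : X.dist p (a • a • x) = X.dist p x := by
      have := dsm' ht.conn hact a q (a • x)
      rw [hq] at this
      omega
    have h8 : X.dist x (a • a • x) ≤ X.dist x p + X.dist p (a • a • x) := ht.conn.dist_triangle
    refine ⟨by omega, ?_⟩
    rintro ⟨k, hk⟩
    omega
  rcases ht.side hpq x with hx | hx
  · exact key p q hpq hp hq hx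
  · exact key q p hpq.symm hq hp hx

theorem TrA.ell (h : TrA A X) (a : A) (x : V) (hle : X.dist x (a • a • x) ≤ X.dist x (a • x)) :
    (∃ v : V, a • v = v) ∧ Even (X.dist x (a • x)) := by
  have hc := h.tr.conn
  have n2 : X.dist (a • x) (a • a • x) = X.dist x (a • x) := h.dsm a x (a • x)
  obtain ⟨s, hs⟩ := h.tr.parity x (a • x) (a • a • x)
  have hcx : X.dist (a • x) x = X.dist x (a • x) := SimpleGraph.dist_comm
  have hcx2 : X.dist (a • a • x) x = X.dist x (a • a • x) := SimpleGraph.dist_comm
  rcases Nat.even_or_odd' (X.dist x (a • x)) with ⟨t, ht | ht⟩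
  · refine ⟨?_, ⟨t, by omega⟩⟩
    obtain ⟨y, hy1, hy2⟩ := exists_btw hc x _ (a • x) rfl t (by omega)
    unfold H97R3.VR.Btw at hy2
    have e1 : X.dist (a • x) (a • y) = t := by rw [h.dsm]; exact hy1
    have e2 : X.dist (a • y) (a • a • x) = t := by rw [h.dsm]; omega
    have e3 : X.dist y (a • a • x) ≤ t := by
      have e4 : X.dist y x = t := by rw [SimpleGraph.dist_comm]; exact hy1
      have e5 : X.dist (a • a • x) (a • x) = X.dist (a • x) (a • a • x) := SimpleGraph.dist_comm
      rcases h.tr.four y (a • a • x) x (a • x) with h1 | h1 <;> omega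
    have e6 : X.dist (a • y) (a • x) = t := by rw [SimpleGraph.dist_comm]; exact e1
    have e7 : X.dist y (a • y) = 0 := by
      have e5 : X.dist (a • a • x) (a • x) = X.dist (a • x) (a • a • x) := SimpleGraph.dist_comm
      rcases h.tr.four y (a • y) (a • a • x) (a • x) with h1 | h1 <;> omega
    exact ⟨y, (hc.dist_eq_zero_iff.1 e7).symm⟩
  · exfalso
    obtain ⟨y, hy1, hy2⟩ := exists_btw hc x _ (a • x) rfl t (by omega)
    unfold H97R3.VR.Btw at hy2
    have e1 : X.dist (a • x) (a • y) = t := by rw [h.dsm]; exact hy1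
    have e2 : X.dist (a • y) (a • a • x) = t + 1 := by rw [h.dsm]; omega
    have e4 : X.dist y x = t := by rw [SimpleGraph.dist_comm]; exact hy1
    have e5 : X.dist (a • a • x) (a • x) = X.dist (a • x) (a • a • x) := SimpleGraph.dist_comm
    have e3 : X.dist y (a • a • x) ≤ t := by
      rcases h.tr.four y (a • a • x) x (a • x) with h1 | h1 <;> omega
    have e6 : X.dist (a • y) (a • x) = t := by rw [SimpleGraph.dist_comm]; exact e1
    have e7 : X.dist y (a • y) ≤ 1 := by
      rcases h.tr.four y (a • y) (a • a • x) (a • x) with h1 | h1 <;> omega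
    obtain ⟨r, hr⟩ := h.tr.parity y (a • y) (a • x)
    have e8 : X.dist y (a • y) = 1 := by omega
    have e9 : X.dist (a • y) (a • a • y) = 1 := by rw [h.dsm]; exact e8
    have e10 : X.dist (a • a • y) (a • a • x) = t := by rw [h.dsm, h.dsm]; exact e4
    have e11 : X.dist (a • y) (a • a • x) ≤ X.dist (a • y) y + X.dist y (a • a • x) :=
      hc.dist_triangle
    have e12 : X.dist (a • y) y = 1 := by rw [SimpleGraph.dist_comm]; exact e8
    have a1 : X.Adj y (a • y) := SimpleGraph.dist_eq_one_iff_adj.1 e8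
    have a2 : X.Adj (a • y) (a • a • y) := SimpleGraph.dist_eq_one_iff_adj.1 e9
    have h5 := h.tr.next_unique a1 a2.symm (u := a • a • x) (by omega) (by omega)
    exact h.ninv a y (a • y) a1 rfl h5.symm

end basic

/-! ### length functions -/

/-- length functions of based trees -/
structure LF {A : Type} [Group A] (F : Subgroup A) (d : A → A → ℕ) : Prop where
  tm : TM d
  inv : ∀ a x y, d (a * x) (a * y) = d x y
  fr : ∀ f ∈ F, f ≠ 1 → d 1 f < d 1 (f * f)
  ni : ∀ a, d 1 (a * a) ≤ d 1 a → Even (d 1 a)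

/-- the metric of a tree -/
theorem IsTr.tm {V : Type} {X : SimpleGraph V} (h : IsTr X) {P : Type} (g : P → V) :
    TM (fun a b => X.dist (g a) (g b)) where
  self _ := SimpleGraph.dist_self
  symm _ _ := SimpleGraph.dist_comm
  tri _ _ _ := h.conn.dist_triangle
  four _ _ _ _ := h.four _ _ _ _
  par _ _ _ := h.parity _ _ _

theorem TrA.lf {A V : Type} [Group A] [MulAction A V] {X : SimpleGraph V} (h : TrA A X)
    (F : Subgroup A) (hF : ∀ f ∈ F, ∀ v : V, f • v = v → f = 1) (x : V) :
    LF F (fun a b => X.dist (a • x) (b • x)) where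
  tm := h.tr.tm _
  inv a y z := by
    show X.dist ((a * y) • x) ((a * z) • x) = X.dist (y • x) (z • x)
    rw [mul_smul, mul_smul, h.dsm]
  fr f hf hne := by
    show X.dist ((1 : A) • x) (f • x) < X.dist ((1 : A) • x) ((f * f) • x)
    rw [one_smul, mul_smul]
    by_contra hc
    obtain ⟨⟨v, hv⟩, -⟩ := h.ell f x (by omega)
    exact hne (hF f hf v hv)
  ni a := by
    show X.dist ((1 : A) • x) ((a * a) • x) ≤ X.dist ((1 : A) • x) (a • x) →
      Even (X.dist ((1 : A) • x) (a • x))
    rw [one_smul, mul_smul]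
    exact fun hle => (h.ell a x hle).2

theorem LF.tree {A : Type} [Group A] {F : Subgroup A} {d : A → A → ℕ} (h : LF F d) :
    ∃ (V : Type) (X : SimpleGraph V) (_ : MulAction A V), TrA A X ∧
      (∀ f ∈ F, ∀ v : V, f • v = v → f = 1) ∧ ∃ x : V, ∀ a b : A, X.dist (a • x) (b • x) = d a b := by
  letI := TS.act (A := A) (P := A) (d := d) (fun a x y => h.inv a x y)
  have htr : IsTr (TSg d) := TS.tree h.tm
  have hact : ∀ (a : A) (x y : TS d), (TSg d).Adj x y → (TSg d).Adj (a • x) (a • y) := by
    intro a φ ψ hadj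
    refine ⟨fun he => hadj.1 (smul_left_cancel a he), fun x => ?_⟩
    exact hadj.2 (a⁻¹ • x)
  have hpt : ∀ a b : A, a • TS.pt h.tm b = TS.pt h.tm (a * b) := by
    intro a b
    refine TS.ext' fun y => ?_
    show d b (a⁻¹ * y) = d (a * b) y
    rw [← h.inv a, mul_inv_cancel_left]
  have hd : ∀ a b : A, (TSg d).dist (a • TS.pt h.tm 1) (b • TS.pt h.tm 1) = d a b := by
    intro a b
    rw [hpt, hpt, mul_one, mul_one, TS.dist_pts]
  have hd1 : ∀ a : A, (TSg d).dist (TS.pt h.tm 1) (a • TS.pt h.tm 1) = d 1 a := by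
    intro a
    have := hd 1 a
    rwa [one_smul] at this
  have hd2 : ∀ a : A, (TSg d).dist (TS.pt h.tm 1) (a • a • TS.pt h.tm 1) = d 1 (a * a) := by
    intro a
    rw [← mul_smul, hd1]
  refine ⟨TS d, TSg d, inferInstance, ⟨htr, hact, ?_⟩, ?_, TS.pt h.tm 1, hd⟩
  · intro a p q hpq hp hq
    obtain ⟨h1, h2⟩ := inv_le htr hact hpq hp hq (TS.pt h.tm 1)
    rw [hd1, hd2] at h1
    rw [hd1] at h2
    exact h2 (h.ni a h1)
  · intro f hf v hv
    by_contra hne
    have h1 := fix_le htr hact hv (TS.pt h.tm 1)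
    rw [hd1, hd2] at h1
    have := h.fr f hf hne
    omega

end Pool.Agent.TH97.KP
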