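import Pool.Agent.TH97.KP.Ret

/-!
# Trees of free groups
-/

set_option autoImplicit false

namespace Pool.Agent.TH97.KP

open Pool.Agent.H97R3.VR

section words

variable {β : Type}

open Classical in
/-- elements starting with `c` -/
def Wd (c : β) : Set (FreeGroup β) := {x | (x⁻¹).toWord.getLast? = some (c, false)}

open Classical in
theorem letter_mul (c' : β) (e : Bool) (y : FreeGroup β) :
    (FreeGroup.mk [(c', e)] * y).toWord = (c', e) :: y.toWord ∨
    y.toWord = (c', !e) :: (FreeGroup.mk [(c', e)] * y).toWord := by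
  have h1 : (FreeGroup.mk [(c', e)] * y).toWord = FreeGroup.reduce ((c', e) :: y.toWord) := by
    rw [FreeGroup.toWord_mul, FreeGroup.toWord_mk, FreeGroup.reduce_singleton]
    rfl
  rw [h1, FreeGroup.reduce.cons, FreeGroup.reduce_toWord]
  cases hL : y.toWord with
  | nil => left; rfl
  | cons hd tl =>
    show (if _ then _ else _) = _ ∨ _
    by_cases h : (c', e).1 = hd.1 ∧ (c', e).2 = !hd.2
    · right
      obtain ⟨h2, h3⟩ := h
      simp only at h2 h3
      have h4 : hd = (c', !e) := by
        ext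
        · exact h2.symm
        · simp [h3]
      show hd :: tl = (c', !e) :: (if _ then _ else _)
      rw [if_pos ⟨h2, h3⟩, h4]
    · left
      rw [if_neg h]

theorem of_inv_mk (c' : β) : (FreeGroup.of c')⁻¹ = FreeGroup.mk [(c', false)] := by
  simp [FreeGroup.of, FreeGroup.inv_mk, FreeGroup.invRev]

open Classical in
theorem Wd.mul {c c' : β} {x : FreeGroup β} (hx : x ∈ Wd c) : x * FreeGroup.of c' ∈ Wd c := by
  have hx' : (x⁻¹).toWord.getLast? = some (c, false) := hx
  show ((x * FreeGroup.of c')⁻¹).toWord.getLast? = some (c, false)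
  rw [mul_inv_rev, of_inv_mk]
  rcases letter_mul c' false x⁻¹ with h | h
  · rw [h]
    cases hL : (x⁻¹).toWord with
    | nil => rw [hL] at hx'; simp at hx'
    | cons hd tl => rw [hL] at hx'; rw [List.getLast?_cons_cons]; exact hx'
  · rw [h] at hx'
    cases hL : (FreeGroup.mk [(c', false)] * x⁻¹).toWord with
    | nil => rw [hL] at hx'; simp at hx'
    | cons hd tl => rw [hL] at hx'; rw [List.getLast?_cons_cons] at hx'; exact hx'

open Classical in
theorem Wd.enter {c c' : β} {x : FreeGroup β} (hx : x ∉ Wd c) (h : x * FreeGroup.of c' ∈ Wd c) :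
    x = 1 ∧ c' = c := by
  have hx' : ¬ (x⁻¹).toWord.getLast? = some (c, false) := hx
  have h' : ((x * FreeGroup.of c')⁻¹).toWord.getLast? = some (c, false) := h
  rw [mul_inv_rev, of_inv_mk] at h'
  rcases letter_mul c' false x⁻¹ with h1 | h1
  · rw [h1] at h'
    cases hL : (x⁻¹).toWord with
    | nil =>
      rw [hL] at h'
      have h2 : x⁻¹ = 1 := FreeGroup.toWord_eq_nil_iff.1 hL
      refine ⟨inv_eq_one.1 h2, ?_⟩
      simpa using h'
    | cons hd tl =>
      rw [hL, List.getLast?_cons_cons] at h'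
      rw [hL] at hx'
      exact absurd h' hx'
  · exfalso
    rw [h1] at hx'
    cases hL : (FreeGroup.mk [(c', false)] * x⁻¹).toWord with
    | nil => rw [hL] at h'; simp at h'
    | cons hd tl =>
      rw [hL] at h' hx'
      rw [List.getLast?_cons_cons] at hx'
      exact hx' h'

open Classical in
theorem Wd.one (c : β) : (1 : FreeGroup β) ∉ Wd c := by
  intro h
  have h' : ((1 : FreeGroup β)⁻¹).toWord.getLast? = some (c, false) := h
  rw [inv_one, FreeGroup.toWord_one] at h'
  simp at h'

theorem Wd.of (c : β) : FreeGroup.of c ∈ Wd c := by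
  classical
  show ((FreeGroup.of c)⁻¹).toWord.getLast? = some (c, false)
  rw [of_inv_mk, FreeGroup.toWord_mk, FreeGroup.reduce_singleton]
  rfl

/-- the subgroup generated by part of the basis -/
def Bs (s : Set β) : Subgroup (FreeGroup β) := Subgroup.closure (FreeGroup.of '' s)

theorem Wd.inv_right {c : β} {s : Set β} (hc : c ∉ s) {p : FreeGroup β} (hp : p ∈ Bs s) :
    ∀ x, (x * p ∈ Wd c ↔ x ∈ Wd c) := by
  unfold Bs at hp
  induction hp using Subgroup.closure_induction with
  | mem p hp =>
    obtain ⟨c', hc', rfl⟩ := hp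
    intro x
    constructor
    · intro h
      by_contra hx
      have := (Wd.enter hx h).2
      exact hc (this ▸ hc')
    · exact Wd.mul
  | one => intro x; rw [mul_one]
  | mul p q _ _ hp hq => intro x; rw [← mul_assoc, hq, hp]
  | inv p _ hp =>
    intro x
    have := hp (x * p⁻¹)
    rw [inv_mul_cancel_right] at this
    exact this.symm

theorem Wd.fin (c : β) (t : FreeGroup β) : {x | ¬ (x ∈ Wd c ↔ x * t ∈ Wd c)}.Finite := by
  have ht : t ∈ Subgroup.closure (Set.range (FreeGroup.of : β → FreeGroup β)) := by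
    rw [FreeGroup.closure_range_of]
    trivial
  induction ht using Subgroup.closure_induction with
  | mem t ht =>
    obtain ⟨c', rfl⟩ := ht
    refine (Set.finite_singleton (1 : FreeGroup β)).subset ?_
    intro x hx
    have hx' : ¬ (x ∈ Wd c ↔ x * FreeGroup.of c' ∈ Wd c) := hx
    by_cases h : x ∈ Wd c
    · exact absurd ⟨fun _ => Wd.mul h, fun _ => h⟩ hx'
    · by_cases h2 : x * FreeGroup.of c' ∈ Wd c
      · exact (Wd.enter h h2).1
      · exact absurd ⟨fun h' => absurd h' h, fun h' => absurd h' h2⟩ hx'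
  | one =>
    refine Set.finite_empty.subset ?_
    intro x hx
    have hx' : ¬ (x ∈ Wd c ↔ x * 1 ∈ Wd c) := hx
    rw [mul_one] at hx'
    exact hx' Iff.rfl
  | mul t t' _ _ h1 h2 =>
    refine (h1.union (h2.preimage (f := fun x => x * t) (fun a _ b _ h => mul_right_cancel h))).subset ?_
    intro x hx
    have hx' : ¬ (x ∈ Wd c ↔ x * (t * t') ∈ Wd c) := hx
    rw [← mul_assoc] at hx'
    by_contra hcon
    rw [Set.mem_union, not_or] at hcon
    have h3 : x ∈ Wd c ↔ x * t ∈ Wd c := not_not.1 hcon.1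
    have h4 : x * t ∈ Wd c ↔ x * t * t' ∈ Wd c := not_not.1 hcon.2
    exact hx' (h3.trans h4)
  | inv t _ h1 =>
    refine (h1.preimage (f := fun x => x * t⁻¹) (fun a _ b _ h => mul_right_cancel h)).subset ?_
    intro x hx
    have hx' : ¬ (x ∈ Wd c ↔ x * t⁻¹ ∈ Wd c) := hx
    show ¬ (x * t⁻¹ ∈ Wd c ↔ x * t⁻¹ * t ∈ Wd c)
    rw [inv_mul_cancel_right]
    exact fun h => hx' h.symm

theorem Wd.inf (c : β) : (Wd c).Infinite := by
  classical
  refine Set.infinite_of_injective_forall_mem (f := fun n : ℕ => FreeGroup.of c ^ (n + 1)) ?_ ?_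
  · intro n m h
    have h1 := congrArg FreeGroup.norm h
    simp only [FreeGroup.norm_of_pow] at h1
    omega
  · intro n
    induction n with
    | zero => simpa using Wd.of c
    | succ n ih => rw [pow_succ]; exact Wd.mul ih

open Classical in
theorem Wd.inf' (c : β) : (Wd c)ᶜ.Infinite := by
  refine Set.infinite_of_injective_forall_mem (f := fun n : ℕ => (FreeGroup.of c ^ (n + 1))⁻¹) ?_ ?_
  · intro n m h
    have h1 := congrArg FreeGroup.norm (inv_injective h)
    simp only [FreeGroup.norm_of_pow] at h1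
    omega
  · intro n h
    have h' : (((FreeGroup.of c ^ (n + 1))⁻¹)⁻¹).toWord.getLast? = some (c, false) := h
    rw [inv_inv, FreeGroup.toWord_of_pow, List.replicate_succ', List.getLast?_concat] at h'
    simp at h'

end words

/-- free factors -/
def FFac (F : Type) [Group F] (P : Subgroup F) : Prop :=
  ∃ (V : Type) (X : SimpleGraph V) (_ : MulAction F V), TrA F X ∧ TE F X ∧
    ∃ v : V, ∀ f : F, f • v = v ↔ f ∈ P

section rel

variable {β : Type} (s : Set β)

/-- the relative Cayley tree -/
def RC : SimpleGraph (FreeGroup β ⧸ Bs s) where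
  Adj q q' := ∃ (g : FreeGroup β) (c : β), c ∉ s ∧
    ((q = (g : FreeGroup β ⧸ Bs s) ∧ q' = ((g * FreeGroup.of c : FreeGroup β) : FreeGroup β ⧸ Bs s)) ∨
    (q' = (g : FreeGroup β ⧸ Bs s) ∧ q = ((g * FreeGroup.of c : FreeGroup β) : FreeGroup β ⧸ Bs s)))
  symm := ⟨fun _ _ ⟨g, c, hc, h⟩ => ⟨g, c, hc, h.symm⟩⟩
  loopless := ⟨fun q ⟨g, c, hc, h⟩ => by
    have h1 : (g : FreeGroup β ⧸ Bs s) = ((g * FreeGroup.of c : FreeGroup β) : FreeGroup β ⧸ Bs s) := by
      rcases h with ⟨h1, h2⟩ | ⟨h1, h2⟩
      · exact h1.symm.trans h2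
      · exact h1.symm.trans h2
    rw [QuotientGroup.eq, inv_mul_cancel_left] at h1
    have h2 := Wd.inv_right hc h1 1
    rw [one_mul] at h2
    exact Wd.one c (h2.1 (Wd.of c))⟩

theorem FFac.basis : FFac (FreeGroup β) (Bs s) := by
  classical
  have hact : ∀ (a : FreeGroup β) (x y : FreeGroup β ⧸ Bs s), (RC s).Adj x y →
      (RC s).Adj (a • x) (a • y) := by
    rintro a x y ⟨g, c, hc, ⟨rfl, rfl⟩ | ⟨rfl, rfl⟩⟩
    · exact ⟨a * g, c, hc, Or.inl ⟨rfl, by rw [mul_assoc]; rfl⟩⟩
    · exact ⟨a * g, c, hc, Or.inr ⟨rfl, by rw [mul_assoc]; rfl⟩⟩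
  have hTE' : ∀ (f g : FreeGroup β) (c : β), c ∉ s →
      f • (g : FreeGroup β ⧸ Bs s) = (g : FreeGroup β ⧸ Bs s) →
      f • ((g * FreeGroup.of c : FreeGroup β) : FreeGroup β ⧸ Bs s) =
        ((g * FreeGroup.of c : FreeGroup β) : FreeGroup β ⧸ Bs s) → f = 1 := by
    intro f g c hc h1 h2
    have h1' : ((f * g : FreeGroup β) : FreeGroup β ⧸ Bs s) = (g : FreeGroup β ⧸ Bs s) := h1
    have h2' : ((f * (g * FreeGroup.of c) : FreeGroup β) : FreeGroup β ⧸ Bs s) =
      ((g * FreeGroup.of c : FreeGroup β) : FreeGroup β ⧸ Bs s) := h2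
    rw [eq_comm, QuotientGroup.eq] at h1' h2'
    -- `p = g⁻¹ f g`
    have h3 : (g⁻¹ * (f * g)) * FreeGroup.of c =
        FreeGroup.of c * ((g * FreeGroup.of c)⁻¹ * (f * (g * FreeGroup.of c))) := by group
    have h4 : (g⁻¹ * (f * g)) * FreeGroup.of c ∈ Wd c := by
      rw [h3, Wd.inv_right hc h2']
      exact Wd.of c
    have h5 : g⁻¹ * (f * g) ∉ Wd c := by
      have h6 := Wd.inv_right hc h1' 1
      rw [one_mul] at h6
      exact fun h => Wd.one c (h6.1 h)
    have h6 := (Wd.enter h5 h4).1
    have h7 : f = g * (g⁻¹ * (f * g)) * g⁻¹ := by group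
    rw [h7, h6]
    group
  have hTE : TE (FreeGroup β) (RC s) := by
    rintro f x y ⟨g, c, hc, ⟨rfl, rfl⟩ | ⟨rfl, rfl⟩⟩ h1 h2
    · exact hTE' f g c hc h1 h2
    · exact hTE' f g c hc h2 h1
  have hcross : ∀ (g : FreeGroup β) (c : β), c ∉ s → ∀ x y : FreeGroup β, (RC s).Adj (x : FreeGroup β ⧸ Bs s) (y : FreeGroup β ⧸ Bs s) →
      g⁻¹ * x ∉ Wd c → g⁻¹ * y ∈ Wd c → (x : FreeGroup β ⧸ Bs s) = (g : FreeGroup β ⧸ Bs s) ∧
        (y : FreeGroup β ⧸ Bs s) = ((g * FreeGroup.of c : FreeGroup β) : FreeGroup β ⧸ Bs s) := by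
    rintro g c hc x y ⟨g', c', hc', ⟨h1, h2⟩ | ⟨h1, h2⟩⟩ hx hy
    · have h1' := h1
      have h2' := h2
      rw [QuotientGroup.eq] at h1' h2'
      have e1 : g⁻¹ * g' ∉ Wd c := by
        rw [← Wd.inv_right hc h1' (g⁻¹ * x)] at hx
        have : g⁻¹ * x * (x⁻¹ * g') = g⁻¹ * g' := by group
        rwa [this] at hx
      have e2 : g⁻¹ * g' * FreeGroup.of c' ∈ Wd c := by
        rw [← Wd.inv_right hc h2' (g⁻¹ * y)] at hy
        have : g⁻¹ * y * (y⁻¹ * (g' * FreeGroup.of c')) = g⁻¹ * g' * FreeGroup.of c' := by group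
        rwa [this] at hy
      obtain ⟨h3, h4⟩ := Wd.enter e1 e2
      have h5 : g = g' := inv_mul_eq_one.1 h3
      rw [h1, h2, h5, h4]
      exact ⟨rfl, rfl⟩
    · exfalso
      rw [QuotientGroup.eq] at h1 h2
      have e1 : g⁻¹ * g' ∈ Wd c := by
        rw [← Wd.inv_right hc h1 (g⁻¹ * y)] at hy
        have : g⁻¹ * y * (y⁻¹ * g') = g⁻¹ * g' := by group
        rwa [this] at hy
      have e2 : g⁻¹ * g' * FreeGroup.of c' ∉ Wd c := by
        rw [← Wd.inv_right hc h2 (g⁻¹ * x)] at hx
        have : g⁻¹ * x * (x⁻¹ * (g' * FreeGroup.of c')) = g⁻¹ * g' * FreeGroup.of c' := by group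
        rwa [this] at hx
      exact e2 (Wd.mul e1)
  have hwd : ∀ (g : FreeGroup β) (c : β), c ∉ s → ∀ x y : FreeGroup β,
      (x : FreeGroup β ⧸ Bs s) = (y : FreeGroup β ⧸ Bs s) → (g⁻¹ * x ∈ Wd c ↔ g⁻¹ * y ∈ Wd c) := by
    intro g c hc x y h
    rw [QuotientGroup.eq] at h
    rw [← Wd.inv_right hc h (g⁻¹ * x)]
    have : g⁻¹ * x * (x⁻¹ * y) = g⁻¹ * y := by group
    rw [this]
  have htr : IsTr (RC s) := by
    refine ⟨?_, ?_⟩
    · have key : ∀ g : FreeGroup β, ∀ h : FreeGroup β,
          (RC s).Reachable (h : FreeGroup β ⧸ Bs s) ((h * g : FreeGroup β) : FreeGroup β ⧸ Bs s) := by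
        intro g
        have hg : g ∈ Subgroup.closure (Set.range (FreeGroup.of : β → FreeGroup β)) := by
          rw [FreeGroup.closure_range_of]
          trivial
        induction hg using Subgroup.closure_induction with
        | mem g hg =>
          obtain ⟨c, rfl⟩ := hg
          intro h
          by_cases hc : c ∈ s
          · have h1 : ((h * FreeGroup.of c : FreeGroup β) : FreeGroup β ⧸ Bs s) = (h : FreeGroup β ⧸ Bs s) := by
              rw [eq_comm, QuotientGroup.eq, inv_mul_cancel_left]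
              exact Subgroup.subset_closure ⟨c, hc, rfl⟩
            rw [h1]
          · have h1 : (RC s).Adj (h : FreeGroup β ⧸ Bs s)
              ((h * FreeGroup.of c : FreeGroup β) : FreeGroup β ⧸ Bs s) := ⟨h, c, hc, Or.inl ⟨rfl, rfl⟩⟩
            exact h1.reachable
        | one => intro h; rw [mul_one]
        | mul g g' _ _ h1 h2 =>
          intro h
          rw [← mul_assoc]
          exact (h1 h).trans (h2 (h * g))
        | inv g _ h1 =>
          intro h
          have := h1 (h * g⁻¹)
          rw [inv_mul_cancel_right] at this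
          exact this.symm
      have : Nonempty (FreeGroup β ⧸ Bs s) := ⟨((1 : FreeGroup β) : FreeGroup β ⧸ Bs s)⟩
      refine SimpleGraph.Connected.mk fun x y => ?_
      induction x using QuotientGroup.induction_on with
      | H x =>
        induction y using QuotientGroup.induction_on with
        | H y =>
          have := key (x⁻¹ * y) x
          rwa [mul_inv_cancel_left] at this
    · rintro x y ⟨g, c, hc, ⟨rfl, rfl⟩ | ⟨rfl, rfl⟩⟩
      · refine ⟨{q | ∀ x : FreeGroup β, q = (x : FreeGroup β ⧸ Bs s) → g⁻¹ * x ∉ Wd c}, ?_, ?_, ?_⟩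
        · intro x hx h
          rw [hwd g c hc x g hx.symm, inv_mul_cancel] at h
          exact Wd.one c h
        · intro h
          apply h _ rfl
          rw [inv_mul_cancel_left]
          exact Wd.of c
        · intro u hu w hw huw
          induction u using QuotientGroup.induction_on with
          | H u =>
            induction w using QuotientGroup.induction_on with
            | H w =>
              refine hcross g c hc u w huw (hu u rfl) ?_
              by_contra hcon
              apply hw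
              intro x hx h
              exact hcon ((hwd g c hc w x hx).2 h)
      · refine ⟨{q | ∀ x : FreeGroup β, q = (x : FreeGroup β ⧸ Bs s) → g⁻¹ * x ∈ Wd c}, ?_, ?_, ?_⟩
        · intro x hx
          rw [hwd g c hc x _ hx.symm, inv_mul_cancel_left]
          exact Wd.of c
        · intro h
          have := h g rfl
          rw [inv_mul_cancel] at this
          exact Wd.one c this
        · intro u hu w hw huw
          induction u using QuotientGroup.induction_on with
          | H u =>
            induction w using QuotientGroup.induction_on with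
            | H w =>
              have := hcross g c hc w u huw.symm (by
                intro hcon
                apply hw
                intro x hx
                exact (hwd g c hc w x hx).1 hcon) (hu u rfl)
              exact ⟨this.2, this.1⟩
  refine ⟨FreeGroup β ⧸ Bs s, RC s, inferInstance, ⟨htr, hact, ?_⟩, hTE,
    ((1 : FreeGroup β) : FreeGroup β ⧸ Bs s), ?_⟩
  · intro a x y hxy h1 h2
    have h3 : (a * a) • x = x := by rw [mul_smul, h1, h2]
    have h4 : (a * a) • y = y := by rw [mul_smul, h2, h1]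
    have h5 := hTE (a * a) x y hxy h3 h4
    have h6 : a = 1 := by
      have : a ^ 2 = 1 := by rw [pow_two]; exact h5
      exact (pow_eq_one_iff_left (two_ne_zero)).1 this
    rw [h6, one_smul] at h1
    exact (RC s).loopless.irrefl x (h1 ▸ hxy)
  · intro f
    have h1 : f • ((1 : FreeGroup β) : FreeGroup β ⧸ Bs s) = (f : FreeGroup β ⧸ Bs s) := by
      show ((f * 1 : FreeGroup β) : FreeGroup β ⧸ Bs s) = _
      rw [mul_one]
    rw [h1, eq_comm, QuotientGroup.eq, inv_one, one_mul]

end rel

end Pool.Agent.TH97.KP
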