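import Pool.Agent.TH97.KP.Blow2
import Pool.Agent.TH97.KP.Words

/-!
# Free factors
-/

set_option autoImplicit false

namespace Pool.Agent.TH97.KP

open Pool.Agent.H97R3.VR

/-- representatives of the orbits -/
theorem exists_sec {A V : Type} [Group A] [MulAction A V] (v : V) :
    ∃ (Ω : Type) (r : Ω → V) (ω0 : Ω), r ω0 = v ∧ (∀ x, ∃ (a : A) (ω : Ω), a • r ω = x) ∧
      ∀ ω ω' (a : A), a • r ω = r ω' → ω = ω' := by
  classical
  let mk : V → MulAction.orbitRel.Quotient A V := fun x => Quotient.mk (MulAction.orbitRel A V) x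
  have hmk : ∀ x y, mk x = mk y ↔ ∃ a : A, a • y = x := by
    intro x y
    constructor
    · intro h
      obtain ⟨a, ha⟩ := Quotient.exact h
      exact ⟨a, ha⟩
    · rintro ⟨a, ha⟩
      exact Quotient.sound ⟨a, ha⟩
  have hmko : ∀ ω : MulAction.orbitRel.Quotient A V, mk (Quotient.out ω) = ω := fun ω =>
    Quotient.out_eq ω
  let r : MulAction.orbitRel.Quotient A V → V := fun ω => if ω = mk v then v else Quotient.out ω
  have hr : ∀ ω, mk (r ω) = ω := by
    intro ω
    by_cases h : ω = mk v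
    · have : r ω = v := if_pos h
      rw [this, h]
    · have : r ω = Quotient.out ω := if_neg h
      rw [this, hmko]
  refine ⟨MulAction.orbitRel.Quotient A V, r, mk v, if_pos rfl, ?_, ?_⟩
  · intro x
    have h1 : mk x = mk (r (mk x)) := (hr _).symm
    obtain ⟨a, ha⟩ := (hmk _ _).1 h1
    exact ⟨a, mk x, ha⟩
  · intro ω ω' a ha
    have h1 : mk (r ω') = mk (r ω) := (hmk _ _).2 ⟨a, ha⟩
    rw [hr, hr] at h1
    exact h1.symm

/-- the trivial tree -/
theorem point_tree (A : Type) [Group A] : ∃ (T : Type) (Y : SimpleGraph T) (_ : MulAction A T),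
    TrA A Y ∧ TE A Y ∧ ∃ t : T, ∀ a : A, a • t = t := by
  let act : MulAction A Unit :=
    { smul := fun _ x => x, one_smul := fun _ => rfl, mul_smul := fun _ _ _ => rfl }
  have hno : ∀ x y : Unit, ¬ (⊥ : SimpleGraph Unit).Adj x y := fun x y h => h
  refine ⟨Unit, ⊥, act, ⟨⟨?_, ?_⟩, ?_, ?_⟩, ?_, (), fun _ => rfl⟩
  · exact SimpleGraph.Connected.mk fun x y => SimpleGraph.Reachable.refl _
  · intro x y h
    exact (hno x y h).elim
  · intro a x y h
    exact (hno x y h).elim
  · intro a x y h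
    exact (hno x y h).elim
  · intro a x y h
    exact (hno x y h).elim

theorem FFac.comap {F F' : Type} [Group F] [Group F'] (j : F' →* F) (hj : Function.Injective j)
    {P : Subgroup F} (h : FFac F P) : FFac F' (P.comap j) := by
  obtain ⟨V, X, act, h1, h2, v, h3⟩ := h
  let act' : MulAction F' V := MulAction.compHom V j
  have hs : ∀ (f : F') (x : V), f • x = j f • x := fun _ _ => rfl
  refine ⟨V, X, act', ⟨h1.tr, fun a x y h => h1.act (j a) x y h, fun a x y h => h1.ninv (j a) x y h⟩,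
    ?_, v, ?_⟩
  · intro f x y hxy hx hy
    have := h2 (j f) x y hxy hx hy
    exact hj (by rw [this, map_one])
  · intro f
    rw [hs, h3, Subgroup.mem_comap]

/-- stabilizers in a blown up tree -/
theorem blow_stab {A V E : Type} [Group A] [MulAction A V] [MulAction A E] {Ω : Type} {r : Ω → V}
    {T : Ω → Type} [∀ ω, MulAction (MulAction.stabilizer A (r ω)) (T ω)] {p : E → V}
    {ι : ∀ ω, T ω → E} (hp : ∀ (a : A) e, p (a • e) = a • p e) (hι : ∀ ω t, p (ι ω t) = r ω)
    (hs : ∀ ω (s : MulAction.stabilizer A (r ω)) t, ι ω (s • t) = (s : A) • ι ω t)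
    (hinj : ∀ ω, Function.Injective (ι ω)) {ω : Ω} {t : T ω} {a b : A}
    (h : b • a • ι ω t = a • ι ω t) :
    ∃ h' : a⁻¹ * b * a ∈ MulAction.stabilizer A (r ω),
      (⟨a⁻¹ * b * a, h'⟩ : MulAction.stabilizer A (r ω)) • t = t := by
  have h1 : (a⁻¹ * b * a) • ι ω t = ι ω t := by
    rw [mul_smul, mul_smul, h, inv_smul_smul]
  have h2 : (a⁻¹ * b * a) • r ω = r ω := by
    have := congrArg p h1
    rwa [hp, hι] at this
  refine ⟨h2, ?_⟩
  apply hinj
  rw [hs]
  exact h1

theorem FFac.trans {F : Type} [Group F] {P : Subgroup F} (h : FFac F P) {Q : Subgroup P}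
    (h' : FFac P Q) : FFac F (Q.map P.subtype) := by
  obtain ⟨V, X, act, hX, hTE, v, hv⟩ := h
  obtain ⟨Ω, r, ω0, hr0, hr, hr'⟩ := exists_sec (A := F) v
  subst hr0
  have hP : P = MulAction.stabilizer F (r ω0) := by
    ext f
    exact (hv f).symm
  subst hP
  have hT : ∀ ω, ∃ (T : Type) (Y : SimpleGraph T) (_ : MulAction (MulAction.stabilizer F (r ω)) T),
      TrA (MulAction.stabilizer F (r ω)) Y ∧ TE (MulAction.stabilizer F (r ω)) Y ∧
      (ω = ω0 → ∃ u : T, ∀ f : MulAction.stabilizer F (r ω), f • u = u ↔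
        (f : F) ∈ Q.map (MulAction.stabilizer F (r ω0)).subtype) := by
    intro ω
    by_cases hω : ω = ω0
    · subst hω
      obtain ⟨T, Y, act, h1, h2, u, h3⟩ := h'
      refine ⟨T, Y, act, h1, h2, fun _ => ⟨u, fun f => ?_⟩⟩
      rw [h3]
      constructor
      · intro h
        exact ⟨f, h, rfl⟩
      · rintro ⟨g, hg, hgf⟩
        have : g = f := Subtype.ext hgf
        rwa [← this]
    · obtain ⟨T, Y, act, h1, h2, t, -⟩ := point_tree (MulAction.stabilizer F (r ω))
      exact ⟨T, Y, act, h1, h2, fun h => absurd h hω⟩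
  choose T Y actT hY hTET hu using hT
  obtain ⟨E, actE, Z, p, ι, hZ, hp, hι, hs, hinj, -, hadj, -⟩ := blow (Y := Y) hX hr hr' hY (by
    intro ω y hy
    obtain ⟨t⟩ := (hY ω).tr.conn.nonempty
    refine ⟨t, fun s hs => ?_⟩
    have h1 : (s : F) = 1 := hTE s _ _ hy s.2 hs
    have h2 : s = 1 := Subtype.ext h1
    rw [h2, one_smul])
  obtain ⟨u, hu⟩ := hu ω0 rfl
  refine ⟨E, Z, actE, hZ, ?_, ι ω0 u, ?_⟩
  · intro f e e' h h1 h2
    rcases hadj e e' h with h3 | ⟨a, ω, t, t', h3, rfl, rfl⟩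
    · exact hTE f _ _ h3 (by rw [← hp, h1]) (by rw [← hp, h2])
    · obtain ⟨h4, h5⟩ := blow_stab hp hι hs hinj h1
      obtain ⟨h6, h7⟩ := blow_stab hp hι hs hinj h2
      have h8 := hTET ω _ t t' h3 h5 h7
      have h9 : a⁻¹ * f * a = 1 := congrArg Subtype.val h8
      have h10 : f = a * (a⁻¹ * f * a) * a⁻¹ := by group
      rw [h10, h9]
      group
  · intro f
    constructor
    · intro h
      have h1 : f • (1 : F) • ι ω0 u = (1 : F) • ι ω0 u := by rwa [one_smul]
      obtain ⟨h2, h3⟩ := blow_stab hp hι hs hinj h1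
      rw [hu] at h3
      simpa using h3
    · rintro ⟨g, hg, rfl⟩
      have h1 : g • u = u := (hu g).2 ⟨g, hg, rfl⟩
      have h2 := hs ω0 g u
      rw [h1] at h2
      exact h2.symm

theorem FFac.inf {F : Type} [Group F] {P P' : Subgroup F} (h : FFac F P) (h' : FFac F P') :
    FFac F (P ⊓ P') := by
  have h1 : FFac P' (P.comap P'.subtype) := h.comap P'.subtype P'.subtype_injective
  have h2 := h'.trans h1
  have h3 : (P.comap P'.subtype).map P'.subtype = P ⊓ P' := by
    rw [← Subgroup.subgroupOf]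
    rw [Subgroup.subgroupOf_map_subtype]
  rwa [h3] at h2

end Pool.Agent.TH97.KP
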