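import Pool.Agent.TH97.KP.Zrn

/-!
# Property (LR) for virtually free groups
-/

set_option autoImplicit false

namespace Pool.Agent.TH97.KP

open Pool.Agent.H97R3.VR

section

variable {G V : Type} [Group G] [MulAction G V] {X : SimpleGraph V}

theorem par_tree (h : IsTr X) {N : Subgroup G} {p q : V × V} (hpq : H97R3.VR.Par X N p q) :
    ∃ n ∈ N, q = (n • p.1, n • p.2) ∨ q = (n • p.2, n • p.1) := by
  unfold H97R3.VR.Par at hpq
  induction hpq with
  | rel p q h1 =>
    cases h1 with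
    | flip x y => exact ⟨1, N.one_mem, Or.inr (by rw [one_smul, one_smul])⟩
    | sq x y w z hs => exact (h.noSquare hs).elim
    | act n hn x y => exact ⟨n, hn, Or.inl rfl⟩
  | refl p => exact ⟨1, N.one_mem, Or.inl (by rw [one_smul, one_smul])⟩
  | symm p q _ ih =>
    obtain ⟨n, hn, rfl | rfl⟩ := ih
    · exact ⟨n⁻¹, N.inv_mem hn, Or.inl (by rw [inv_smul_smul, inv_smul_smul])⟩
    · exact ⟨n⁻¹, N.inv_mem hn, Or.inr (by rw [inv_smul_smul, inv_smul_smul])⟩
  | trans p q r _ _ ih1 ih2 =>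
    obtain ⟨n, hn, rfl | rfl⟩ := ih1 <;> obtain ⟨m, hm, rfl | rfl⟩ := ih2
    · exact ⟨m * n, N.mul_mem hm hn, Or.inl (by rw [mul_smul, mul_smul])⟩
    · exact ⟨m * n, N.mul_mem hm hn, Or.inr (by rw [mul_smul, mul_smul])⟩
    · exact ⟨m * n, N.mul_mem hm hn, Or.inr (by rw [mul_smul, mul_smul])⟩
    · exact ⟨m * n, N.mul_mem hm hn, Or.inl (by rw [mul_smul, mul_smul])⟩

/-- parity of displacements -/
noncomputable def pty (hX : TrA G X) (x : V) : G →* C2 :=
  MonoidHom.mk' (fun g => Multiplicative.ofAdd ((X.dist x (g • x) : ℕ) : ZMod 2)) (by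
    intro g h
    rw [← ofAdd_add, ← Nat.cast_add]
    congr 1
    have h1 := hX.tr.parity x (g • x) ((g * h) • x)
    rw [mul_smul, hX.dsm] at h1
    rw [mul_smul]
    have h2 : (((X.dist x (g • x) + X.dist x (h • x) + X.dist x (g • h • x) : ℕ)) : ZMod 2) = 0 :=
      (ZMod.natCast_eq_zero_iff_even).2 h1
    rw [Nat.cast_add] at h2
    have h3 : ∀ a b : ZMod 2, a + b = 0 → b = a := by decide
    exact h3 _ _ h2)

theorem pty_ker (hX : TrA G X) (x : V) {g : G} (hg : g ∈ (pty hX x).ker) (y : V) :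
    Even (X.dist y (g • y)) := by
  have h1 : Multiplicative.ofAdd ((X.dist x (g • x) : ℕ) : ZMod 2) = 1 := hg
  have h2 : ((X.dist x (g • x) : ℕ) : ZMod 2) = 0 := h1
  obtain ⟨a, ha⟩ := (ZMod.natCast_eq_zero_iff_even).1 h2
  obtain ⟨b, hb⟩ := hX.tr.parity y x (g • x)
  obtain ⟨c, hc⟩ := hX.tr.parity y (g • y) (g • x)
  rw [hX.dsm] at hc
  exact ⟨c + a - b, by omega⟩

theorem special (hX : TrA G X) (F : Subgroup G) (hF : ∀ f ∈ F, ∀ v : V, f • v = v → f = 1) (x : V) :
    IsSpecialAction X (F ⊓ (pty hX x).ker) where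
  free n hn y hy := hF n hn.1 y hy
  noself y z w hyz hyw hpar := by
    obtain ⟨n, hn, h | h⟩ := par_tree hX.tr hpar
    · obtain ⟨h1, h2⟩ := Prod.mk.inj h
      have h3 := hF n hn.1 y h1.symm
      rw [h2, h3, one_smul]
    · exfalso
      obtain ⟨h1, h2⟩ := Prod.mk.inj h
      have h3 := pty_ker hX x hn.2 y
      rw [← h2, adj_one hyw] at h3
      exact Nat.not_even_one h3
  nointer y z w _ _ := by
    rintro ⟨p, q, r, o, hs, -, -⟩
    exact (hX.tr.noSquare hs).elim

/-- the hull of an orbit -/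
def hull (X : SimpleGraph V) (H : Subgroup G) (x : V) : Set V :=
  {u | ∃ h ∈ H, ∃ h' ∈ H, H97R3.VR.Btw X (h • x) (h' • x) u}

theorem btw_left (hc : X.Connected) {a b u m : V} (h1 : H97R3.VR.Btw X a b u)
    (h2 : H97R3.VR.Btw X u b m) : H97R3.VR.Btw X a b m := by
  unfold H97R3.VR.Btw at h1 h2 ⊢
  have h3 : X.dist a m ≤ X.dist a u + X.dist u m := hc.dist_triangle
  have h4 : X.dist a b ≤ X.dist a m + X.dist m b := hc.dist_triangle
  omega

theorem hull_convex (hX : TrA G X) (H : Subgroup G) (x : V) :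
    H97R3.VR.IsConvex X (hull X H x) := by
  rintro u ⟨h1, hh1, h2, hh2, hu⟩ v ⟨k1, hk1, k2, hk2, hv⟩ m hm
  have hc := hX.tr.conn
  -- between a point of an interval and an orbit point
  have key : ∀ u m : V, ∀ h1 ∈ H, ∀ h2 ∈ H, ∀ k ∈ H, H97R3.VR.Btw X (h1 • x) (h2 • x) u →
      H97R3.VR.Btw X u (k • x) m → m ∈ hull X H x := by
    intro u m h1 hh1 h2 hh2 k hk hu hm
    rcases hX.tr.tr hm (h1 • x) with h3 | h3
    · refine ⟨h2, hh2, h1, hh1, ?_⟩
      exact btw_left hc (btw_symm hu) h3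
    · exact ⟨k, hk, h1, hh1, h3⟩
  rcases hX.tr.tr hm (h1 • x) with h3 | h3
  · exact key u m h1 hh1 h2 hh2 h1 hh1 hu h3
  · exact key v m k1 hk1 k2 hk2 h1 hh1 hv h3

theorem btw_fin (h : IsTr X) (x y : V) : {u | H97R3.VR.Btw X x y u}.Finite := by
  refine Set.Finite.of_finite_image (f := fun u => X.dist x u) ?_ ?_
  · refine (Set.finite_Iic (X.dist x y)).subset ?_
    rintro _ ⟨u, hu, rfl⟩
    have hu' : H97R3.VR.Btw X x y u := hu
    unfold H97R3.VR.Btw at hu'
    show X.dist x u ≤ X.dist x y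
    omega
  · intro u hu w hw he
    have he' : X.dist x u = X.dist x w := he
    have hu' : H97R3.VR.Btw X x y u := hu
    have hw' : H97R3.VR.Btw X x y w := hw
    have h0 : X.dist u w = 0 := by
      rcases h.tr hu' w with h1 | h1
      · unfold H97R3.VR.Btw at h1
        omega
      · unfold H97R3.VR.Btw at h1 hu' hw'
        have e1 : X.dist y u = X.dist u y := SimpleGraph.dist_comm
        have e2 : X.dist y w = X.dist w y := SimpleGraph.dist_comm
        omega
    exact (h.conn.dist_eq_zero_iff).1 h0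

theorem btw_smul (hX : TrA G X) (g : G) {x y u : V} (h : H97R3.VR.Btw X x y u) :
    H97R3.VR.Btw X (g • x) (g • y) (g • u) := by
  unfold H97R3.VR.Btw at h ⊢
  rw [hX.dsm, hX.dsm, hX.dsm]
  exact h

theorem hull_cov (hX : TrA G X) (H : Subgroup G) (x : V) (hH : H.FG) :
    ∃ T : Set V, T.Finite ∧ ∀ u ∈ hull X H x, ∃ h ∈ H, h • u ∈ T := by
  obtain ⟨S, hS⟩ := hH
  have hSH : ∀ s ∈ S, s ∈ H := fun s hs => hS ▸ Subgroup.subset_closure hs
  refine ⟨{x} ∪ ⋃ s ∈ S, {u | H97R3.VR.Btw X x (s • x) u}, ?_, ?_⟩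
  · refine (Set.finite_singleton x).union ?_
    exact S.finite_toSet.biUnion fun s _ => btw_fin hX.tr x (s • x)
  · set T : Set V := {x} ∪ ⋃ s ∈ S, {u | H97R3.VR.Btw X x (s • x) u} with hT
    have key : ∀ h ∈ Subgroup.closure (S : Set G), ∀ u, H97R3.VR.Btw X x (h • x) u →
        ∃ k ∈ H, k • u ∈ T := by
      intro h hh
      induction hh using Subgroup.closure_induction with
      | mem s hs =>
        intro u hu
        refine ⟨1, H.one_mem, ?_⟩
        rw [one_smul, hT]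
        right
        simp only [Set.mem_iUnion]
        exact ⟨s, hs, hu⟩
      | one =>
        intro u hu
        rw [one_smul] at hu
        unfold H97R3.VR.Btw at hu
        rw [SimpleGraph.dist_self] at hu
        have h0 : X.dist x u = 0 := by omega
        rw [hX.tr.conn.dist_eq_zero_iff] at h0
        exact ⟨1, H.one_mem, Or.inl (by rw [one_smul, ← h0]; rfl)⟩
      | mul a b ha hb iha ihb =>
        intro u hu
        rcases hX.tr.tr hu (a • x) with h1 | h1
        · exact iha u h1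
        · have h2 := btw_smul hX a⁻¹ (btw_symm h1)
          rw [inv_smul_smul, mul_smul, inv_smul_smul] at h2
          obtain ⟨k, hk, h3⟩ := ihb _ h2
          refine ⟨k * a⁻¹, H.mul_mem hk (H.inv_mem (hS ▸ ha)), ?_⟩
          rw [mul_smul]
          exact h3
      | inv a ha iha =>
        intro u hu
        have h2 := btw_smul hX a (btw_symm hu)
        rw [smul_inv_smul] at h2
        obtain ⟨k, hk, h3⟩ := iha _ h2
        refine ⟨k * a, H.mul_mem hk (hS ▸ ha), ?_⟩
        rw [mul_smul]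
        exact h3
    rintro u ⟨h1, hh1, h2, hh2, hu⟩
    have h3 := btw_smul hX h1⁻¹ hu
    rw [inv_smul_smul, ← mul_smul] at h3
    obtain ⟨k, hk, h4⟩ := key (h1⁻¹ * h2) (by rw [hS]; exact H.mul_mem (H.inv_mem hh1) hh2) _ h3
    refine ⟨k * h1⁻¹, H.mul_mem hk (H.inv_mem hh1), ?_⟩
    rw [mul_smul]
    exact h4

end

theorem LR_normal {G : Type} [Group G] (F : Subgroup G) [F.Normal] [F.FiniteIndex] [IsFreeGroup F]
    (H : Subgroup G) (hH : H.FG) : IsVirtualRetract H := by
  obtain ⟨d, hd⟩ := KPS F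
  obtain ⟨V, X, act, hX, hF, x, -⟩ := hd.tree
  obtain ⟨T, hT, hcov⟩ := hull_cov hX H x hH
  have hfin : (F ⊓ (pty hX x).ker).FiniteIndex := inferInstance
  have D : Dat X (F ⊓ (pty hX x).ker) H (hull X H x) := by
    refine ⟨hX.tr.median, hX.act, special hX F hF x, hull_convex hX H x, ?_⟩
    rintro h hh u ⟨h1, hh1, h2, hh2, hu⟩
    refine ⟨h * h1, H.mul_mem hh hh1, h * h2, H.mul_mem hh hh2, ?_⟩
    rw [mul_smul, mul_smul]
    exact btw_smul hX h hu
  refine main' D ⟨x, 1, H.one_mem, 1, H.one_mem, ?_⟩ T hT hcov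
  unfold H97R3.VR.Btw
  rw [one_smul, SimpleGraph.dist_self]

theorem LR {G : Type} [Group G] (F : Subgroup G) (hFI : F.FiniteIndex) (hfree : IsFreeGroup F)
    (H : Subgroup G) (hH : H.FG) : IsVirtualRetract H := by
  have h1 : IsFreeGroup F.normalCore :=
    IsFreeGroup.ofMulEquiv (Subgroup.subgroupOfEquivOfLe F.normalCore_le)
  exact LR_normal F.normalCore H hH

end Pool.Agent.TH97.KP
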