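import Pool.Agent.TH97.KP.FF

/-!
# Complexity
-/

set_option autoImplicit false

namespace Pool.Agent.TH97.KP

open Pool.Agent.H97R3.VR

/-- homomorphisms to the group of order two which kill `P` -/
def Th (F : Type) [Group F] (P : Set F) : Type := {θ : F →* C2 // ∀ p ∈ P, θ p = 1}

/-- relative finite generation -/
def RFG (F : Type) [Group F] (P : Set F) : Prop :=
  ∃ E : Set F, E.Finite ∧ Subgroup.closure (P ∪ E) = ⊤

theorem Th.fin {F : Type} [Group F] {P : Set F} (h : RFG F P) : Finite (Th F P) := by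
  obtain ⟨E, hE, h⟩ := h
  have : Finite E := hE.to_subtype
  refine Finite.of_injective (fun (θ : Th F P) (e : E) => θ.1 e) ?_
  intro θ θ' hθ
  apply Subtype.ext
  refine MonoidHom.eq_of_eqOn_dense h ?_
  intro x hx
  rcases hx with hx | hx
  · rw [θ.2 x hx, θ'.2 x hx]
  · exact congrFun hθ ⟨x, hx⟩

theorem RFG.map {F F' : Type} [Group F] [Group F'] {P : Set F} {P' : Set F'} (ρ : F →* F')
    (hs : Function.Surjective ρ) (hP : ∀ p ∈ P, ρ p ∈ Subgroup.closure P') (h : RFG F P) :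
    RFG F' P' := by
  obtain ⟨E, hE, h⟩ := h
  refine ⟨ρ '' E, hE.image _, ?_⟩
  rw [eq_top_iff]
  intro y _
  obtain ⟨x, rfl⟩ := hs y
  have hx : x ∈ Subgroup.closure (P ∪ E) := by rw [h]; trivial
  have hle : Subgroup.closure (P ∪ E) ≤ (Subgroup.closure (P' ∪ ρ '' E)).comap ρ := by
    rw [Subgroup.closure_le]
    intro z hz
    rcases hz with hz | hz
    · exact Subgroup.closure_mono Set.subset_union_left (hP z hz)
    · exact Subgroup.subset_closure (Or.inr ⟨z, hz, rfl⟩)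
  exact hle hx

theorem mu_lt {F F' : Type} [Group F] [Group F'] {P : Set F} {P' : Set F'} (ρ : F →* F')
    (j : F' →* F) (hρ : ∀ x, ρ (j x) = x) (hP : ∀ p ∈ P, ρ p ∈ P') (h : RFG F P)
    (η : F →* C2) (hη : η ≠ 1) (hηP : ∀ p ∈ P, η p = 1) (hηj : ∀ x, η (j x) = 1) :
    Nat.card (Th F' P') < Nat.card (Th F P) := by
  have := Th.fin h
  let f : Th F' P' → Th F P := fun θ => ⟨θ.1.comp ρ, fun p hp => θ.2 _ (hP p hp)⟩
  have hf : Function.Injective f := by
    intro θ θ' hθ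
    apply Subtype.ext
    ext x
    have h1 := DFunLike.congr_fun (congrArg Subtype.val hθ) (j x)
    have h2 : θ.1 (ρ (j x)) = θ'.1 (ρ (j x)) := h1
    rw [hρ] at h2
    rw [h2]
  by_contra hcon
  have hb := hf.bijective_of_nat_card_le (not_lt.1 hcon)
  obtain ⟨θ, hθ⟩ := hb.2 ⟨η, hηP⟩
  have h1 : θ.1.comp ρ = η := congrArg Subtype.val hθ
  apply hη
  ext x
  have h2 : η x = θ.1 (ρ x) := by rw [← h1]; rfl
  have h3 : θ.1 (ρ x) = 1 := by
    have h4 : η (j (ρ x)) = θ.1 (ρ (j (ρ x))) := by rw [← h1]; rfl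
    rw [hηj, hρ] at h4
    exact h4.symm
  rw [h2, h3]
  rfl

/-- the intersection with `Z`, as a subset of `F` -/
def rel {A : Type} [Group A] (F Z : Subgroup A) : Set F := {f | (f : A) ∈ Z}

section vertex

variable {A V : Type} [Group A] [MulAction A V] {X : SimpleGraph V}

/-- trivial edge stabilizers for a subgroup -/
def TEF (F : Subgroup A) (X : SimpleGraph V) : Prop :=
  ∀ f ∈ F, ∀ x y : V, X.Adj x y → f • x = x → f • y = y → f = 1

theorem TrA.sub (h : TrA A X) (F : Subgroup A) : TrA F X :=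
  ⟨h.tr, fun a x y hxy => h.act (a : A) x y hxy, fun a x y hxy => h.ninv (a : A) x y hxy⟩

theorem TEF.te {F : Subgroup A} (h : TEF F X) : TE F X := by
  intro f x y hxy hx hy
  exact Subtype.ext (h f f.2 x y hxy hx hy)

/-- the retraction onto the stabilizer of `w`; it kills the stabilizers of the other orbits -/
theorem vertex_retr (hX : TrA A X) {F : Subgroup A} (hTE : TEF F X) (w : V) :
    ∃ (ρ : F →* F.subgroupOf (MulAction.stabilizer A w))
      (j : F.subgroupOf (MulAction.stabilizer A w) →* F),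
      (∀ x, ((j x : F) : A) = ((x : MulAction.stabilizer A w) : A)) ∧ (∀ x, ρ (j x) = x) ∧
      (∀ f : F, (f : A) • w = w → j (ρ f) = f) ∧
      ∀ u, (∀ f ∈ F, f • w ≠ u) → ∀ f : F, (f : A) • u = u → ρ f = 1 := by
  obtain ⟨ρ, h1, h2, h3⟩ := exists_retr (hX.sub F) hTE.te w
  refine ⟨MonoidHom.mk' (fun f => ⟨⟨((ρ f : F) : A), h1 f⟩, (ρ f).2⟩) ?_,
    MonoidHom.mk' (fun x => ⟨((x : MulAction.stabilizer A w) : A), x.2⟩) ?_, ?_, ?_, ?_, ?_⟩
  · intro f g
    apply Subtype.ext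
    apply Subtype.ext
    show ((ρ (f * g) : F) : A) = (ρ f : A) * (ρ g : A)
    rw [map_mul]
    rfl
  · intro x y
    rfl
  · intro x
    rfl
  · intro x
    apply Subtype.ext
    apply Subtype.ext
    show ((ρ ⟨((x : MulAction.stabilizer A w) : A), x.2⟩ : F) : A) = _
    rw [h2 ⟨((x : MulAction.stabilizer A w) : A), x.2⟩ (x : MulAction.stabilizer A w).2]
  · intro f hf
    apply Subtype.ext
    show ((ρ f : F) : A) = f
    rw [h2 f hf]
  · intro u hu f hf
    apply Subtype.ext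
    apply Subtype.ext
    show ((ρ f : F) : A) = 1
    rw [h3 u (fun g => hu g g.2) f hf]
    rfl

theorem vertexA (hX : TrA A X) {F : Subgroup A} (hTE : TEF F X)
    (hC : ∀ Q : Subgroup F, Q ≠ ⊥ → ∃ θ : Q →* C2, θ ≠ 1) (w : V) (hw : ∃ f ∈ F, f • w ≠ w)
    (Z : Subgroup A) (hZ : ∀ z ∈ Z, z ∈ F → z • w = w) (hfg : RFG F (rel F Z)) :
    RFG (F.subgroupOf (MulAction.stabilizer A w))
        (rel (F.subgroupOf (MulAction.stabilizer A w)) (Z.subgroupOf (MulAction.stabilizer A w))) ∧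
      Nat.card (Th (F.subgroupOf (MulAction.stabilizer A w))
        (rel (F.subgroupOf (MulAction.stabilizer A w)) (Z.subgroupOf (MulAction.stabilizer A w)))) <
      Nat.card (Th F (rel F Z)) := by
  obtain ⟨ρ, j, h1, h2, h3, h4⟩ := vertex_retr hX hTE w
  have hP : ∀ p ∈ rel F Z, ρ p ∈ rel (F.subgroupOf (MulAction.stabilizer A w))
      (Z.subgroupOf (MulAction.stabilizer A w)) := by
    intro p hp
    have h5 := h3 p (hZ p hp p.2)
    have h6 := h1 (ρ p)
    rw [h5] at h6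
    show (((ρ p : F.subgroupOf (MulAction.stabilizer A w)) : MulAction.stabilizer A w) : A) ∈ Z
    rw [← h6]
    exact hp
  refine ⟨hfg.map ρ (fun x => ⟨j x, h2 x⟩) (fun p hp => Subgroup.subset_closure (hP p hp)), ?_⟩
  obtain ⟨η, h5, h6⟩ := strict (hX.sub F) hTE.te hC w (by
    obtain ⟨f, hf, h⟩ := hw
    exact ⟨⟨f, hf⟩, h⟩)
  refine mu_lt ρ j h2 hP hfg η h5 (fun p hp => h6 p (hZ p hp p.2)) (fun x => h6 _ ?_)
  show ((j x : F) : A) • w = w
  rw [h1]
  exact (x : MulAction.stabilizer A w).2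

theorem vertexB (hX : TrA A X) {F : Subgroup A} (hTE : TEF F X) (w v : V)
    (hwv : ∀ f ∈ F, f • w ≠ v) (Z : Subgroup A) (hZ : ∀ z ∈ Z, z ∈ F → z • v = v)
    (hfg : RFG F (rel F Z)) :
    RFG (F.subgroupOf (MulAction.stabilizer A w))
        (rel (F.subgroupOf (MulAction.stabilizer A w)) ⊥) := by
  obtain ⟨ρ, j, h1, h2, h3, h4⟩ := vertex_retr hX hTE w
  refine hfg.map ρ (fun x => ⟨j x, h2 x⟩) (fun p hp => ?_)
  rw [h4 v hwv p (hZ p hp p.2)]
  exact Subgroup.one_mem _

end vertex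

/-! ### free groups -/

theorem free_C2 {F : Type} [Group F] [IsFreeGroup F] (Q : Subgroup F) (hQ : Q ≠ ⊥) :
    ∃ θ : Q →* C2, θ ≠ 1 := by
  obtain ⟨g0, hg0⟩ := C2.ne
  have h1 : Nonempty (IsFreeGroup.Generators Q) := by
    by_contra hcon
    rw [not_nonempty_iff] at hcon
    apply hQ
    rw [eq_bot_iff]
    intro x hx
    have e := IsFreeGroup.toFreeGroup Q
    have h2 : e ⟨x, hx⟩ = e 1 := Subsingleton.elim _ _
    have h3 := e.injective h2
    rw [Subgroup.mem_bot]
    exact congrArg Subtype.val h3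
  obtain ⟨b⟩ := h1
  refine ⟨IsFreeGroup.lift (fun _ => g0), fun h => hg0 ?_⟩
  have h2 := DFunLike.congr_fun h (IsFreeGroup.of b)
  rw [IsFreeGroup.lift_of] at h2
  exact h2

theorem free_tors {F : Type} [Group F] [IsFreeGroup F] (f : F) (k : ℕ) (hk : 0 < k)
    (h : f ^ k = 1) : f = 1 := by
  have e := IsFreeGroup.toFreeGroup F
  have h1 : (e f) ^ k = 1 := by rw [← map_pow, h, map_one]
  have h2 : e f = 1 := (pow_eq_one_iff_left (by omega)).1 h1
  exact e.injective (by rw [h2, map_one])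

theorem free_sub {A : Type} [Group A] (F S : Subgroup A) [IsFreeGroup F] :
    IsFreeGroup (F.subgroupOf S) := by
  let j : F.subgroupOf S →* F :=
    MonoidHom.mk' (fun x => ⟨((x : S) : A), x.2⟩) (fun x y => rfl)
  have hj : Function.Injective j := by
    intro x y h
    have h1 : ((x : S) : A) = ((y : S) : A) := congrArg (fun z : F => (z : A)) h
    exact Subtype.ext (Subtype.ext h1)
  exact IsFreeGroup.ofMulEquiv (MonoidHom.ofInjective hj).symm

end Pool.Agent.TH97.KP
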