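import Pool.Agent.TH97.KP.AT

/-!
# Relative version
-/

set_option autoImplicit false

namespace Pool.Agent.TH97.KP

open Pool.Agent.H97R3.VR Pool.Agent.TH97.KP.NCut

theorem TM.comp {P Q : Type} {d : P → P → ℕ} (h : TM d) (g : Q → P) :
    TM (fun x y => d (g x) (g y)) where
  self _ := h.self _
  symm _ _ := h.symm _ _
  tri _ _ _ := h.tri _ _ _
  four _ _ _ _ := h.four _ _ _ _
  par _ _ _ := h.par _ _ _

theorem LF.comap {A B : Type} [Group A] [Group B] (j : B →* A) (hj : Function.Injective j)
    {F : Subgroup A} {F' : Subgroup B} (h : ∀ f ∈ F', j f ∈ F) {d : A → A → ℕ} (hd : LF F d) :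
    LF F' (fun x y => d (j x) (j y)) where
  tm := hd.tm.comp j
  inv a x y := by
    show d (j (a * x)) (j (a * y)) = d (j x) (j y)
    rw [map_mul, map_mul, hd.inv]
  fr f hf hne := by
    show d (j 1) (j f) < d (j 1) (j (f * f))
    rw [map_one, map_mul]
    exact hd.fr (j f) (h f hf) (fun h1 => hne (hj (by rw [h1, map_one])))
  ni a := by
    show d (j 1) (j (a * a)) ≤ d (j 1) (j a) → Even (d (j 1) (j a))
    rw [map_one, map_mul]
    exact hd.ni (j a)

/-- finite separation -/
theorem fin_sep {F V : Type} [Group F] [MulAction F V] {X : SimpleGraph V} (hX : TrA F X)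
    (hTE : TE F X) {p q : V} (hpq : X.Adj p q) (x y : V) :
    {f : F | ¬ (f • x ∈ Sd X p q ↔ f • y ∈ Sd X p q)}.Finite := by
  refine conn_ind hX.tr.conn (fun y => {f : F | ¬ (f • x ∈ Sd X p q ↔ f • y ∈ Sd X p q)}.Finite)
    x ?_ ?_ y
  · refine Set.finite_empty.subset ?_
    intro f hf
    exact hf Iff.rfl
  · intro y z hyz ih
    have huniq : ∀ u w : V, X.Adj u w → {f : F | f • u = p ∧ f • w = q}.Finite := by
      intro u w huw
      refine Set.Subsingleton.finite ?_
      rintro f ⟨h1, h2⟩ g ⟨h3, h4⟩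
      have h5 := hTE (f⁻¹ * g) u w huw (by rw [mul_smul, h3, ← h1, inv_smul_smul])
        (by rw [mul_smul, h4, ← h2, inv_smul_smul])
      exact inv_mul_eq_one.1 h5
    refine (ih.union ((huniq y z hyz).union (huniq z y hyz.symm))).subset ?_
    intro f hf
    have hf' : ¬ (f • x ∈ Sd X p q ↔ f • z ∈ Sd X p q) := hf
    by_cases h1 : f • x ∈ Sd X p q ↔ f • y ∈ Sd X p q
    · right
      have hadj := hX.act f _ _ hyz
      have hside : ∀ u, u ∉ Sd X p q → u ∈ Sd X q p := by
        intro u hu
        rcases hX.tr.side hpq u with h | h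
        · exact absurd h hu
        · exact h
      rw [h1] at hf'
      by_cases h2 : f • y ∈ Sd X p q
      · have h3 : f • z ∉ Sd X p q := fun h => hf' ⟨fun _ => h, fun _ => h2⟩
        exact Or.inl (hX.tr.crossing hpq h2 (hside _ h3) hadj)
      · have h3 : f • z ∈ Sd X p q := by
          by_contra h
          exact hf' ⟨fun h' => absurd h' h2, fun h' => absurd h' h⟩
        exact Or.inr (hX.tr.crossing hpq h3 (hside _ h2) hadj.symm)
    · exact Or.inl h1

theorem RT (n : ℕ) : ∀ (A : Type) [Group A] (F : Subgroup A) [F.Normal] [F.FiniteIndex]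
    [IsFreeGroup F] (Z : Subgroup A), F ⊔ Z = ⊤ → (∃ z ∈ Z, z ∈ F ∧ z ≠ 1) →
    FFac F (Z.subgroupOf F) → RFG F (rel F Z) → Nat.card (Th F (rel F Z)) < n →
    ∀ d : Z → Z → ℕ, LF (F.subgroupOf Z) d →
    ∃ d' : A → A → ℕ, LF F d' ∧ ∀ z z' : Z, d' z z' = d z z' := by
  classical
  induction n with
  | zero =>
    intro A _ F _ _ _ Z _ _ _ _ h
    exact absurd h (Nat.not_lt_zero _)
  | succ n ih =>
    intro A _ F hN hFI hfree Z hFZ hz0 hff hfg hcard d hd
    by_cases hZ : Z = ⊤
    · subst hZ
      let j : A →* (⊤ : Subgroup A) := (Subgroup.topEquiv (G := A)).symm.toMonoidHom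
      refine ⟨_, hd.comap (F' := F) j (Subgroup.topEquiv (G := A)).symm.injective ?_, fun z z' => rfl⟩
      intro f hf
      exact hf
    · obtain ⟨V0, X0, act0, hX0, hTE0, v0, hv0⟩ := hff
      -- decomposition
      have hdec : ∀ a : A, ∃ f : F, ∃ z ∈ Z, a = (f : A) * z := by
        intro a
        have h1 : a ∈ ((F ⊔ Z : Subgroup A) : Set A) := by rw [hFZ]; trivial
        rw [Subgroup.normal_mul] at h1
        obtain ⟨f, hf, z, hz, h2⟩ := h1
        exact ⟨⟨f, hf⟩, z, hz, h2.symm⟩
      obtain ⟨f0, hf0⟩ : ∃ f : F, f • v0 ≠ v0 := by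
        by_contra hcon
        push Not at hcon
        apply hZ
        rw [← hFZ, eq_comm, sup_eq_right]
        intro f hf
        exact (hv0 ⟨f, hf⟩).1 (hcon ⟨f, hf⟩)
      obtain ⟨n0, hn1, hn2⟩ := exists_next hX0.tr.conn hf0.symm
      have hv0U : v0 ∉ Sd X0 n0 v0 := by
        intro h
        have h' : X0.dist n0 v0 + 1 = X0.dist v0 v0 := h
        rw [SimpleGraph.dist_self] at h'
        omega
      choose φ ζ hζ hφ using hdec
      let ψ : A → V0 := fun a => φ a • v0
      have hψ0 : ∀ (a : A) (f : F) (z : A), z ∈ Z → a = (f : A) * z → ψ a = f • v0 := by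
        intro a f z hz ha
        have h1 := hφ a
        have h2 : (f⁻¹ * φ a) • v0 = v0 := by
          rw [hv0]
          show ((f⁻¹ * φ a : F) : A) ∈ Z
          have h3 : ((f⁻¹ * φ a : F) : A) = z * (ζ a)⁻¹ := by
            rw [Subgroup.coe_mul, Subgroup.coe_inv, inv_mul_eq_iff_eq_mul, ← mul_assoc, ← ha,
              eq_mul_inv_iff_mul_eq]
            exact h1.symm
          rw [h3]
          exact Z.mul_mem hz (Z.inv_mem (hζ a))
        rw [mul_smul, inv_smul_eq_iff] at h2
        exact h2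
      have hψ : ∀ (f : F) (a : A), ψ ((f : A) * a) = f • ψ a := by
        intro f a
        rw [hψ0 ((f : A) * a) (f * φ a) (ζ a) (hζ a) (by
          rw [Subgroup.coe_mul, mul_assoc, ← hφ a]), mul_smul]
      have hψz : ∀ (a z : A), z ∈ Z → ψ (a * z) = ψ a := by
        intro a z hz
        refine hψ0 (a * z) (φ a) (ζ a * z) (Z.mul_mem (hζ a) hz) ?_
        rw [← mul_assoc, ← hφ a]
      obtain ⟨z0, hz0Z, hz0F, hz01⟩ := hz0
      have hz0inj : Function.Injective (fun n : ℕ => z0 ^ n) := by
        intro m k h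
        have key : ∀ m k : ℕ, m < k → z0 ^ m = z0 ^ k → False := by
          intro m k hlt h
          have h1 : z0 ^ (k - m) = 1 := by
            have h2 : z0 ^ k = z0 ^ m * z0 ^ (k - m) := by rw [← pow_add]; congr 1; omega
            rw [h2] at h
            have h3 : z0 ^ m * 1 = z0 ^ m * z0 ^ (k - m) := by rw [mul_one]; exact h
            exact (mul_left_cancel h3).symm
          have h3 : (⟨z0, hz0F⟩ : F) ^ (k - m) = 1 := Subtype.ext (by simpa using h1)
          exact hz01 (congrArg Subtype.val (free_tors _ (k - m) (by omega) h3))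
        rcases Nat.lt_trichotomy m k with h1 | h1 | h1
        · exact (key m k h1 h).elim
        · exact h1
        · exact (key k m h1 h.symm).elim
      obtain ⟨ι, hι, gen, hgen⟩ := exists_gens F Z hfg
      have hcut : IsCut gen {a | ψ a ∈ Sd X0 n0 v0} := by
        refine ⟨cut_bd F ψ hψ _ (fin_sep hX0 hTE0 hn1) gen, ?_, ?_⟩
        · refine Set.infinite_of_injective_forall_mem (f := fun n : ℕ => (f0 : A) * z0 ^ n) ?_ ?_
          · intro m k h
            exact hz0inj (mul_left_cancel h)
          · intro m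
            show ψ ((f0 : A) * z0 ^ m) ∈ Sd X0 n0 v0
            rw [hψ0 _ f0 (z0 ^ m) (Z.pow_mem hz0Z m) rfl]
            exact hn2
        · refine Set.infinite_of_injective_forall_mem (f := fun n : ℕ => z0 ^ n) hz0inj ?_
          intro m
          show ¬ ψ (z0 ^ m) ∈ Sd X0 n0 v0
          rw [hψ0 _ 1 (z0 ^ m) (Z.pow_mem hz0Z m) (by simp), one_smul]
          exact hv0U
      have hRI : RInv Z {a | ψ a ∈ Sd X0 n0 v0} := by
        intro x z hz
        show ψ (x * z) ∈ Sd X0 n0 v0 ↔ ψ x ∈ Sd X0 n0 v0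
        rw [hψz x z hz]
      obtain ⟨V, T, act, hT, htors, v, hZv, hunb⟩ := cut_tree gen Z hgen ⟨_, hRI, hcut⟩
      have hTE : TEF F T := by
        intro f hf x y hxy hx hy
        obtain ⟨k, hk, h1⟩ := htors f x y hxy hx hy
        have h2 : (⟨f, hf⟩ : F) ^ k = 1 := Subtype.ext (by simpa using h1)
        exact congrArg Subtype.val (free_tors _ k hk h2)
      have hmove : ∃ f ∈ F, f • v ≠ v := by
        by_contra hcon
        push Not at hcon
        obtain ⟨R, hR⟩ := bdd_of_fix hT F v v hcon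
        obtain ⟨a, ha⟩ := hunb R
        have := hR a
        omega
      obtain ⟨Ω, r, ω0, hr0, hr, hr'⟩ := exists_sec (A := A) v
      subst hr0
      have hS : ∃ dS : MulAction.stabilizer A (r ω0) → MulAction.stabilizer A (r ω0) → ℕ,
          LF (F.subgroupOf (MulAction.stabilizer A (r ω0))) dS ∧
          ∀ (z z' : Z) (hz : (z : A) ∈ MulAction.stabilizer A (r ω0))
            (hz' : (z' : A) ∈ MulAction.stabilizer A (r ω0)), dS ⟨z, hz⟩ ⟨z', hz'⟩ = d z z' := by
        obtain ⟨h1, h2⟩ := vertexA hT hTE (fun Q hQ => free_C2 Q hQ) (r ω0) hmove Z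
          (fun z hz _ => hZv z hz) hfg
        have hfr := free_sub F (MulAction.stabilizer A (r ω0))
        let jZ : Z.subgroupOf (MulAction.stabilizer A (r ω0)) →* Z :=
          MonoidHom.mk' (fun x => ⟨((x : MulAction.stabilizer A (r ω0)) : A), x.2⟩) (fun x y => rfl)
        have hjZ : Function.Injective jZ := by
          intro x y h
          have h1 : ((x : MulAction.stabilizer A (r ω0)) : A) =
            ((y : MulAction.stabilizer A (r ω0)) : A) := congrArg (fun z : Z => (z : A)) h
          exact Subtype.ext (Subtype.ext h1)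
        let jF : F.subgroupOf (MulAction.stabilizer A (r ω0)) →* F :=
          MonoidHom.mk' (fun x => ⟨((x : MulAction.stabilizer A (r ω0)) : A), x.2⟩) (fun x y => rfl)
        have hjF : Function.Injective jF := by
          intro x y h
          have h1 : ((x : MulAction.stabilizer A (r ω0)) : A) =
            ((y : MulAction.stabilizer A (r ω0)) : A) := congrArg (fun z : F => (z : A)) h
          exact Subtype.ext (Subtype.ext h1)
        have hff' : FFac (F.subgroupOf (MulAction.stabilizer A (r ω0)))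
            ((Z.subgroupOf (MulAction.stabilizer A (r ω0))).subgroupOf
              (F.subgroupOf (MulAction.stabilizer A (r ω0)))) := by
          have h3 : FFac F (Z.subgroupOf F) := ⟨V0, X0, act0, hX0, hTE0, v0, hv0⟩
          exact h3.comap jF hjF
        obtain ⟨dS, h3, h4⟩ := ih (MulAction.stabilizer A (r ω0))
          (F.subgroupOf (MulAction.stabilizer A (r ω0)))
          (Z.subgroupOf (MulAction.stabilizer A (r ω0))) (by
            rw [eq_top_iff]
            rintro ⟨s, hs⟩ _
            have h5 := hφ s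
            have h6 : ζ s ∈ MulAction.stabilizer A (r ω0) := hZv _ (hζ s)
            have h7 : (φ s : A) ∈ MulAction.stabilizer A (r ω0) := by
              have : (φ s : A) = s * (ζ s)⁻¹ := by rw [eq_mul_inv_iff_mul_eq]; exact h5.symm
              rw [this]
              exact Subgroup.mul_mem _ hs (Subgroup.inv_mem _ h6)
            have h8 : (⟨s, hs⟩ : MulAction.stabilizer A (r ω0)) = ⟨φ s, h7⟩ * ⟨ζ s, h6⟩ :=
              Subtype.ext h5
            rw [h8]
            exact Subgroup.mul_mem_sup (φ s).2 (hζ s))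
          ⟨⟨z0, hZv z0 hz0Z⟩, hz0Z, hz0F, fun h => hz01 (congrArg Subtype.val h)⟩ hff' h1 (by omega)
          (fun x y => d (jZ x) (jZ y)) (hd.comap jZ hjZ (fun f hf => hf))
        exact ⟨dS, h3, fun z z' hz hz' => h4 ⟨⟨z, hz⟩, z.2⟩ ⟨⟨z', hz'⟩, z'.2⟩⟩
      have hall : ∀ ω, ∃ dS : MulAction.stabilizer A (r ω) → MulAction.stabilizer A (r ω) → ℕ,
          LF (F.subgroupOf (MulAction.stabilizer A (r ω))) dS ∧
          (ω = ω0 → ∀ (z z' : Z) (hz : (z : A) ∈ MulAction.stabilizer A (r ω))
            (hz' : (z' : A) ∈ MulAction.stabilizer A (r ω)), dS ⟨z, hz⟩ ⟨z', hz'⟩ = d z z') := by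
        intro ω
        by_cases hω : ω = ω0
        · subst hω
          obtain ⟨dS, h1, h2⟩ := hS
          exact ⟨dS, h1, fun _ => h2⟩
        · have h1 := vertexB hT hTE (r ω) (r ω0) (fun f _ h => hω (hr' ω ω0 f h)) Z
            (fun z hz _ => hZv z hz) hfg
          have hfr := free_sub F (MulAction.stabilizer A (r ω))
          obtain ⟨dS, h2⟩ := AT _ (MulAction.stabilizer A (r ω))
            (F.subgroupOf (MulAction.stabilizer A (r ω))) h1 (Nat.lt_succ_self _)
          exact ⟨dS, h2, fun h => absurd h hω⟩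
      choose dS hdS hdS' using hall
      obtain ⟨E, Y, actE, h1, h2, h3⟩ := BUA hT F hTE r hr hr' dS hdS
      obtain ⟨e0, he0⟩ := h3 ω0
      refine ⟨_, h1.lf F h2 e0, fun z z' => ?_⟩
      have h4 := he0 ⟨z, hZv z z.2⟩ ⟨z', hZv z' z'.2⟩
      exact h4.trans (hdS' ω0 rfl z z' (hZv z z.2) (hZv z' z'.2))

end Pool.Agent.TH97.KP
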