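import Pool.Agent.TH97.KP.Blow

/-!
# Retractions onto vertex groups
-/

set_option autoImplicit false

namespace Pool.Agent.TH97.KP

open Pool.Agent.H97R3.VR

section

theorem IsTr.noSquare {V : Type} {X : SimpleGraph V} (h : IsTr X) {p q r o : V}
    (hs : H97R3.VR.Square X p q r o) : False := by
  obtain ⟨U, h1, h2, h3⟩ := h.cut p q hs.xy
  by_cases ho : o ∈ U
  · by_cases hr : r ∈ U
    · exact hs.ne (h3 r hr q h2 hs.yw.symm).1.symm
    · have := (h3 o ho r hr hs.wz.symm).1
      have h4 := hs.zx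
      rw [this] at h4
      exact X.loopless.irrefl _ h4
  · exact hs.ne' (h3 p h1 o ho hs.zx.symm).2.symm

variable {F V : Type} [Group F] [MulAction F V] {X : SimpleGraph V}

/-- trivial edge stabilizers -/
def TE (F : Type) {V : Type} [Group F] [MulAction F V] (X : SimpleGraph V) : Prop :=
  ∀ (f : F) (x y : V), X.Adj x y → f • x = x → f • y = y → f = 1

theorem IsTr.pot (h : IsTr X) {M : Type} [Group M] (x0 : V) (c : V → V → M)
    (hinv : ∀ x y, X.Adj x y → c y x * c x y = 1) :
    ∃ F : V → M, F x0 = 1 ∧ ∀ x y, X.Adj x y → F y = c x y * F x :=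
  exists_pot h.median x0 c hinv (fun _ _ _ _ hs => (h.noSquare hs).elim)

theorem exists_retr (hX : TrA F X) (hte : TE F X) (v : V) :
    ∃ ρ : F →* F, (∀ f, ρ f • v = v) ∧ (∀ f, f • v = v → ρ f = f) ∧
      ∀ w, (∀ f : F, f • v ≠ w) → ∀ f : F, f • w = w → ρ f = 1 := by
  classical
  -- labels of the neighbours of `v`
  obtain ⟨β0, hβ1, -, hβ3⟩ := equi_choice (A := MulAction.stabilizer F v) (Q := V)
    (E := MulAction.stabilizer F v) (fun a => X.Adj v a) (fun _ _ => True)
    (fun p a h => by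
      have := hX.act (p : F) _ _ h
      rwa [p.2] at this) (fun _ _ _ _ _ => trivial) (by
      intro a ha
      refine ⟨1, trivial, fun p hp => ?_⟩
      have : (p : F) = 1 := hte p v a ha p.2 hp
      have h2 : p = 1 := Subtype.ext this
      rw [h2, one_smul])
  have hβex : ∀ a, ∃ e : MulAction.stabilizer F v, X.Adj v a → β0 a e := by
    intro a
    by_cases h : X.Adj v a
    · obtain ⟨e, he, -⟩ := hβ1 a h
      exact ⟨e, fun _ => he⟩
    · exact ⟨1, fun h' => absurd h' h⟩
  choose β hβ using hβex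
  have hβs : ∀ (p : MulAction.stabilizer F v) a, X.Adj v a → β ((p : F) • a) = p * β a := by
    intro p a ha
    have h1 : X.Adj v ((p : F) • a) := by
      have := hX.act (p : F) _ _ ha
      rwa [p.2] at this
    exact (hβ1 _ h1).unique (hβ _ h1) (hβ3 p a _ (hβ a ha))
  -- section
  have hsex : ∀ x : V, ∃ s : F, ((∃ f : F, f • v = x) → s • v = x) ∧ (x = v → s = 1) := by
    intro x
    by_cases h : x = v
    · exact ⟨1, fun _ => by rw [h, one_smul], fun _ => rfl⟩
    · by_cases h2 : ∃ f : F, f • v = x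
      · obtain ⟨f, hf⟩ := h2
        exact ⟨f, fun _ => hf, fun h' => absurd h' h⟩
      · exact ⟨1, fun h' => absurd h' h2, fun h' => absurd h' h⟩
  choose sec hsec1 hsec2 using hsex
  have hO : ∀ (f : F) x, (∃ g : F, g • v = f • x) ↔ ∃ g : F, g • v = x := by
    intro f x
    constructor
    · rintro ⟨g, hg⟩
      exact ⟨f⁻¹ * g, by rw [mul_smul, hg, inv_smul_smul]⟩
    · rintro ⟨g, hg⟩
      exact ⟨f * g, by rw [mul_smul, hg]⟩
  have hppex : ∀ (f : F) (x : V), ∃ p : MulAction.stabilizer F v,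
      ((∃ g : F, g • v = x) → (p : F) = (sec (f • x))⁻¹ * f * sec x) ∧
      ((¬ ∃ g : F, g • v = x) → p = 1) := by
    intro f x
    by_cases h : ∃ g : F, g • v = x
    · refine ⟨⟨(sec (f • x))⁻¹ * f * sec x, ?_⟩, fun _ => rfl, fun h' => absurd h h'⟩
      show ((sec (f • x))⁻¹ * f * sec x) • v = v
      rw [mul_smul, mul_smul, hsec1 x h, inv_smul_eq_iff]
      exact (hsec1 _ ((hO f x).2 h)).symm
    · exact ⟨1, fun h' => absurd h' h, fun _ => rfl⟩
  choose pp hpp1 hpp2 using hppex
  have hppm : ∀ (f g : F) x, pp (f * g) x = pp f (g • x) * pp g x := by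
    intro f g x
    by_cases h : ∃ g : F, g • v = x
    · apply Subtype.ext
      rw [Subgroup.coe_mul, hpp1 _ _ h, hpp1 _ _ ((hO g x).2 h), hpp1 _ _ h, mul_smul]
      group
    · rw [hpp2 _ _ h, hpp2 _ _ (fun h' => h ((hO g x).1 h')), hpp2 _ _ h, one_mul]
  -- labels
  let T : V → V → MulAction.stabilizer F v := fun x a =>
    if ∃ g : F, g • v = x then (β ((sec x)⁻¹ • a))⁻¹ else 1
  have hT : ∀ (f : F) x a, X.Adj x a → T (f • x) (f • a) = T x a * (pp f x)⁻¹ := by
    intro f x a hxa
    by_cases h : ∃ g : F, g • v = x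
    · have e1 : T x a = (β ((sec x)⁻¹ • a))⁻¹ := if_pos h
      have e2 : T (f • x) (f • a) = (β ((sec (f • x))⁻¹ • f • a))⁻¹ := if_pos ((hO f x).2 h)
      have e3 : (sec (f • x))⁻¹ • f • a = ((pp f x : MulAction.stabilizer F v) : F) • (sec x)⁻¹ • a := by
        rw [hpp1 f x h, ← mul_smul, ← mul_smul]
        congr 1
        group
      have e4 : X.Adj v ((sec x)⁻¹ • a) := by
        have := hX.act (sec x)⁻¹ _ _ hxa
        rwa [show (sec x)⁻¹ • x = v by rw [inv_smul_eq_iff]; exact (hsec1 x h).symm] at this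
      rw [e1, e2, e3, hβs _ _ e4, mul_inv_rev]
    · have e1 : T x a = 1 := if_neg h
      have e2 : T (f • x) (f • a) = 1 := if_neg (fun h' => h ((hO f x).1 h'))
      rw [e1, e2, hpp2 _ _ h, inv_one, one_mul]
  -- potential
  obtain ⟨h, h1, h2⟩ := hX.tr.pot v (fun x y => (T y x)⁻¹ * T x y) (by
    intro x y _
    group)
  have h3 : ∀ x y, X.Adj x y → T y x * h y = T x y * h x := by
    intro x y hxy
    rw [h2 x y hxy]
    group
  have h4 : ∀ (f : F) x, (pp f x)⁻¹ * h (f • x) = h x * ((pp f v)⁻¹ * h (f • v)) := by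
    intro f x
    refine conn_ind hX.tr.conn (fun x => (pp f x)⁻¹ * h (f • x) = h x * ((pp f v)⁻¹ * h (f • v)))
      v ?_ ?_ x
    · rw [h1, one_mul]
    · intro x y hxy ih
      have e1 : T y x * ((pp f y)⁻¹ * h (f • y)) = T x y * ((pp f x)⁻¹ * h (f • x)) := by
        rw [← mul_assoc, ← mul_assoc, ← hT f y x hxy.symm, ← hT f x y hxy]
        exact h3 _ _ (hX.act f _ _ hxy)
      rw [ih] at e1
      have e2 := h3 x y hxy
      have e3 : T y x * ((pp f y)⁻¹ * h (f • y)) = T y x * (h y * ((pp f v)⁻¹ * h (f • v))) := by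
        rw [e1, ← mul_assoc (T x y) (h x), ← e2, mul_assoc]
      exact mul_left_cancel e3
  let k : F → MulAction.stabilizer F v := fun f => (pp f v)⁻¹ * h (f • v)
  have hk : ∀ f g, k (f * g) = k g * k f := by
    intro f g
    show (pp (f * g) v)⁻¹ * h ((f * g) • v) = (pp g v)⁻¹ * h (g • v) * ((pp f v)⁻¹ * h (f • v))
    rw [hppm, mul_smul, mul_inv_rev, mul_assoc, h4 f (g • v), ← mul_assoc]
  refine ⟨MonoidHom.mk' (fun f => (((k f)⁻¹ : MulAction.stabilizer F v) : F)) ?_, ?_, ?_, ?_⟩
  · intro f g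
    rw [hk, mul_inv_rev]
    rfl
  · intro f
    exact ((k f)⁻¹).2
  · intro f hf
    have e1 : pp f v = ⟨f, hf⟩ := by
      apply Subtype.ext
      rw [hpp1 f v ⟨1, one_smul _ _⟩, hf, hsec2 v rfl]
      simp
    have e2 : k f = (⟨f, hf⟩ : MulAction.stabilizer F v)⁻¹ := by
      show (pp f v)⁻¹ * h (f • v) = _
      rw [hf, h1, mul_one, e1]
    show (((k f)⁻¹ : MulAction.stabilizer F v) : F) = f
    rw [e2, inv_inv]
  · intro w hw f hf
    have hw' : ¬ ∃ g : F, g • v = w := fun ⟨g, hg⟩ => hw g hg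
    have e1 := h4 f w
    rw [hpp2 f w hw', hf, inv_one, one_mul] at e1
    have e2 : k f = 1 := by
      have : h w * k f = h w * 1 := by rw [mul_one]; exact e1.symm
      exact mul_left_cancel this
    show (((k f)⁻¹ : MulAction.stabilizer F v) : F) = 1
    rw [e2, inv_one]
    rfl

/-! ### homomorphisms to the group of order two -/

/-- the group of order two -/
abbrev C2 : Type := Multiplicative (ZMod 2)

theorem C2.sq (a : C2) : a * a = 1 := by
  revert a; decide

theorem C2.ne : ∃ a : C2, a ≠ 1 := ⟨Multiplicative.ofAdd 1, by decide⟩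

theorem btw_trans (hc : X.Connected) {p q q' u : V} (h : H97R3.VR.Btw X p q q')
    (h' : H97R3.VR.Btw X p q' u) : H97R3.VR.Btw X p q u := by
  unfold H97R3.VR.Btw at h h' ⊢
  have h1 : X.dist u q ≤ X.dist u q' + X.dist q' q := hc.dist_triangle
  have h2 : X.dist p q ≤ X.dist p u + X.dist u q := hc.dist_triangle
  omega

theorem walkex (hc : X.Connected) {M : Type} (h : V → M) (p : V) (n : ℕ) : ∀ q, X.dist p q = n →
    h p ≠ h q → ∃ u u', X.Adj u u' ∧ H97R3.VR.Btw X p q u ∧ H97R3.VR.Btw X p q u' ∧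
      X.dist p u' = X.dist p u + 1 ∧ h u ≠ h u' := by
  induction n with
  | zero =>
    intro q hq hne
    rw [hc.dist_eq_zero_iff] at hq
    exact absurd (congrArg h hq) hne
  | succ n ih =>
    intro q hq hne
    obtain ⟨q', h1, h2⟩ := exists_pred hc hq
    have hb : H97R3.VR.Btw X p q q' := by
      unfold H97R3.VR.Btw
      rw [h2, adj_one h1, hq]
    by_cases he : h q' = h q
    · obtain ⟨u, u', h3, h4, h5, h6, h7⟩ := ih q' h2 (by rw [he]; exact hne)
      exact ⟨u, u', h3, btw_trans hc hb h4, btw_trans hc hb h5, h6, h7⟩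
    · refine ⟨q', q, h1, hb, ?_, by rw [h2, hq], he⟩
      unfold H97R3.VR.Btw
      rw [SimpleGraph.dist_self, add_zero]

theorem strict (hX : TrA F X) (hte : TE F X)
    (hC : ∀ Q : Subgroup F, Q ≠ ⊥ → ∃ θ : Q →* C2, θ ≠ 1) (v : V) (hv : ∃ f : F, f • v ≠ v) :
    ∃ η : F →* C2, η ≠ 1 ∧ ∀ f : F, f • v = v → η f = 1 := by
  classical
  by_contra hno'
  have hno : ∀ η : F →* C2, (∀ f : F, f • v = v → η f = 1) → η = 1 := by
    intro η h
    by_contra hne
    exact hno' ⟨η, hne, h⟩
  have hc := hX.tr.conn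
  -- step A
  have hA : ∀ w, (∀ f : F, f • v ≠ w) → ∀ f : F, f • w = w → f = 1 := by
    intro w hw f hf
    by_contra hne
    have h1 : MulAction.stabilizer F w ≠ ⊥ := by
      intro h
      have : f ∈ MulAction.stabilizer F w := hf
      rw [h, Subgroup.mem_bot] at this
      exact hne this
    obtain ⟨θ, hθ⟩ := hC _ h1
    obtain ⟨ρ, h2, h3, h4⟩ := exists_retr hX hte w
    have h5 := hno (θ.comp (ρ.codRestrict (MulAction.stabilizer F w) h2)) (by
      intro g hg
      have h6 : ρ g = 1 := h4 v (fun f hf => hw f⁻¹ (by rw [← hf, inv_smul_smul])) g hg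
      show θ ⟨ρ g, _⟩ = 1
      have h7 : (⟨ρ g, h2 g⟩ : MulAction.stabilizer F w) = 1 := Subtype.ext h6
      rw [h7, map_one])
    apply hθ
    ext g
    have h6 := DFunLike.congr_fun h5 (g : F)
    have h7 : (⟨ρ g, h2 g⟩ : MulAction.stabilizer F w) = g := Subtype.ext (h3 g g.2)
    have h8 : θ ⟨ρ g, h2 g⟩ = 1 := h6
    rw [h7] at h8
    rw [h8]
    rfl
  -- step B
  obtain ⟨g0, hg0⟩ := C2.ne
  have hB : ∀ x y, X.Adj x y → ∃ h : V → C2, (∀ (f : F) a, h (f • a) = h a) ∧
      (∀ a b, X.Adj a b → h a ≠ h b → ∃ f : F, (f • x = a ∧ f • y = b) ∨ (f • x = b ∧ f • y = a)) ∧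
      h x ≠ h y := by
    intro x y hxy
    let c : V → V → C2 := fun a b =>
      if ∃ f : F, (f • x = a ∧ f • y = b) ∨ (f • x = b ∧ f • y = a) then g0 else 1
    have hcs : ∀ a b, c a b = c b a := by
      intro a b
      have : (∃ f : F, (f • x = a ∧ f • y = b) ∨ (f • x = b ∧ f • y = a)) ↔
          ∃ f : F, (f • x = b ∧ f • y = a) ∨ (f • x = a ∧ f • y = b) :=
        exists_congr fun f => or_comm
      show (if _ then _ else _) = (if _ then _ else _)
      simp only [this]
    have hci : ∀ (f : F) a b, c (f • a) (f • b) = c a b := by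
      intro f a b
      have : (∃ g : F, (g • x = f • a ∧ g • y = f • b) ∨ (g • x = f • b ∧ g • y = f • a)) ↔
          ∃ g : F, (g • x = a ∧ g • y = b) ∨ (g • x = b ∧ g • y = a) := by
        constructor
        · rintro ⟨g, hg⟩
          refine ⟨f⁻¹ * g, ?_⟩
          rw [mul_smul, mul_smul]
          rcases hg with ⟨h1, h2⟩ | ⟨h1, h2⟩
          · left; rw [h1, h2, inv_smul_smul, inv_smul_smul]; exact ⟨rfl, rfl⟩
          · right; rw [h1, h2, inv_smul_smul, inv_smul_smul]; exact ⟨rfl, rfl⟩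
        · rintro ⟨g, hg⟩
          refine ⟨f * g, ?_⟩
          rw [mul_smul, mul_smul]
          rcases hg with ⟨h1, h2⟩ | ⟨h1, h2⟩
          · left; rw [h1, h2]; exact ⟨rfl, rfl⟩
          · right; rw [h1, h2]; exact ⟨rfl, rfl⟩
      show (if _ then _ else _) = (if _ then _ else _)
      simp only [this]
    obtain ⟨h, h1, h2⟩ := hX.tr.pot v c (by
      intro a b _
      rw [hcs b a, C2.sq])
    have h3 : ∀ (f : F) a, h (f • a) = h (f • v) * h a := by
      intro f a
      refine conn_ind hc (fun a => h (f • a) = h (f • v) * h a) v ?_ ?_ a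
      · rw [h1, mul_one]
      · intro a b hab ih
        rw [h2 (f • a) (f • b) (hX.act f _ _ hab), h2 a b hab, hci, ih, mul_left_comm]
    have h4 := hno (MonoidHom.mk' (fun f => h (f • v)) (by
      intro f g
      rw [mul_smul, h3])) (by
      intro f hf
      show h (f • v) = 1
      rw [hf, h1])
    have h5 : ∀ f : F, h (f • v) = 1 := fun f => DFunLike.congr_fun h4 f
    refine ⟨h, ?_, ?_, ?_⟩
    · intro f a
      rw [h3, h5, one_mul]
    · intro a b hab hne
      by_contra hcon
      have : c a b = 1 := if_neg hcon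
      rw [h2 a b hab, this, one_mul] at hne
      exact hne rfl
    · have : c x y = g0 := if_pos ⟨1, Or.inl ⟨one_smul _ _, one_smul _ _⟩⟩
      rw [h2 x y hxy, this]
      intro he
      have h6 : g0 * h x = 1 * h x := by rw [one_mul]; exact he.symm
      exact hg0 (mul_right_cancel h6)
  -- step D
  have hD : ∀ x y, X.Adj x y → ∀ f : F, f • x ≠ y := by
    intro x y hxy f hf
    obtain ⟨h, h1, -, h3⟩ := hB x y hxy
    apply h3
    rw [← hf, h1]
  -- step E
  have hE : ∀ (m : ℕ) (x : V) (g : F), g • x ≠ x → X.dist x (g • x) = m →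
      (∀ u, H97R3.VR.Btw X x (g • x) u → ∀ f : F, f • v ≠ u) → False := by
    intro m
    induction m using Nat.strong_induction_on with
    | _ m ih =>
      intro x g hg hm hav
      obtain ⟨y, h1, h2⟩ := exists_next hc hg.symm
      have hby : H97R3.VR.Btw X x (g • x) y := by
        unfold H97R3.VR.Btw
        rw [adj_one h1.symm]
        omega
      obtain ⟨h, h3, h4, h5⟩ := hB x y h1.symm
      obtain ⟨u, u', h6, h7, h8, h9, h10⟩ := walkex hc h y _ (g • x) rfl (by
        rw [h3]
        exact h5.symm)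
      have hbt : ∀ w, H97R3.VR.Btw X y (g • x) w → H97R3.VR.Btw X x (g • x) w ∧
          X.dist x w = X.dist y w + 1 := by
        intro w hw
        unfold H97R3.VR.Btw at hw hby ⊢
        have e1 : X.dist x w ≤ X.dist x y + X.dist y w := hc.dist_triangle
        have e2 : X.dist x (g • x) ≤ X.dist x w + X.dist w (g • x) := hc.dist_triangle
        rw [adj_one h1.symm] at e1
        omega
      have hu := hbt u h7
      have hu' := hbt u' h8
      have hlt : X.dist y u < X.dist y (g • x) := by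
        unfold H97R3.VR.Btw at h8
        omega
      obtain ⟨k, ⟨hk1, hk2⟩ | ⟨hk1, hk2⟩⟩ := h4 u u' h6 h10
      · refine ih (X.dist x u) (by omega) x k ?_ (by rw [hk1]) ?_
        · rw [hk1]
          rintro rfl
          have := hu.2
          rw [SimpleGraph.dist_self] at this
          omega
        · intro w hw
          rw [hk1] at hw
          exact hav w (btw_trans hc hu.1 hw)
      · by_cases hky : k • y = y
        · have hk : k = 1 := hA y (hav y hby) k hky
          rw [hk, one_smul] at hk1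
          have := hu'.2
          rw [← hk1, SimpleGraph.dist_self] at this
          omega
        · refine ih (X.dist y u) (by omega) y k hky (by rw [hk2]) ?_
          intro w hw
          rw [hk2] at hw
          exact hav w (hbt w (btw_trans hc h7 hw)).1
  -- step F
  have hex : ∃ n, ∃ f : F, f • v ≠ v ∧ X.dist v (f • v) = n := by
    obtain ⟨f, hf⟩ := hv
    exact ⟨_, f, hf, rfl⟩
  obtain ⟨f, hf, hfn⟩ := Nat.find_spec hex
  have hmin : ∀ g : F, g • v ≠ v → X.dist v (f • v) ≤ X.dist v (g • v) := by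
    intro g hg
    rw [hfn]
    exact Nat.find_min' hex ⟨g, hg, rfl⟩
  obtain ⟨y, h1, h2⟩ := exists_next hc hf.symm
  have hby : H97R3.VR.Btw X v (f • v) y := by
    unfold H97R3.VR.Btw
    rw [adj_one h1.symm]
    omega
  obtain ⟨h, h3, h4, h5⟩ := hB v y h1.symm
  obtain ⟨u, u', h6, h7, h8, h9, h10⟩ := walkex hc h y _ (f • v) rfl (by
    rw [h3]
    exact h5.symm)
  have hbt : ∀ w, H97R3.VR.Btw X y (f • v) w → H97R3.VR.Btw X v (f • v) w ∧
      X.dist v w = X.dist y w + 1 := by
    intro w hw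
    unfold H97R3.VR.Btw at hw hby ⊢
    have e1 : X.dist v w ≤ X.dist v y + X.dist y w := hc.dist_triangle
    have e2 : X.dist v (f • v) ≤ X.dist v w + X.dist w (f • v) := hc.dist_triangle
    rw [adj_one h1.symm] at e1
    omega
  have hu := hbt u h7
  have hu' := hbt u' h8
  have hlt : X.dist y u < X.dist y (f • v) := by
    unfold H97R3.VR.Btw at h8
    omega
  have hnev : ∀ w, X.dist v w = X.dist y w + 1 → w ≠ v := by
    rintro w hw rfl
    rw [SimpleGraph.dist_self] at hw
    omega
  obtain ⟨k, ⟨hk1, hk2⟩ | ⟨hk1, hk2⟩⟩ := h4 u u' h6 h10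
  · have := hmin k (by rw [hk1]; exact hnev u hu.2)
    rw [hk1] at this
    omega
  · have hkv : k • v ≠ v := by rw [hk1]; exact hnev u' hu'.2
    have hle := hmin k hkv
    rw [hk1] at hle
    by_cases hky : k • y = y
    · have hk : k = 1 := hA y (fun l hl => hD v y h1.symm l hl) k hky
      rw [hk, one_smul] at hkv
      exact hkv rfl
    · refine hE _ y k hky rfl ?_
      intro w hw l hl
      rw [hk2] at hw
      have h11 := hbt w (btw_trans hc h7 hw)
      have h12 := hmin l (by rw [hl]; exact hnev w h11.2)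
      rw [hl] at h12
      unfold H97R3.VR.Btw at hw
      omega

end

end Pool.Agent.TH97.KP
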