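import Pool.Agent.TH97.KP.Bas

/-!
# Extension steps
-/

set_option autoImplicit false

namespace Pool.Agent.TH97.KP

open Pool.Agent.H97R3.VR

section

variable {G : Type} [Group G] {F : Subgroup G} {β : Type} (e : F ≃* FreeGroup β)

theorem RF_Fb (Z : Subgroup G) {s t : Set β} (ht : t.Finite) (hs : Fb e s ≤ Z) :
    RF Z (Fb e (s ∪ t)) := by
  refine ⟨{x | ∃ b ∈ t, (x : G) = bs e b}, ?_, ?_⟩
  · have h1 : {x : Fb e (s ∪ t) | ∃ b ∈ t, (x : G) = bs e b} ⊆ Subtype.val ⁻¹' (bs e '' t) := by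
      rintro x ⟨b, hb, hx⟩
      exact ⟨b, hb, hx.symm⟩
    exact ((ht.image _).preimage Subtype.val_injective.injOn).subset h1
  · rw [eq_top_iff]
    rintro ⟨x, hx⟩ _
    have key : ∀ (x : G) (hx : x ∈ Subgroup.closure (bs e '' (s ∪ t))),
        (⟨x, hx⟩ : Fb e (s ∪ t)) ∈ Subgroup.closure ({x : Fb e (s ∪ t) | (x : G) ∈ Z} ∪
          {x | ∃ b ∈ t, (x : G) = bs e b}) := by
      intro x hx
      induction hx using Subgroup.closure_induction with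
      | mem x hx =>
        apply Subgroup.subset_closure
        obtain ⟨b, hb | hb, rfl⟩ := hx
        · exact Or.inl (hs (bs_mem e hb))
        · exact Or.inr ⟨b, hb, rfl⟩
      | one => exact Subgroup.one_mem _
      | mul x y hx hy h1 h2 => exact Subgroup.mul_mem _ h1 h2
      | inv x hx h1 => exact Subgroup.inv_mem _ h1
    exact key x hx

theorem stepA [hN : F.Normal] [F.FiniteIndex] (Z : Subgroup G) {s t : Set β} (ht : t.Finite)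
    (hs : Fb e s ≤ Z) (hZ : Z ⊓ F ≤ Fb e (s ∪ t)) :
    ∃ (P : Subgroup G) (t' : Set β), t'.Finite ∧ t ⊆ t' ∧ Cls F Z P ∧ Fb e (s ∪ t) ≤ P ∧
      P ≤ Fb e (s ∪ t') ∧ ∀ z ∈ Z, ∀ x ∈ P, z * x * z⁻¹ ∈ P := by
  classical
  obtain ⟨R0, hR0, hR0c⟩ := exists_reps (F.subgroupOf Z)
  -- representatives
  let R : Set G := (fun r : Z => (r : G)⁻¹) '' R0
  have hR : R.Finite := hR0.image _
  have hRZ : ∀ r ∈ R, r ∈ Z := by
    rintro _ ⟨r, -, rfl⟩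
    exact Z.inv_mem r.2
  have hRc : ∀ z ∈ Z, ∃ r ∈ R, ∃ p, p ∈ Z ⊓ F ∧ z = r * p := by
    intro z hz
    obtain ⟨f, hf, r, hr, h⟩ := hR0c ⟨z⁻¹, Z.inv_mem hz⟩
    refine ⟨(r : G)⁻¹, ⟨r, hr, rfl⟩, (f : G)⁻¹, ⟨Z.inv_mem f.2, F.inv_mem hf⟩, ?_⟩
    have h1 : z⁻¹ = (f : G) * r := congrArg Subtype.val h
    rw [← mul_inv_rev, ← h1, inv_inv]
  -- supports
  have hCfin : (Set.image2 (fun r b => r⁻¹ * bs e b * r) R t).Finite := hR.image2 _ ht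
  obtain ⟨t0, ht0, hC⟩ := Fb_finset e hCfin (by
    rintro _ ⟨r, hr, b, hb, rfl⟩
    have := hN.conj_mem _ (bs_mem_F e b) r⁻¹
    rwa [inv_inv] at this)
  have hP'ge : Z ⊓ F ≤ Fb e (s ∪ (t ∪ t0)) :=
    hZ.trans (Fb_mono e (Set.union_subset_union_right s Set.subset_union_left))
  have hcls' : Cls F Z (Fb e (s ∪ (t ∪ t0))) :=
    ⟨Fb_le e _, hP'ge, Fb_ff e _, RF_Fb e Z (ht.union ht0) hs⟩
  have hcls : ∀ T : Set G, T.Finite → (∀ r ∈ T, r ∈ Z) →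
      Cls F Z (Fb e (s ∪ (t ∪ t0)) ⊓ ⨅ r ∈ T, cj r (Fb e (s ∪ (t ∪ t0)))) := by
    intro T hT
    induction T, hT using Set.Finite.induction_on with
    | empty =>
      intro _
      simpa using hcls'
    | @insert a T _ _ ih =>
      intro hT
      have h1 := ih (fun r hr => hT r (Set.mem_insert_of_mem a hr))
      have h2 := hcls'.conj (hT a (Set.mem_insert a T))
      have h3 := h1.inf h2
      rw [iInf_insert]
      rwa [inf_assoc, inf_comm (⨅ r ∈ T, cj r (Fb e (s ∪ (t ∪ t0))))] at h3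
  set P' := Fb e (s ∪ (t ∪ t0)) with hP'
  set P := P' ⊓ ⨅ r ∈ R, cj r P' with hPdef
  have hPcls : Cls F Z P := hcls R hR hRZ
  have hmem : ∀ x, x ∈ P ↔ ∀ z ∈ Z, z⁻¹ * x * z ∈ P' := by
    intro x
    have h0 : x ∈ P ↔ x ∈ P' ∧ ∀ r ∈ R, r⁻¹ * x * r ∈ P' := by
      rw [hPdef, Subgroup.mem_inf, Subgroup.mem_iInf]
      refine and_congr_right fun _ => forall_congr' fun r => ?_
      rw [Subgroup.mem_iInf]
      exact forall_congr' fun _ => mem_cj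
    rw [h0]
    constructor
    · rintro ⟨-, h2⟩ z hz
      obtain ⟨r, hr, p, hp, rfl⟩ := hRc z hz
      have h3 := h2 r hr
      have h4 : p ∈ P' := hP'ge hp
      have h5 : (r * p)⁻¹ * x * (r * p) = p⁻¹ * (r⁻¹ * x * r) * p := by group
      rw [h5]
      exact P'.mul_mem (P'.mul_mem (P'.inv_mem h4) h3) h4
    · intro h
      refine ⟨?_, fun r hr => h r (hRZ r hr)⟩
      have := h 1 Z.one_mem
      simpa using this
  refine ⟨P, t ∪ t0, ht.union ht0, Set.subset_union_left, hPcls, ?_, inf_le_left, ?_⟩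
  · unfold Fb
    rw [Subgroup.closure_le]
    rintro _ ⟨b, hb | hb, rfl⟩
    · exact hPcls.ge ⟨hs (bs_mem e hb), bs_mem_F e b⟩
    · rw [SetLike.mem_coe, hmem]
      intro z hz
      obtain ⟨r, hr, p, hp, rfl⟩ := hRc z hz
      have h4 : p ∈ P' := hP'ge hp
      have h3 : r⁻¹ * bs e b * r ∈ P' :=
        Fb_mono e (Set.subset_union_right.trans Set.subset_union_right) (hC _ ⟨r, hr, b, hb, rfl⟩)
      have h5 : (r * p)⁻¹ * bs e b * (r * p) = p⁻¹ * (r⁻¹ * bs e b * r) * p := by group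
      rw [h5]
      exact P'.mul_mem (P'.mul_mem (P'.inv_mem h4) h3) h4
  · intro z hz x hx
    rw [hmem] at hx ⊢
    intro w hw
    have h1 := hx (z⁻¹ * w) (Z.mul_mem (Z.inv_mem hz) hw)
    have h2 : (z⁻¹ * w)⁻¹ * x * (z⁻¹ * w) = w⁻¹ * (z * x * z⁻¹) * w := by group
    rwa [h2] at h1

end

section

variable {G : Type} [Group G] {F : Subgroup G}

/-- the product of a subgroup with a subgroup normalizing it -/
def PZ (P Z : Subgroup G) (h : ∀ z ∈ Z, ∀ x ∈ P, z * x * z⁻¹ ∈ P) : Subgroup G where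
  carrier := {x | ∃ p ∈ P, ∃ z ∈ Z, x = p * z}
  one_mem' := ⟨1, P.one_mem, 1, Z.one_mem, (mul_one 1).symm⟩
  mul_mem' := by
    rintro _ _ ⟨p, hp, z, hz, rfl⟩ ⟨p', hp', z', hz', rfl⟩
    exact ⟨p * (z * p' * z⁻¹), P.mul_mem hp (h z hz p' hp'), z * z', Z.mul_mem hz hz', by group⟩
  inv_mem' := by
    rintro _ ⟨p, hp, z, hz, rfl⟩
    refine ⟨z⁻¹ * p⁻¹ * z⁻¹⁻¹, h z⁻¹ (Z.inv_mem hz) p⁻¹ (P.inv_mem hp), z⁻¹, Z.inv_mem hz, by group⟩

/-- length functions on subgroups -/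
def LFG (F Z : Subgroup G) (d : G → G → ℕ) : Prop :=
  LF (F.subgroupOf Z) (fun a b : Z => d (a : G) (b : G))

open Classical in
theorem LFG.of (Z : Subgroup G) (d : Z → Z → ℕ) (hd : LF (F.subgroupOf Z) d) :
    ∃ d' : G → G → ℕ, LFG F Z d' ∧ ∀ a b : Z, d' a b = d a b := by
  have h : ∀ a b : Z, (fun x y : G => if h : x ∈ Z ∧ y ∈ Z then d ⟨x, h.1⟩ ⟨y, h.2⟩ else 0) a b =
      d a b := fun a b => dif_pos ⟨a.2, b.2⟩
  refine ⟨fun x y : G => if h : x ∈ Z ∧ y ∈ Z then d ⟨x, h.1⟩ ⟨y, h.2⟩ else 0, ?_, h⟩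
  unfold LFG
  have h2 : (fun a b : Z =>
      (fun x y : G => if h : x ∈ Z ∧ y ∈ Z then d ⟨x, h.1⟩ ⟨y, h.2⟩ else 0) (a : G) (b : G)) = d := by
    funext a b
    exact h a b
  rw [h2]
  exact hd

theorem PZ.facts {Z P : Subgroup G} (hcls : Cls F Z P)
    (h : ∀ z ∈ Z, ∀ x ∈ P, z * x * z⁻¹ ∈ P) :
    Z ≤ PZ P Z h ∧ P ≤ PZ P Z h ∧ PZ P Z h ⊓ F = P ∧
    F.subgroupOf (PZ P Z h) ⊔ Z.subgroupOf (PZ P Z h) = ⊤ ∧
    RFG (F.subgroupOf (PZ P Z h)) (rel (F.subgroupOf (PZ P Z h)) (Z.subgroupOf (PZ P Z h))) := by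
  have hZ : Z ≤ PZ P Z h := fun z hz => ⟨1, P.one_mem, z, hz, (one_mul z).symm⟩
  have hP : P ≤ PZ P Z h := fun p hp => ⟨p, hp, 1, Z.one_mem, (mul_one p).symm⟩
  have hPF : PZ P Z h ⊓ F = P := by
    apply le_antisymm
    · rintro x ⟨⟨p, hp, z, hz, rfl⟩, hx⟩
      have h1 : z ∈ F := by
        have := F.mul_mem (F.inv_mem (hcls.le hp)) hx
        rwa [inv_mul_cancel_left] at this
      exact P.mul_mem hp (hcls.ge ⟨hz, h1⟩)
    · exact le_inf hP hcls.le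
  refine ⟨hZ, hP, hPF, ?_, ?_⟩
  · rw [eq_top_iff]
    rintro ⟨_, p, hp, z, hz, rfl⟩ _
    have h1 : (⟨p * z, p, hp, z, hz, rfl⟩ : PZ P Z h) = ⟨p, hP hp⟩ * ⟨z, hZ hz⟩ := rfl
    rw [h1]
    exact Subgroup.mul_mem_sup (hcls.le hp) hz
  · let j : P →* F.subgroupOf (PZ P Z h) :=
      MonoidHom.mk' (fun p => ⟨⟨p, hP p.2⟩, hcls.le p.2⟩) (fun x y => rfl)
    refine RFG.map j ?_ ?_ hcls.rf
    · rintro ⟨⟨x, hx⟩, hx'⟩
      have h1 : x ∈ P := by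
        rw [← hPF]
        exact ⟨hx, hx'⟩
      exact ⟨⟨x, h1⟩, rfl⟩
    · intro p hp
      exact Subgroup.subset_closure hp

/-- extension of length functions -/
theorem extend [hN : F.Normal] [F.FiniteIndex] [IsFreeGroup F] {Z P : Subgroup G} (hcls : Cls F Z P)
    (h : ∀ z ∈ Z, ∀ x ∈ P, z * x * z⁻¹ ∈ P) (hff : FFac F (Z.subgroupOf F))
    (hz0 : ∃ z ∈ Z, z ∈ F ∧ z ≠ 1) (d : G → G → ℕ) (hd : LFG F Z d) :
    ∃ d' : G → G → ℕ, LFG F (PZ P Z h) d' ∧ ∀ a ∈ Z, ∀ b ∈ Z, d' a b = d a b := by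
  obtain ⟨h1, h2, h3, h4, h5⟩ := PZ.facts hcls h
  have hfr := free_sub F (PZ P Z h)
  let jZ : Z.subgroupOf (PZ P Z h) →* Z :=
    MonoidHom.mk' (fun x => ⟨((x : PZ P Z h) : G), x.2⟩) (fun x y => rfl)
  have hjZ : Function.Injective jZ := by
    intro x y h
    have h1 : ((x : PZ P Z _) : G) = ((y : PZ P Z _) : G) := congrArg (fun z : Z => (z : G)) h
    exact Subtype.ext (Subtype.ext h1)
  let jF : F.subgroupOf (PZ P Z h) →* F :=
    MonoidHom.mk' (fun x => ⟨((x : PZ P Z h) : G), x.2⟩) (fun x y => rfl)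
  have hjF : Function.Injective jF := by
    intro x y h
    have h1 : ((x : PZ P Z _) : G) = ((y : PZ P Z _) : G) := congrArg (fun z : F => (z : G)) h
    exact Subtype.ext (Subtype.ext h1)
  have hff' : FFac (F.subgroupOf (PZ P Z h))
      ((Z.subgroupOf (PZ P Z h)).subgroupOf (F.subgroupOf (PZ P Z h))) := hff.comap jF hjF
  obtain ⟨z0, hz0Z, hz0F, hz01⟩ := hz0
  obtain ⟨d1, h6, h7⟩ := RT _ (PZ P Z h) (F.subgroupOf (PZ P Z h)) (Z.subgroupOf (PZ P Z h)) h4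
    ⟨⟨z0, h1 hz0Z⟩, hz0Z, hz0F, fun h => hz01 (congrArg Subtype.val h)⟩ hff' h5 (Nat.lt_succ_self _)
    (fun x y => d (jZ x : G) (jZ y : G)) (hd.comap jZ hjZ (fun f hf => hf))
  obtain ⟨d', h8, h9⟩ := LFG.of (PZ P Z h) d1 h6
  refine ⟨d', h8, fun a ha b hb => ?_⟩
  have h10 := h9 ⟨a, h1 ha⟩ ⟨b, h1 hb⟩
  have h11 := h7 ⟨⟨a, h1 ha⟩, ha⟩ ⟨⟨b, h1 hb⟩, hb⟩
  exact h10.trans h11

end

end Pool.Agent.TH97.KP
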