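import Pool.Agent.TH97.KP.Tr

/-!
# The tree spanned by a tree-like integral metric
-/

set_option autoImplicit false

namespace Pool.Agent.TH97.KP

open Pool.Agent.H97R3.VR

/-- tree-like integral pseudometrics -/
structure TM {P : Type} (d : P → P → ℕ) : Prop where
  self : ∀ x, d x x = 0
  symm : ∀ x y, d x y = d y x
  tri : ∀ x y z, d x z ≤ d x y + d y z
  four : ∀ x y z w, d x y + d z w ≤ d x z + d y w ∨ d x y + d z w ≤ d x w + d y z
  par : ∀ x y z, Even (d x y + d y z + d x z)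

/-- integral points of the tight span -/
def TS {P : Type} (d : P → P → ℕ) : Type :=
  {f : P → ℕ // (∀ x y, d x y ≤ f x + f y) ∧ (∀ x, ∃ y, f x + f y = d x y) ∧
    ∀ x y, Even (f x + f y + d x y)}

variable {P : Type} {d : P → P → ℕ}

theorem TS.ext' {φ ψ : TS d} (h : ∀ x, φ.1 x = ψ.1 x) : φ = ψ := Subtype.ext (funext h)

/-- the graph on the integral points of the tight span -/
def TSg (d : P → P → ℕ) : SimpleGraph (TS d) where
  Adj φ ψ := φ ≠ ψ ∧ ∀ x, φ.1 x + 1 = ψ.1 x ∨ ψ.1 x + 1 = φ.1 x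
  symm := ⟨fun _ _ h => ⟨h.1.symm, fun x => (h.2 x).symm⟩⟩
  loopless := ⟨fun _ h => h.1 rfl⟩

theorem TS.ge (φ : TS d) (x y : P) : d x y ≤ φ.1 x + φ.1 y := φ.2.1 x y
theorem TS.att (φ : TS d) (x : P) : ∃ y, φ.1 x + φ.1 y = d x y := φ.2.2.1 x
theorem TS.par (φ : TS d) (x y : P) : Even (φ.1 x + φ.1 y + d x y) := φ.2.2.2 x y

theorem TS.lip (h : TM d) (φ : TS d) (x y : P) : φ.1 x ≤ d x y + φ.1 y := by
  obtain ⟨w, hw⟩ := φ.att x
  have h1 := h.tri x y w
  have h2 := φ.ge y w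
  omega

theorem TS.far (h : TM d) (φ : TS d) {x y z : P} (hy : d x y < φ.1 x + φ.1 y)
    (hz : d x z < φ.1 x + φ.1 z) : d y z + 2 ≤ φ.1 y + φ.1 z := by
  obtain ⟨w, hw⟩ := φ.att x
  obtain ⟨a, ha⟩ := φ.par x y
  obtain ⟨b, hb⟩ := φ.par x z
  have h1 := φ.ge w z
  have h2 := φ.ge w y
  rcases h.four x w y z with h3 | h3 <;> omega

theorem TS.step (h : TM d) (φ : TS d) (x : P) (hx : 0 < φ.1 x) :
    ∃ ψ : TS d, (TSg d).Adj φ ψ ∧ ψ.1 x + 1 = φ.1 x := by
  classical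
  let f : P → ℕ := fun y => if d x y < φ.1 x + φ.1 y then φ.1 y - 1 else φ.1 y + 1
  have f1 : ∀ y, d x y < φ.1 x + φ.1 y → f y + 1 = φ.1 y := by
    intro y hy
    have h1 := TS.lip h φ x y
    have h2 : f y = φ.1 y - 1 := if_pos hy
    omega
  have f2 : ∀ y, ¬ d x y < φ.1 x + φ.1 y → f y = φ.1 y + 1 := fun y hy => if_neg hy
  have hxx : d x x < φ.1 x + φ.1 x := by rw [h.self]; omega
  have hpar : ∀ y, ∃ k, f y + φ.1 y = 2 * k + 1 := by
    intro y
    by_cases hy : d x y < φ.1 x + φ.1 y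
    · have := f1 y hy
      exact ⟨f y, by omega⟩
    · have := f2 y hy
      exact ⟨φ.1 y, by omega⟩
  refine ⟨⟨f, ?_, ?_, ?_⟩, ⟨?_, ?_⟩, f1 x hxx⟩
  · intro y z
    have h0 := φ.ge y z
    by_cases hy : d x y < φ.1 x + φ.1 y
    · have e1 := f1 y hy
      by_cases hz : d x z < φ.1 x + φ.1 z
      · have e2 := f1 z hz
        have := TS.far h φ hy hz
        omega
      · have e2 := f2 z hz
        omega
    · have e1 := f2 y hy
      by_cases hz : d x z < φ.1 x + φ.1 z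
      · have e2 := f1 z hz
        omega
      · have e2 := f2 z hz
        omega
  · intro y
    by_cases hy : d x y < φ.1 x + φ.1 y
    · obtain ⟨z, hz⟩ := φ.att y
      have e1 := f1 y hy
      refine ⟨z, ?_⟩
      have hz' : ¬ d x z < φ.1 x + φ.1 z := by
        intro hz'
        have := TS.far h φ hy hz'
        omega
      have e2 := f2 z hz'
      omega
    · refine ⟨x, ?_⟩
      have e1 := f1 x hxx
      have e2 := f2 y hy
      have e3 := φ.ge x y
      rw [h.symm y x]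
      omega
  · intro y z
    obtain ⟨a, ha⟩ := hpar y
    obtain ⟨b, hb⟩ := hpar z
    obtain ⟨c, hc⟩ := φ.par y z
    exact ⟨a + b + 1 + d y z - c, by omega⟩
  · intro he
    have e1 := f1 x hxx
    have e2 : φ.1 x = f x := congrArg (fun χ : TS d => χ.1 x) he
    omega
  · intro y
    show φ.1 y + 1 = f y ∨ f y + 1 = φ.1 y
    by_cases hy : d x y < φ.1 x + φ.1 y
    · exact Or.inr (f1 y hy)
    · exact Or.inl (f2 y hy).symm

theorem TS.eq_of (h : TM d) {φ χ : TS d} {x y : P} (h1 : χ.1 x = φ.1 x) (h2 : χ.1 y = φ.1 y)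
    (h3 : φ.1 x + φ.1 y = d x y) : χ = φ := by
  have key : ∀ (φ χ : TS d), χ.1 x = φ.1 x → χ.1 y = φ.1 y → φ.1 x + φ.1 y = d x y →
      ∀ z, χ.1 z ≤ φ.1 z := by
    intro φ χ h1 h2 h3 z
    obtain ⟨w, hw⟩ := χ.att z
    have e1 := χ.ge w x
    have e2 := χ.ge w y
    have e3 := φ.ge z x
    have e4 := φ.ge z y
    rcases h.four z w x y with h4 | h4
    · omega
    · omega
  exact TS.ext' fun z => le_antisymm (key φ χ h1 h2 h3 z) (key χ φ h1.symm h2.symm (by omega) z)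

theorem TS.edge (h : TM d) {χ ψ : TS d} (hadj : (TSg d).Adj χ ψ) {z w : P}
    (hz : ψ.1 z + 1 = χ.1 z) (hw : χ.1 w + 1 = ψ.1 w) : χ.1 z + χ.1 w = d z w := by
  by_contra hne
  have h0 := χ.ge z w
  obtain ⟨a, ha⟩ := χ.par z w
  obtain ⟨u, hu⟩ := χ.att z
  obtain ⟨t, ht⟩ := ψ.att w
  have e1 := ψ.ge z u
  have e2 := χ.ge w t
  have hu' : χ.1 u + 1 = ψ.1 u := by
    rcases hadj.2 u with h1 | h1
    · exact h1
    · omega
  have ht' : ψ.1 t + 1 = χ.1 t := by
    rcases hadj.2 t with h1 | h1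
    · omega
    · exact h1
  have e3 := ψ.ge z t
  have e4 := χ.ge u t
  have e5 := χ.ge u w
  rcases h.four z u w t with h1 | h1 <;> omega

theorem TS.ends [Nonempty P] {χ ψ : TS d} (hχ : (TSg d).Adj χ ψ) :
    ∃ p q : P, ψ.1 p + 1 = χ.1 p ∧ χ.1 q + 1 = ψ.1 q := by
  obtain ⟨x⟩ := (inferInstance : Nonempty P)
  rcases hχ.2 x with h1 | h1
  · obtain ⟨p, hp⟩ := ψ.att x
    have e1 := χ.ge x p
    refine ⟨p, x, ?_, h1⟩
    rcases hχ.2 p with h2 | h2
    · omega
    · exact h2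
  · obtain ⟨q, hq⟩ := χ.att x
    have e1 := ψ.ge x q
    refine ⟨x, q, h1, ?_⟩
    rcases hχ.2 q with h2 | h2
    · exact h2
    · omega

/-- the points of `P` -/
def TS.pt (h : TM d) (x : P) : TS d :=
  ⟨fun y => d x y, fun y z => by
    have := h.tri y x z
    rw [h.symm y x] at this
    exact this, fun y => ⟨x, by
      show d x y + d x x = d y x
      rw [h.self, h.symm y x, add_zero]⟩, fun y z => by
    obtain ⟨k, hk⟩ := h.par x y z
    exact ⟨k, by show d x y + d x z + d y z = k + k; omega⟩⟩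

theorem TS.pt_of_zero (h : TM d) {φ : TS d} {x : P} (hx : φ.1 x = 0) : φ = TS.pt h x := by
  refine TS.ext' fun y => ?_
  have h1 := TS.lip h φ y x
  have h2 := φ.ge x y
  have h3 := h.symm x y
  show φ.1 y = d x y
  omega

theorem TS.reach (h : TM d) (p : P) (n : ℕ) : ∀ φ : TS d, φ.1 p = n →
    ∃ w : (TSg d).Walk φ (TS.pt h p), w.length = n := by
  induction n with
  | zero =>
    intro φ hφ
    rw [TS.pt_of_zero h hφ]
    exact ⟨SimpleGraph.Walk.nil, rfl⟩
  | succ n ih =>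
    intro φ hφ
    obtain ⟨ψ, h1, h2⟩ := TS.step h φ p (by omega)
    obtain ⟨w, hw⟩ := ih ψ (by omega)
    exact ⟨SimpleGraph.Walk.cons h1 w, by rw [SimpleGraph.Walk.length_cons, hw]⟩

theorem TS.conn [Nonempty P] (h : TM d) : (TSg d).Connected := by
  obtain ⟨p⟩ := (inferInstance : Nonempty P)
  have h1 : ∀ φ : TS d, (TSg d).Reachable φ (TS.pt h p) := fun φ => by
    obtain ⟨w, -⟩ := TS.reach h p _ φ rfl
    exact ⟨w⟩
  have : Nonempty (TS d) := ⟨TS.pt h p⟩
  exact SimpleGraph.Connected.mk fun φ ψ => (h1 φ).trans (h1 ψ).symm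

theorem TS.tree [Nonempty P] (h : TM d) : IsTr (TSg d) := by
  refine ⟨TS.conn h, fun φ ψ hadj => ?_⟩
  obtain ⟨p, q, hp, hq⟩ := TS.ends hadj
  refine ⟨{χ | φ.1 p + χ.1 q ≤ χ.1 p + φ.1 q}, ?_, ?_, ?_⟩
  · exact le_refl (φ.1 p + φ.1 q)
  · show ¬ φ.1 p + ψ.1 q ≤ ψ.1 p + φ.1 q
    omega
  · intro u hu w hw huw
    have hu' : φ.1 p + u.1 q ≤ u.1 p + φ.1 q := hu
    have hw' : ¬ φ.1 p + w.1 q ≤ w.1 p + φ.1 q := hw
    obtain ⟨a, ha⟩ := φ.par p q
    obtain ⟨b, hb⟩ := u.par p q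
    have e1 := huw.2 p
    have e2 := huw.2 q
    have e3 : w.1 p + 1 = u.1 p ∧ u.1 q + 1 = w.1 q := by omega
    have e4 := TS.edge h huw e3.1 e3.2
    have e5 := TS.edge h hadj hp hq
    exact ⟨TS.eq_of h (x := p) (y := q) (by omega) (by omega) e5,
      TS.eq_of h (x := p) (y := q) (by omega) (by omega) (by omega)⟩

theorem TS.dist_pt [Nonempty P] (h : TM d) (φ : TS d) (p : P) :
    (TSg d).dist φ (TS.pt h p) = φ.1 p := by
  refine le_antisymm ?_ ?_
  · obtain ⟨w, hw⟩ := TS.reach h p _ φ rfl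
    have := SimpleGraph.dist_le w
    omega
  · have key : ∀ (n : ℕ) (ψ : TS d), (TSg d).dist φ ψ = n → φ.1 p ≤ ψ.1 p + n := by
      intro n
      induction n with
      | zero =>
        intro ψ hψ
        rw [(TS.conn h).dist_eq_zero_iff] at hψ
        rw [hψ]
        omega
      | succ n ih =>
        intro ψ hψ
        obtain ⟨χ, h1, h2⟩ := exists_pred (TS.conn h) hψ
        have h3 := ih χ h2
        have h4 := h1.2 p
        omega
    have := key _ (TS.pt h p) rfl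
    have h0 : (TS.pt h p).1 p = 0 := h.self p
    omega

theorem TS.dist_pts [Nonempty P] (h : TM d) (x y : P) :
    (TSg d).dist (TS.pt h x) (TS.pt h y) = d x y := TS.dist_pt h _ y

/-! ### actions -/

section act

variable {A : Type} [Group A] [MulAction A P]

/-- the induced action -/
@[reducible] def TS.act (hinv : ∀ (a : A) (x y : P), d (a • x) (a • y) = d x y) :
    MulAction A (TS d) where
  smul a φ := ⟨fun y => φ.1 (a⁻¹ • y), fun y z => by
    have := φ.ge (a⁻¹ • y) (a⁻¹ • z)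
    rwa [hinv] at this, fun y => by
    obtain ⟨z, hz⟩ := φ.att (a⁻¹ • y)
    refine ⟨a • z, ?_⟩
    show φ.1 (a⁻¹ • y) + φ.1 (a⁻¹ • a • z) = d y (a • z)
    rw [inv_smul_smul, hz, ← hinv a, smul_inv_smul], fun y z => by
    have := φ.par (a⁻¹ • y) (a⁻¹ • z)
    rwa [hinv] at this⟩
  one_smul φ := TS.ext' fun y => by
    show φ.1 ((1 : A)⁻¹ • y) = φ.1 y
    rw [inv_one, one_smul]
  mul_smul a b φ := TS.ext' fun y => by
    show φ.1 ((a * b)⁻¹ • y) = φ.1 (b⁻¹ • a⁻¹ • y)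
    rw [mul_inv_rev, mul_smul]

end act

end Pool.Agent.TH97.KP
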