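import Pool.Agent.H97R3.VR.Main

/-!
# Trees
-/

set_option autoImplicit false

namespace Pool.Agent.TH97.KP

open Pool.Agent.H97R3.VR

/-- trees: connected graphs in which each edge is the only edge crossing some cut -/
structure IsTr {V : Type} (X : SimpleGraph V) : Prop where
  conn : X.Connected
  cut : ∀ x y, X.Adj x y → ∃ U : Set V, x ∈ U ∧ y ∉ U ∧
    ∀ u ∈ U, ∀ w, w ∉ U → X.Adj u w → u = x ∧ w = y

section basic

variable {V : Type} {X : SimpleGraph V}

theorem cut_dist (hc : X.Connected) {x y : V} (hxy : X.Adj x y) {U : Set V} (hy : y ∉ U)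
    (hU : ∀ u ∈ U, ∀ w, w ∉ U → X.Adj u w → u = x ∧ w = y) (n : ℕ) :
    ∀ u ∈ U, X.dist y u = n → X.dist x u + 1 ≤ n := by
  induction n with
  | zero =>
    intro u hu h
    rw [hc.dist_eq_zero_iff] at h
    exact absurd (h ▸ hu) hy
  | succ n ih =>
    intro u hu h
    obtain ⟨w, h1, h2⟩ := exists_pred hc h
    by_cases hw : w ∈ U
    · have h3 := ih w hw h2
      have h4 : X.dist x u ≤ X.dist x w + X.dist w u := hc.dist_triangle
      rw [adj_one h1] at h4
      omega
    · obtain ⟨rfl, rfl⟩ := hU u hu w hw h1.symm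
      rw [SimpleGraph.dist_self]
      omega

/-- the side of `x` -/
def Sd (X : SimpleGraph V) (x y : V) : Set V := {u | X.dist x u + 1 = X.dist y u}

theorem sd_not {x y u : V} (h : u ∈ Sd X x y) : u ∉ Sd X y x := by
  intro h'
  have h1 : X.dist x u + 1 = X.dist y u := h
  have h2 : X.dist y u + 1 = X.dist x u := h'
  omega

theorem IsTr.cutSd (h : IsTr X) {x y : V} (hxy : X.Adj x y) {U : Set V} (hx : x ∈ U) (hy : y ∉ U)
    (hU : ∀ u ∈ U, ∀ w, w ∉ U → X.Adj u w → u = x ∧ w = y) :
    ∀ u, (u ∈ U → u ∈ Sd X x y) ∧ (u ∉ U → u ∈ Sd X y x) := by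
  intro u
  constructor
  · intro hu
    have h1 := cut_dist h.conn hxy hy hU _ u hu rfl
    have h2 : X.dist y u ≤ X.dist y x + X.dist x u := h.conn.dist_triangle
    rw [adj_one hxy.symm] at h2
    show X.dist x u + 1 = X.dist y u
    omega
  · intro hu
    have h1 := cut_dist h.conn hxy.symm (U := Uᶜ) (fun h => h hx)
      (fun a ha b hb hab => by
        obtain ⟨rfl, rfl⟩ := hU b (by simpa using hb) a ha hab.symm
        exact ⟨rfl, rfl⟩) _ u hu rfl
    have h2 : X.dist x u ≤ X.dist x y + X.dist y u := h.conn.dist_triangle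
    rw [adj_one hxy] at h2
    show X.dist y u + 1 = X.dist x u
    omega

theorem IsTr.side (h : IsTr X) {x y : V} (hxy : X.Adj x y) (u : V) :
    u ∈ Sd X x y ∨ u ∈ Sd X y x := by
  obtain ⟨U, hx, hy, hU⟩ := h.cut x y hxy
  by_cases hu : u ∈ U
  · exact Or.inl ((h.cutSd hxy hx hy hU u).1 hu)
  · exact Or.inr ((h.cutSd hxy hx hy hU u).2 hu)

theorem IsTr.crossing (h : IsTr X) {x y : V} (hxy : X.Adj x y) {u w : V} (hu : u ∈ Sd X x y)
    (hw : w ∈ Sd X y x) (huw : X.Adj u w) : u = x ∧ w = y := by
  obtain ⟨U, hx, hy, hU⟩ := h.cut x y hxy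
  refine hU u ?_ w ?_ huw
  · by_contra hc
    exact sd_not hu ((h.cutSd hxy hx hy hU u).2 hc)
  · intro hc
    exact sd_not hw ((h.cutSd hxy hx hy hU w).1 hc)

/-- distances across an edge -/
theorem IsTr.across (h : IsTr X) {x y : V} (hxy : X.Adj x y) {u w : V} (hu : u ∈ Sd X x y)
    (hw : w ∈ Sd X y x) : X.dist u w = X.dist u x + 1 + X.dist y w := by
  have key : ∀ (n : ℕ) (w : V), X.dist u w = n → w ∈ Sd X y x →
      X.dist u x + 1 + X.dist y w ≤ n := by
    intro n
    induction n with
    | zero =>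
      intro w h1 h2
      rw [h.conn.dist_eq_zero_iff] at h1
      exact absurd (h1 ▸ h2) (sd_not hu)
    | succ n ih =>
      intro w h1 h2
      obtain ⟨w', h3, h4⟩ := exists_pred h.conn h1
      rcases h.side hxy w' with h5 | h5
      · obtain ⟨rfl, rfl⟩ := h.crossing hxy h5 h2 h3
        rw [SimpleGraph.dist_self]
        omega
      · have h6 := ih w' h4 h5
        have h7 : X.dist y w ≤ X.dist y w' + X.dist w' w := h.conn.dist_triangle
        rw [adj_one h3] at h7
        omega
  have h1 := key _ w rfl hw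
  have h2 : X.dist u w ≤ X.dist u x + X.dist x w := h.conn.dist_triangle
  have h3 : X.dist x w ≤ X.dist x y + X.dist y w := h.conn.dist_triangle
  rw [adj_one hxy] at h3
  omega

theorem exists_next (hc : X.Connected) {m p : V} (hne : m ≠ p) :
    ∃ n, X.Adj n m ∧ X.dist n p + 1 = X.dist m p := by
  obtain ⟨k, hk⟩ : ∃ k, X.dist p m = k + 1 := by
    refine ⟨X.dist p m - 1, ?_⟩
    have : X.dist p m ≠ 0 := fun h => hne (hc.dist_eq_zero_iff.1 h).symm
    omega
  obtain ⟨n, h1, h2⟩ := exists_pred hc hk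
  refine ⟨n, h1, ?_⟩
  rw [SimpleGraph.dist_comm, h2, SimpleGraph.dist_comm (u := m), hk]

theorem IsTr.tr (h : IsTr X) {x y m : V} (hm : H97R3.VR.Btw X x y m) (p : V) :
    H97R3.VR.Btw X x p m ∨ H97R3.VR.Btw X y p m := by
  unfold H97R3.VR.Btw at hm ⊢
  by_cases hmp : m = p
  · subst hmp
    left
    rw [SimpleGraph.dist_self, add_zero]
  · obtain ⟨n, h1, h2⟩ := exists_next h.conn hmp
    have hp : p ∈ Sd X n m := h2
    have key : ∀ z, z ∈ Sd X m n → X.dist z m + X.dist m p = X.dist z p := by
      intro z hz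
      have := h.across h1.symm hz hp
      omega
    rcases h.side h1.symm x with hx | hx
    · exact Or.inl (key x hx)
    · rcases h.side h1.symm y with hy | hy
      · exact Or.inr (key y hy)
      · exfalso
        have e1 : X.dist n x + 1 = X.dist m x := hx
        have e2 : X.dist n y + 1 = X.dist m y := hy
        have e3 : X.dist x y ≤ X.dist x n + X.dist n y := h.conn.dist_triangle
        have e4 : X.dist x n = X.dist n x := SimpleGraph.dist_comm
        have e5 : X.dist x m = X.dist m x := SimpleGraph.dist_comm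
        omega

theorem btw_symm {u v m : V} (h : H97R3.VR.Btw X u v m) : H97R3.VR.Btw X v u m := by
  unfold H97R3.VR.Btw at h ⊢
  have e1 : X.dist v m = X.dist m v := SimpleGraph.dist_comm
  have e2 : X.dist m u = X.dist u m := SimpleGraph.dist_comm
  have e3 : X.dist v u = X.dist u v := SimpleGraph.dist_comm
  omega

theorem IsTr.median (h : IsTr X) : IsMedian X := by
  refine ⟨h.conn, fun u v w => ?_⟩
  -- a point between `u` and `v` nearest to `w`
  have hex : ∃ n, ∃ m, H97R3.VR.Btw X u v m ∧ X.dist m w = n := ⟨_, u, by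
    unfold H97R3.VR.Btw
    rw [SimpleGraph.dist_self, zero_add], rfl⟩
  classical
  obtain ⟨m, hm, hmn⟩ := Nat.find_spec hex
  have hmin : ∀ m', H97R3.VR.Btw X u v m' → X.dist m w ≤ X.dist m' w := by
    intro m' hm'
    rw [hmn]
    exact Nat.find_min' hex ⟨m', hm', rfl⟩
  have key : ∀ a b, H97R3.VR.Btw X a b m → (∀ m', H97R3.VR.Btw X a b m' → X.dist m w ≤ X.dist m' w) →
      H97R3.VR.Btw X a w m → H97R3.VR.Btw X b w m := by
    intro a b hab hmin haw
    by_cases hmb : m = b
    · subst hmb
      unfold H97R3.VR.Btw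
      rw [SimpleGraph.dist_self, zero_add]
    · obtain ⟨n, h1, h2⟩ := exists_next h.conn hmb
      have hb : b ∈ Sd X n m := h2
      rcases h.side h1.symm w with hw | hw
      · have := h.across h1.symm hw hb
        unfold H97R3.VR.Btw
        have e1 : X.dist b w = X.dist w b := SimpleGraph.dist_comm
        have e2 : X.dist m w = X.dist w m := SimpleGraph.dist_comm
        have e3 : X.dist b m = X.dist m b := SimpleGraph.dist_comm
        omega
      · exfalso
        have hn : H97R3.VR.Btw X a b n := by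
          unfold H97R3.VR.Btw at hab ⊢
          have e1 : X.dist a b ≤ X.dist a n + X.dist n b := h.conn.dist_triangle
          have e2 : X.dist a n ≤ X.dist a m + X.dist m n := h.conn.dist_triangle
          rw [adj_one h1.symm] at e2
          omega
        have h3 := hmin n hn
        have h4 : X.dist n w + 1 = X.dist m w := hw
        omega
  have huvw : H97R3.VR.Btw X u w m ∧ H97R3.VR.Btw X v w m := by
    have hm' : H97R3.VR.Btw X v u m := btw_symm hm
    rcases h.tr hm w with h1 | h1
    · exact ⟨h1, key u v hm hmin h1⟩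
    · exact ⟨key v u hm' (fun m' hm'' => hmin m' (btw_symm hm'')) h1, h1⟩
  refine ⟨m, ⟨hm, huvw.2, huvw.1⟩, ?_⟩
  rintro m' ⟨h1, h2, h3⟩
  by_contra hne
  obtain ⟨n, h4, h5⟩ := exists_next h.conn hne
  -- the edge `n`, `m'` separates `m` from `m'`
  have hm2 : m ∈ Sd X n m' := h5
  have conv : ∀ a b c, H97R3.VR.Btw X a b c → ∀ m₁, m₁ ∈ Sd X n m' → c = m' → a ∈ Sd X n m' →
      b ∈ Sd X n m' → False := by
    intro a b c hc _ _ hcm ha hb
    subst hcm
    have e1 : X.dist n a + 1 = X.dist c a := ha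
    have e2 : X.dist n b + 1 = X.dist c b := hb
    have e3 : X.dist a b ≤ X.dist a n + X.dist n b := h.conn.dist_triangle
    have e4 : X.dist a n = X.dist n a := SimpleGraph.dist_comm
    have e5 : X.dist a c = X.dist c a := SimpleGraph.dist_comm
    unfold H97R3.VR.Btw at hc
    omega
  have conv' : ∀ a b, H97R3.VR.Btw X a b m → a ∈ Sd X m' n → b ∈ Sd X m' n → False := by
    intro a b hc ha hb
    have e1 := h.across h4.symm ha hm2
    have e2 := h.across h4.symm hb hm2
    have e3 : X.dist a b ≤ X.dist a m' + X.dist m' b := h.conn.dist_triangle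
    have e4 : X.dist b m' = X.dist m' b := SimpleGraph.dist_comm
    have e5 : X.dist b m = X.dist m b := SimpleGraph.dist_comm
    unfold H97R3.VR.Btw at hc
    omega
  rcases h.side h4.symm u with hu | hu <;> rcases h.side h4.symm v with hv | hv
  · exact conv' u v hm hu hv
  · rcases h.side h4.symm w with hw | hw
    · exact conv' u w huvw.1 hu hw
    · exact conv v w m' h2 m hm2 rfl hv hw
  · rcases h.side h4.symm w with hw | hw
    · exact conv' v w huvw.2 hv hw
    · exact conv u w m' h3 m hm2 rfl hu hw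
  · exact conv u v m' h1 m hm2 rfl hu hv

/-- four point condition -/
theorem IsTr.four (h : IsTr X) (x y z w : V) :
    X.dist x y + X.dist z w ≤ X.dist x z + X.dist y w ∨
    X.dist x y + X.dist z w ≤ X.dist x w + X.dist y z := by
  obtain ⟨m, ⟨h1, h2, h3⟩, -⟩ := h.median.med x y z
  have e1 : X.dist z w ≤ X.dist z m + X.dist m w := h.conn.dist_triangle
  have e2 : X.dist z m = X.dist m z := SimpleGraph.dist_comm
  have e3 : X.dist y m = X.dist m y := SimpleGraph.dist_comm
  rcases h.tr h1 w with h4 | h4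
  · unfold H97R3.VR.Btw at h1 h2 h3 h4
    right; omega
  · unfold H97R3.VR.Btw at h1 h2 h3 h4
    left; omega

theorem IsTr.parity (h : IsTr X) (x y z : V) :
    Even (X.dist x y + X.dist y z + X.dist x z) := by
  obtain ⟨m, ⟨h1, h2, h3⟩, -⟩ := h.median.med x y z
  refine ⟨X.dist x m + X.dist y m + X.dist z m, ?_⟩
  have e2 : X.dist z m = X.dist m z := SimpleGraph.dist_comm
  have e3 : X.dist y m = X.dist m y := SimpleGraph.dist_comm
  unfold H97R3.VR.Btw at h1 h2 h3
  omega

/-- uniqueness of the first step -/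
theorem IsTr.next_unique (h : IsTr X) {v w w' u : V} (h1 : X.Adj w v) (h2 : X.Adj w' v)
    (h3 : X.dist w u + 1 = X.dist v u) (h4 : X.dist w' u + 1 = X.dist v u) : w = w' := by
  by_contra hne
  have hu : u ∈ Sd X w v := h3
  rcases h.side h1 w' with h5 | h5
  · have h6 : X.dist w w' + 1 = X.dist v w' := h5
    rw [adj_one h2.symm] at h6
    exact hne (h.conn.dist_eq_zero_iff.1 (by omega))
  · have h6 := h.across h1.symm h5 hu
    rw [adj_one h2] at h6
    omega

end basic

section act

variable {A V : Type} [Group A] [MulAction A V]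

/-- actions on trees without inversions -/
structure TrA (A : Type) {V : Type} [Group A] [MulAction A V] (X : SimpleGraph V) : Prop where
  tr : IsTr X
  act : ∀ (a : A) (x y : V), X.Adj x y → X.Adj (a • x) (a • y)
  ninv : ∀ (a : A) (x y : V), X.Adj x y → a • x = y → a • y ≠ x

variable {X : SimpleGraph V}

theorem TrA.dsm (h : TrA A X) (a : A) (x y : V) : X.dist (a • x) (a • y) = X.dist x y := by
  have key : ∀ (a : A) (n : ℕ) (x y : V), X.dist x y = n → X.dist (a • x) (a • y) ≤ n := by
    intro a n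
    induction n with
    | zero =>
      intro x y e
      rw [h.tr.conn.dist_eq_zero_iff] at e
      rw [e, SimpleGraph.dist_self]
    | succ n ih =>
      intro x y e
      obtain ⟨z, h1, h2⟩ := exists_pred h.tr.conn e
      have h3 := ih x z h2
      have h4 : X.dist (a • x) (a • y) ≤ X.dist (a • x) (a • z) + X.dist (a • z) (a • y) :=
        h.tr.conn.dist_triangle
      rw [adj_one (h.act a _ _ h1)] at h4
      omega
  refine le_antisymm (key a _ x y rfl) ?_
  have := key a⁻¹ _ (a • x) (a • y) rfl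
  rwa [inv_smul_smul, inv_smul_smul] at this

/-- a subgroup with a bounded orbit fixes a vertex -/
theorem TrA.fix (h : TrA A X) (C : Subgroup A) (x : V) (R : ℕ)
    (hR : ∀ c ∈ C, X.dist x (c • x) ≤ R) : ∃ v : V, ∀ c ∈ C, c • v = v := by
  classical
  have hex : ∃ r, ∃ p : V, ∀ c ∈ C, X.dist p (c • x) ≤ r := ⟨R, x, hR⟩
  obtain ⟨p, hp⟩ := Nat.find_spec hex
  set r := Nat.find hex with hr
  have hmin : ∀ q : V, ∀ r', (∀ c ∈ C, X.dist q (c • x) ≤ r') → r ≤ r' :=
    fun q r' hq => Nat.find_min' hex ⟨q, hq⟩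
  have hcp : ∀ c ∈ C, ∀ c' ∈ C, X.dist (c • p) (c' • x) ≤ r := by
    intro c hc c' hc'
    have := hp (c⁻¹ * c') (C.mul_mem (C.inv_mem hc) hc')
    rwa [← h.dsm c, ← mul_smul, mul_inv_cancel_left] at this
  have hle : ∀ c ∈ C, X.dist p (c • p) ≤ 1 := by
    intro c hc
    by_contra hgt
    push Not at hgt
    have hne : p ≠ c • p := by
      intro e
      rw [← e, SimpleGraph.dist_self] at hgt
      omega
    obtain ⟨m, h1, h2⟩ := exists_next h.tr.conn hne
    have hm : H97R3.VR.Btw X p (c • p) m := by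
      unfold H97R3.VR.Btw
      rw [adj_one h1.symm]
      omega
    have hpm : X.dist p m = 1 := adj_one h1.symm
    have hall : ∀ c' ∈ C, X.dist m (c' • x) + 1 ≤ r := by
      intro c' hc'
      rcases h.tr.tr hm (c' • x) with h3 | h3
      · unfold H97R3.VR.Btw at h3
        have := hp c' hc'
        omega
      · unfold H97R3.VR.Btw at h3
        have := hcp c hc c' hc'
        have e : X.dist (c • p) m = X.dist m (c • p) := SimpleGraph.dist_comm
        omega
    have h0 := hall 1 C.one_mem
    have := hmin m (r - 1) (fun c' hc' => by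
      have := hall c' hc'
      omega)
    omega
  refine ⟨p, fun c hc => ?_⟩
  by_contra hne
  have h1 := hle c hc
  have h2 : X.dist p (c • p) = 1 := by
    have : X.dist p (c • p) ≠ 0 := fun e => hne (h.tr.conn.dist_eq_zero_iff.1 e).symm
    omega
  have h3 : X.dist (c • p) (c • c • p) = 1 := by rw [h.dsm, h2]
  have h4 : X.dist p (c • c • p) ≤ 1 := by
    rw [← mul_smul]
    exact hle _ (C.mul_mem hc hc)
  obtain ⟨k, hk⟩ := h.tr.parity p (c • p) (c • c • p)
  have h5 : X.dist p (c • c • p) = 0 := by omega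
  rw [h.tr.conn.dist_eq_zero_iff] at h5
  exact h.ninv c p (c • p) (SimpleGraph.dist_eq_one_iff_adj.1 h2) rfl h5.symm

end act

end Pool.Agent.TH97.KP
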