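import Pool.Agent.TH97.KP.Conv

/-!
# Nested families of walls
-/

set_option autoImplicit false

namespace Pool.Agent.TH97.KP

open Pool.Agent.H97R3.VR

section wall

variable {P I : Type} (U : I → Set P)

/-- separating walls -/
def sp (x y : P) : Set I := {i | ¬ (x ∈ U i ↔ y ∈ U i)}

/-- the wall metric -/
noncomputable def wd (x y : P) : ℕ := 2 * (sp U x y).ncard

structure Wsp (U : I → Set P) : Prop where
  fin : ∀ x y, (sp U x y).Finite
  nst : ∀ i j, ∀ x y z w, x ∈ U i → x ∈ U j → y ∈ U i → y ∉ U j → z ∉ U i → z ∈ U j →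
    w ∉ U i → w ∉ U j → False

variable {U}

theorem sum_le {A B C D : Set I} (hA : A.Finite) (hB : B.Finite) (hC : C.Finite) (hD : D.Finite)
    (h1 : A ∪ B ⊆ C ∪ D) (h2 : A ∩ B ⊆ C ∩ D) : A.ncard + B.ncard ≤ C.ncard + D.ncard := by
  rw [← Set.ncard_union_add_ncard_inter _ _ hA hB, ← Set.ncard_union_add_ncard_inter _ _ hC hD]
  exact Nat.add_le_add (Set.ncard_le_ncard h1 (hC.union hD))
    (Set.ncard_le_ncard h2 (hC.inter_of_left _))

theorem mem_sp {x y : P} {i : I} : i ∈ sp U x y ↔ ¬ (x ∈ U i ↔ y ∈ U i) := Iff.rfl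

theorem sp_comm (x y : P) : sp U x y = sp U y x := by
  ext i
  rw [mem_sp, mem_sp]
  tauto

theorem prop1 (a b c d : Prop) (h : ¬ ((a ↔ d) ∧ (b ↔ c) ∧ ¬ (a ↔ b)))
    (h' : ¬ (a ↔ b) ∨ ¬ (c ↔ d)) : ¬ (a ↔ d) ∨ ¬ (b ↔ c) := by
  by_cases ha : a <;> by_cases hb : b <;> by_cases hc : c <;> by_cases hd : d <;> simp_all

theorem prop2 (a b c d : Prop) (h : ¬ ((a ↔ d) ∧ (b ↔ c) ∧ ¬ (a ↔ b)))
    (h' : ¬ (a ↔ b) ∧ ¬ (c ↔ d)) : ¬ (a ↔ d) ∧ ¬ (b ↔ c) := by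
  by_cases ha : a <;> by_cases hb : b <;> by_cases hc : c <;> by_cases hd : d <;> simp_all

theorem Wsp.cross (h : Wsp U) (i j : I) (x y z w : P) (a1 : x ∈ U i ↔ z ∈ U i)
    (a2 : y ∈ U i ↔ w ∈ U i) (a3 : ¬ x ∈ U i ↔ y ∈ U i) (b1 : x ∈ U j ↔ w ∈ U j)
    (b2 : y ∈ U j ↔ z ∈ U j) (b3 : ¬ x ∈ U j ↔ y ∈ U j) : False := by
  by_cases c1 : x ∈ U i
  · have y1 : y ∉ U i := fun h => a3.2 h c1
    have z1 := a1.1 c1
    have w1 : w ∉ U i := fun h => y1 (a2.2 h)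
    by_cases c2 : x ∈ U j
    · have y2 : y ∉ U j := fun h => b3.2 h c2
      exact h.nst i j x z w y c1 c2 z1 (fun h => y2 (b2.2 h)) w1 (b1.1 c2) y1 y2
    · have y2 := b3.1 c2
      exact h.nst i j z x y w z1 (b2.1 y2) c1 c2 y1 y2 w1 (fun h => c2 (b1.2 h))
  · have y1 := a3.1 c1
    have z1 : z ∉ U i := fun h => c1 (a1.2 h)
    have w1 := a2.1 y1
    by_cases c2 : x ∈ U j
    · have y2 : y ∉ U j := fun h => b3.2 h c2
      exact h.nst i j w y x z w1 (b1.1 c2) y1 y2 c1 c2 z1 (fun h => y2 (b2.2 h))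
    · have y2 := b3.1 c2
      exact h.nst i j y w z x y1 y2 w1 (fun h => c2 (b1.2 h)) z1 (b2.1 y2) c1 c2

theorem Wsp.tm (h : Wsp U) : TM (wd U) where
  self x := by
    have : sp U x x = ∅ := by
      ext i
      rw [mem_sp]
      simp
    unfold wd
    rw [this, Set.ncard_empty]
  symm x y := by
    unfold wd
    rw [sp_comm]
  tri x y z := by
    have h1 : sp U x z ⊆ sp U x y ∪ sp U y z := by
      intro i hi
      rw [Set.mem_union, mem_sp, mem_sp]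
      rw [mem_sp] at hi
      tauto
    have h2 := Set.ncard_le_ncard h1 ((h.fin x y).union (h.fin y z))
    have h3 := Set.ncard_union_le (sp U x y) (sp U y z)
    unfold wd
    omega
  four x y z w := by
    by_cases h1 : ∃ i, (x ∈ U i ↔ z ∈ U i) ∧ (y ∈ U i ↔ w ∈ U i) ∧ ¬ (x ∈ U i ↔ y ∈ U i)
    · by_cases h2 : ∃ j, (x ∈ U j ↔ w ∈ U j) ∧ (y ∈ U j ↔ z ∈ U j) ∧ ¬ (x ∈ U j ↔ y ∈ U j)
      · exfalso
        obtain ⟨i, a1, a2, a3⟩ := h1
        obtain ⟨j, b1, b2, b3⟩ := h2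
        exact h.cross i j x y z w a1 a2 (not_iff.1 a3) b1 b2 (not_iff.1 b3)
      · right
        have h3 : ∀ j, ¬ ((x ∈ U j ↔ w ∈ U j) ∧ (y ∈ U j ↔ z ∈ U j) ∧ ¬ (x ∈ U j ↔ y ∈ U j)) :=
          fun j hj => h2 ⟨j, hj⟩
        have := sum_le (h.fin x y) (h.fin z w) (h.fin x w) (h.fin y z)
          (fun i hi => prop1 _ _ _ _ (h3 i) hi) (fun i hi => prop2 _ _ _ _ (h3 i) hi)
        unfold wd
        omega
    · left
      have h3 : ∀ j, ¬ ((x ∈ U j ↔ z ∈ U j) ∧ (y ∈ U j ↔ w ∈ U j) ∧ ¬ (x ∈ U j ↔ y ∈ U j)) :=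
        fun j hj => h1 ⟨j, hj⟩
      have := sum_le (h.fin x y) (h.fin w z) (h.fin x z) (h.fin y w)
        (fun i hi => prop1 _ _ _ _ (h3 i) hi) (fun i hi => prop2 _ _ _ _ (h3 i) hi)
      rw [sp_comm w z] at this
      unfold wd
      omega
  par x y z := ⟨(sp U x y).ncard + (sp U y z).ncard + (sp U x z).ncard, by unfold wd; omega⟩

theorem Wsp.half (h : Wsp U) {p p' q : P} (he : wd U p' q = wd U p q) :
    2 * (sp U p q ∩ sp U p p').ncard = (sp U p p').ncard := by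
  have h1 : sp U p' q = (sp U p q \ sp U p p') ∪ (sp U p p' \ sp U p q) := by
    ext i
    rw [Set.mem_union, Set.mem_sdiff, Set.mem_sdiff, mem_sp, mem_sp, mem_sp]
    tauto
  have h2 : (sp U p' q).ncard = (sp U p q \ sp U p p').ncard + (sp U p p' \ sp U p q).ncard := by
    rw [h1]
    refine Set.ncard_union_eq ?_ (h.fin p q).sdiff (h.fin p p').sdiff
    rw [Set.disjoint_left]
    rintro i ⟨a, b⟩ ⟨c, -⟩
    exact b c
  have h3 := Set.ncard_inter_add_ncard_sdiff_eq_ncard (sp U p q) (sp U p p') (h.fin p q)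
  have h4 := Set.ncard_inter_add_ncard_sdiff_eq_ncard (sp U p p') (sp U p q) (h.fin p p')
  rw [Set.inter_comm] at h4
  unfold wd at he
  omega

variable {A : Type} [Group A] [MulAction A P] [MulAction A I]

theorem sp_smul (hU : ∀ (a : A) (i : I) (x : P), a • x ∈ U (a • i) ↔ x ∈ U i) (a : A) (x y : P) :
    sp U (a • x) (a • y) = (fun i => a • i) '' sp U x y := by
  ext i
  constructor
  · intro hi
    refine ⟨a⁻¹ • i, ?_, smul_inv_smul _ _⟩
    rw [mem_sp] at hi ⊢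
    rw [← hU a (a⁻¹ • i) x, ← hU a (a⁻¹ • i) y, smul_inv_smul]
    exact hi
  · rintro ⟨j, hj, rfl⟩
    rw [mem_sp] at hj ⊢
    show ¬ (a • x ∈ U (a • j) ↔ a • y ∈ U (a • j))
    rw [hU, hU]
    exact hj

theorem wd_smul (hU : ∀ (a : A) (i : I) (x : P), a • x ∈ U (a • i) ↔ x ∈ U i) (a : A) (x y : P) :
    wd U (a • x) (a • y) = wd U x y := by
  unfold wd
  rw [sp_smul hU, Set.ncard_image_of_injective _ (MulAction.injective a)]

theorem edge_stab [Nonempty P] (h : Wsp U)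
    (hU : ∀ (a : A) (i : I) (x : P), a • x ∈ U (a • i) ↔ x ∈ U i)
    {φ ψ : TS (wd U)} (hadj : (TSg (wd U)).Adj φ ψ) (a : A) (hφ : ∀ y, φ.1 (a • y) = φ.1 y)
    (hψ : ∀ y, ψ.1 (a • y) = ψ.1 y) : ∃ k > 0, ∃ i : I, a ^ k • i = i := by
  obtain ⟨p, q, hp, hq⟩ := TS.ends hadj
  have hφn : ∀ n : ℕ, ∀ y, φ.1 (a ^ n • y) = φ.1 y := by
    intro n
    induction n with
    | zero => intro y; rw [pow_zero, one_smul]
    | succ n ih => intro y; rw [pow_succ, mul_smul, ih, hφ]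
  have hψn : ∀ n : ℕ, ∀ y, ψ.1 (a ^ n • y) = ψ.1 y := by
    intro n
    induction n with
    | zero => intro y; rw [pow_zero, one_smul]
    | succ n ih => intro y; rw [pow_succ, mul_smul, ih, hψ]
  have hd := TS.edge h.tm hadj hp hq
  have hi : ∀ n : ℕ, ∃ i ∈ sp U p q, (a ^ n)⁻¹ • i ∈ sp U p q := by
    intro n
    have hp' : ψ.1 (a ^ n • p) + 1 = φ.1 (a ^ n • p) := by rw [hφn, hψn]; exact hp
    have hq' : φ.1 (a ^ n • q) + 1 = ψ.1 (a ^ n • q) := by rw [hφn, hψn]; exact hq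
    have e1 := TS.edge h.tm hadj hp' hq
    have e2 := TS.edge h.tm hadj hp hq'
    rw [hφn] at e1 e2
    have e3 := h.half (p := p) (p' := a ^ n • p) (q := q) (e1.symm.trans hd)
    have e4 := h.half (p := q) (p' := a ^ n • q) (q := p) (by
      rw [h.tm.symm (a ^ n • q) p, h.tm.symm q p, ← e2, ← hd])
    have e5 := ψ.ge p (a ^ n • p)
    rw [hψn] at e5
    have e6 := φ.ge q (a ^ n • q)
    rw [hφn] at e6
    rw [sp_comm q p] at e4
    by_contra hcon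
    have hsub : sp U p q ⊆ (sp U p q ∩ sp U p (a ^ n • p)) ∪ (sp U p q ∩ sp U q (a ^ n • q)) := by
      intro i hi
      by_contra hn
      apply hcon
      refine ⟨i, hi, ?_⟩
      have h1 : i ∈ sp U (a ^ n • p) (a ^ n • q) := by
        rw [Set.mem_union, Set.mem_inter_iff, Set.mem_inter_iff, mem_sp, mem_sp, mem_sp] at hn
        rw [mem_sp] at hi ⊢
        tauto
      rw [sp_smul hU] at h1
      obtain ⟨j, hj, rfl⟩ := h1
      show (a ^ n)⁻¹ • a ^ n • j ∈ _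
      rw [inv_smul_smul]
      exact hj
    have e7 := Set.ncard_le_ncard hsub (((h.fin p q).inter_of_left _).union
      ((h.fin p q).inter_of_left _))
    have e8 := Set.ncard_union_le (sp U p q ∩ sp U p (a ^ n • p)) (sp U p q ∩ sp U q (a ^ n • q))
    unfold wd at hd e5 e6
    omega
  choose i hi1 hi2 using hi
  have hfin : Finite (sp U p q) := (h.fin p q).to_subtype
  obtain ⟨n, m, hne, hnm⟩ := Finite.exists_ne_map_eq_of_infinite
    (fun n : ℕ => ((⟨i n, hi1 n⟩, ⟨(a ^ n)⁻¹ • i n, hi2 n⟩) : sp U p q × sp U p q))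
  have key : ∀ n m : ℕ, n < m → i n = i m → (a ^ n)⁻¹ • i n = (a ^ m)⁻¹ • i m →
      ∃ k > 0, ∃ i : I, a ^ k • i = i := by
    intro n m hlt h1 h2
    refine ⟨m - n, by omega, (a ^ n)⁻¹ • i n, ?_⟩
    have h3 : a ^ m = a ^ n * a ^ (m - n) := by rw [← pow_add]; congr 1; omega
    have h4 : a ^ m • (a ^ n)⁻¹ • i n = a ^ n • (a ^ n)⁻¹ • i n := by
      rw [h2, smul_inv_smul, ← h2, smul_inv_smul, h1]
    rw [h3, mul_smul] at h4
    exact smul_left_cancel _ h4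
  rw [Prod.mk.injEq, Subtype.mk.injEq, Subtype.mk.injEq] at hnm
  rcases Nat.lt_or_gt_of_ne hne with h1 | h1
  · exact key n m h1 hnm.1 hnm.2
  · exact key m n h1 hnm.1.symm hnm.2.symm

end wall

end Pool.Agent.TH97.KP
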