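import Pool.Agent.TH97.KP.Step

/-!
# Virtually free groups act on trees
-/

set_option autoImplicit false

namespace Pool.Agent.TH97.KP

open Pool.Agent.H97R3.VR

section

variable {G : Type} [Group G] {F : Subgroup G}

/-- the extension order -/
def Rl (x y : Subgroup G × (G → G → ℕ)) : Prop :=
  x.1 ≤ y.1 ∧ ∀ a ∈ x.1, ∀ b ∈ x.1, y.2 a b = x.2 a b

theorem Rl.rfl' (x : Subgroup G × (G → G → ℕ)) : Rl x x := ⟨le_refl _, fun _ _ _ _ => rfl⟩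

theorem Rl.trans' {x y z : Subgroup G × (G → G → ℕ)} (h : Rl x y) (h' : Rl y z) : Rl x z :=
  ⟨h.1.trans h'.1, fun a ha b hb => (h'.2 a (h.1 ha) b (h.1 hb)).trans (h.2 a ha b hb)⟩

theorem union_LFG (S : Set (Subgroup G × (G → G → ℕ))) (hne : S.Nonempty)
    (hdir : ∀ x ∈ S, ∀ y ∈ S, ∃ z ∈ S, Rl x z ∧ Rl y z) (hLF : ∀ x ∈ S, LFG F x.1 x.2) :
    ∃ u : Subgroup G × (G → G → ℕ), (∀ x ∈ S, Rl x u) ∧ (∀ g, g ∈ u.1 ↔ ∃ x ∈ S, g ∈ x.1) ∧
      LFG F u.1 u.2 := by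
  classical
  let Z : Subgroup G :=
    { carrier := {g | ∃ x ∈ S, g ∈ x.1}
      one_mem' := by
        obtain ⟨x, hx⟩ := hne
        exact ⟨x, hx, x.1.one_mem⟩
      mul_mem' := by
        rintro a b ⟨x, hx, ha⟩ ⟨y, hy, hb⟩
        obtain ⟨z, hz, h1, h2⟩ := hdir x hx y hy
        exact ⟨z, hz, z.1.mul_mem (h1.1 ha) (h2.1 hb)⟩
      inv_mem' := by
        rintro a ⟨x, hx, ha⟩
        exact ⟨x, hx, x.1.inv_mem ha⟩ }
  have hcov2 : ∀ a b : G, a ∈ Z → b ∈ Z → ∃ x ∈ S, a ∈ x.1 ∧ b ∈ x.1 := by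
    rintro a b ⟨x, hx, ha⟩ ⟨y, hy, hb⟩
    obtain ⟨z, hz, h1, h2⟩ := hdir x hx y hy
    exact ⟨z, hz, h1.1 ha, h2.1 hb⟩
  have hcov4 : ∀ a b c e : G, a ∈ Z → b ∈ Z → c ∈ Z → e ∈ Z →
      ∃ x ∈ S, a ∈ x.1 ∧ b ∈ x.1 ∧ c ∈ x.1 ∧ e ∈ x.1 := by
    intro a b c e ha hb hc he
    obtain ⟨x, hx, h1, h2⟩ := hcov2 a b ha hb
    obtain ⟨y, hy, h3, h4⟩ := hcov2 c e hc he
    obtain ⟨z, hz, h5, h6⟩ := hdir x hx y hy
    exact ⟨z, hz, h5.1 h1, h5.1 h2, h6.1 h3, h6.1 h4⟩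
  have hdex : ∀ a b : G, ∃ n : ℕ, ∀ x ∈ S, a ∈ x.1 → b ∈ x.1 → n = x.2 a b := by
    intro a b
    by_cases h : ∃ x ∈ S, a ∈ x.1 ∧ b ∈ x.1
    · obtain ⟨x, hx, ha, hb⟩ := h
      refine ⟨x.2 a b, fun y hy ha' hb' => ?_⟩
      obtain ⟨z, hz, h1, h2⟩ := hdir x hx y hy
      rw [← h1.2 a ha b hb, h2.2 a ha' b hb']
    · exact ⟨0, fun x hx ha hb => absurd ⟨x, hx, ha, hb⟩ h⟩
  choose d hd using hdex
  refine ⟨(Z, d), fun x hx => ⟨fun g hg => ⟨x, hx, hg⟩, fun a ha b hb => hd a b x hx ha hb⟩,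
    fun g => Iff.rfl, ?_⟩
  refine ⟨⟨?_, ?_, ?_, ?_, ?_⟩, ?_, ?_, ?_⟩
  · intro a
    obtain ⟨x, hx, ha⟩ := a.2
    show d a a = 0
    rw [hd _ _ x hx ha ha]
    exact (hLF x hx).tm.self ⟨a, ha⟩
  · intro a b
    obtain ⟨x, hx, ha, hb⟩ := hcov2 a b a.2 b.2
    show d a b = d b a
    rw [hd _ _ x hx ha hb, hd _ _ x hx hb ha]
    exact (hLF x hx).tm.symm ⟨a, ha⟩ ⟨b, hb⟩
  · intro a b c
    obtain ⟨x, hx, ha, hb, hc, -⟩ := hcov4 a b c c a.2 b.2 c.2 c.2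
    show d a c ≤ d a b + d b c
    rw [hd _ _ x hx ha hb, hd _ _ x hx hb hc, hd _ _ x hx ha hc]
    exact (hLF x hx).tm.tri ⟨a, ha⟩ ⟨b, hb⟩ ⟨c, hc⟩
  · intro a b c e
    obtain ⟨x, hx, ha, hb, hc, he⟩ := hcov4 a b c e a.2 b.2 c.2 e.2
    show d a b + d c e ≤ d a c + d b e ∨ d a b + d c e ≤ d a e + d b c
    rw [hd _ _ x hx ha hb, hd _ _ x hx hc he, hd _ _ x hx ha hc, hd _ _ x hx hb he,
      hd _ _ x hx ha he, hd _ _ x hx hb hc]
    exact (hLF x hx).tm.four ⟨a, ha⟩ ⟨b, hb⟩ ⟨c, hc⟩ ⟨e, he⟩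
  · intro a b c
    obtain ⟨x, hx, ha, hb, hc, -⟩ := hcov4 a b c c a.2 b.2 c.2 c.2
    show Even (d a b + d b c + d a c)
    rw [hd _ _ x hx ha hb, hd _ _ x hx hb hc, hd _ _ x hx ha hc]
    exact (hLF x hx).tm.par ⟨a, ha⟩ ⟨b, hb⟩ ⟨c, hc⟩
  · intro a b c
    obtain ⟨x, hx, ha, hb, hc, -⟩ := hcov4 a b c c a.2 b.2 c.2 c.2
    show d (a * b) (a * c) = d b c
    rw [hd _ _ x hx (x.1.mul_mem ha hb) (x.1.mul_mem ha hc), hd _ _ x hx hb hc]
    exact (hLF x hx).inv ⟨a, ha⟩ ⟨b, hb⟩ ⟨c, hc⟩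
  · intro f hf hne
    obtain ⟨x, hx, ha⟩ := f.2
    show d 1 f < d 1 (f * f)
    rw [hd _ _ x hx x.1.one_mem ha, hd _ _ x hx x.1.one_mem (x.1.mul_mem ha ha)]
    exact (hLF x hx).fr ⟨f, ha⟩ hf (fun h =>
      hne (Subtype.ext (congrArg (fun z : x.1 => (z : G)) h)))
  · intro f
    obtain ⟨x, hx, ha⟩ := f.2
    show d 1 (f * f) ≤ d 1 f → Even (d 1 f)
    rw [hd _ _ x hx x.1.one_mem ha, hd _ _ x hx x.1.one_mem (x.1.mul_mem ha ha)]
    exact (hLF x hx).ni ⟨f, ha⟩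

variable {β : Type} (e : F ≃* FreeGroup β)

structure Inv (s : Set β) (x : Subgroup G × (G → G → ℕ)) (t : Set β) : Prop where
  fin : t.Finite
  sup : F ⊔ x.1 = ⊤
  ff : FFac F (x.1.subgroupOf F)
  ge : Fb e s ≤ x.1
  le : x.1 ⊓ F ≤ Fb e (s ∪ t)
  ne : ∃ z ∈ x.1, z ∈ F ∧ z ≠ 1
  lf : LFG F x.1 x.2

theorem Inv.step [F.Normal] [F.FiniteIndex] [IsFreeGroup F] {s : Set β}
    {x : Subgroup G × (G → G → ℕ)} {t : Set β} (h : Inv e s x t) :
    ∃ (y : Subgroup G × (G → G → ℕ)) (t' : Set β), Inv e s y t' ∧ Rl x y ∧ Fb e (s ∪ t) ≤ y.1 := by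
  obtain ⟨P, t', h1, h2, h3, h4, h5, h6⟩ := stepA e x.1 h.fin h.ge h.le
  obtain ⟨d', h7, h8⟩ := extend h3 h6 h.ff h.ne x.2 h.lf
  obtain ⟨g1, g2, g3, g4, g5⟩ := PZ.facts h3 h6
  refine ⟨(PZ P x.1 h6, d'), t', ⟨h1, ?_, ?_, h.ge.trans g1, ?_, ?_, h7⟩, ⟨g1, h8⟩, h4.trans g2⟩
  · rw [eq_top_iff, ← h.sup]
    exact sup_le_sup_left g1 F
  · have e1 : (PZ P x.1 h6).subgroupOf F = P.subgroupOf F := by
      ext y
      rw [Subgroup.mem_subgroupOf, Subgroup.mem_subgroupOf]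
      constructor
      · intro hy
        rw [← g3]
        exact ⟨hy, y.2⟩
      · intro hy
        exact g2 hy
    show FFac F ((PZ P x.1 h6).subgroupOf F)
    rw [e1]
    exact h3.ff
  · show PZ P x.1 h6 ⊓ F ≤ _
    rw [g3]
    exact h5
  · obtain ⟨z, hz1, hz2, hz3⟩ := h.ne
    exact ⟨z, g1 hz1, hz2, hz3⟩

/-- completed stages -/
structure Good (x : Subgroup G × (G → G → ℕ)) : Prop where
  ex : ∃ s, x.1 ⊓ F = Fb e s
  sup : F ⊔ x.1 = ⊤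
  ne : ∃ z ∈ x.1, z ∈ F ∧ z ≠ 1
  lf : LFG F x.1 x.2

theorem Inv.chain [F.Normal] [F.FiniteIndex] [IsFreeGroup F] {s : Set β}
    {x : Subgroup G × (G → G → ℕ)} {t : Set β} (h : Inv e s x t) :
    ∃ y : Subgroup G × (G → G → ℕ), Good e y ∧ Rl x y ∧ Fb e (s ∪ t) ≤ y.1 := by
  classical
  let St : Type := {p : (Subgroup G × (G → G → ℕ)) × Set β // Inv e s p.1 p.2}
  have hst : ∀ p : St, ∃ q : St, Rl p.1.1 q.1.1 ∧ Fb e (s ∪ p.1.2) ≤ q.1.1.1 := by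
    intro p
    obtain ⟨y, t', h1, h2, h3⟩ := Inv.step e p.2
    exact ⟨⟨(y, t'), h1⟩, h2, h3⟩
  choose nxt hn1 hn2 using hst
  let q : ℕ → St := fun n => Nat.rec ⟨(x, t), h⟩ (fun _ y => nxt y) n
  have hq0 : q 0 = ⟨(x, t), h⟩ := rfl
  have hq1 : ∀ n, q (n + 1) = nxt (q n) := fun n => rfl
  have hmono : ∀ k n, Rl (q n).1.1 (q (n + k)).1.1 := by
    intro k
    induction k with
    | zero => intro n; exact Rl.rfl' _
    | succ k ih =>
      intro n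
      refine (ih n).trans' ?_
      have := hn1 (q (n + k))
      rwa [← hq1] at this
  have hmono' : ∀ m n, m ≤ n → Rl (q m).1.1 (q n).1.1 := by
    intro m n hmn
    have := hmono (n - m) m
    rwa [Nat.add_sub_cancel' hmn] at this
  obtain ⟨u, hu1, hu2, hu3⟩ := union_LFG (F := F) (Set.range fun n => (q n).1.1) ⟨_, 0, rfl⟩ (by
    rintro _ ⟨m, rfl⟩ _ ⟨n, rfl⟩
    exact ⟨_, ⟨max m n, rfl⟩, hmono' _ _ (le_max_left _ _), hmono' _ _ (le_max_right _ _)⟩) (by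
    rintro _ ⟨n, rfl⟩
    exact (q n).2.lf)
  have hxu : Rl x u := hu1 x ⟨0, rfl⟩
  have h0 : Fb e (s ∪ t) ≤ u.1 := (hn2 (q 0)).trans (hu1 _ ⟨1, rfl⟩).1
  refine ⟨u, ⟨⟨s ∪ ⋃ n, (q n).1.2, ?_⟩, ?_, ?_, hu3⟩, hxu, h0⟩
  · apply le_antisymm
    · rintro g ⟨hg1, hg2⟩
      obtain ⟨_, ⟨n, rfl⟩, hg3⟩ := (hu2 g).1 hg1
      have h1 := (q n).2.le ⟨hg3, hg2⟩
      refine Fb_mono e ?_ h1
      exact Set.union_subset_union_right s (Set.subset_iUnion (fun n => (q n).1.2) n)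
    · refine le_inf ?_ (Fb_le e _)
      unfold Fb
      rw [Subgroup.closure_le]
      rintro _ ⟨b, hb | hb, rfl⟩
      · exact h0 (bs_mem e (Or.inl hb))
      · rw [Set.mem_iUnion] at hb
        obtain ⟨n, hb⟩ := hb
        have h1 := hn2 (q n)
        exact (hu1 _ ⟨n + 1, rfl⟩).1 (h1 (bs_mem e (Or.inr hb)))
  · rw [eq_top_iff, ← h.sup]
    exact sup_le_sup_left hxu.1 F
  · obtain ⟨z, hz1, hz2, hz3⟩ := h.ne
    exact ⟨z, hxu.1 hz1, hz2, hz3⟩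

theorem Good.step [F.Normal] [F.FiniteIndex] [IsFreeGroup F] {x : Subgroup G × (G → G → ℕ)}
    (h : Good e x) (b : β) : ∃ y, Good e y ∧ Rl x y ∧ bs e b ∈ y.1 := by
  obtain ⟨s, hs⟩ := h.ex
  have h1 : Inv e s x {b} := by
    refine ⟨Set.finite_singleton b, h.sup, ?_, ?_, ?_, h.ne, h.lf⟩
    · have h2 : x.1.subgroupOf F = (Fb e s).subgroupOf F := by
        ext y
        rw [Subgroup.mem_subgroupOf, Subgroup.mem_subgroupOf, ← hs]
        exact ⟨fun hy => ⟨hy, y.2⟩, fun hy => hy.1⟩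
      rw [h2]
      exact Fb_ff e s
    · rw [← hs]
      exact inf_le_left
    · rw [hs]
      exact Fb_mono e Set.subset_union_left
  obtain ⟨y, h2, h3, h4⟩ := Inv.chain e h1
  exact ⟨y, h2, h3, h4 (bs_mem e (Or.inr rfl))⟩

theorem Good.zorn [F.Normal] [F.FiniteIndex] [IsFreeGroup F] {x : Subgroup G × (G → G → ℕ)}
    (h : Good e x) : ∃ d : G → G → ℕ, LF F d := by
  have : Nonempty {y : Subgroup G × (G → G → ℕ) // Good e y} := ⟨⟨x, h⟩⟩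
  obtain ⟨m, hm⟩ := exists_maximal_of_nonempty_chains_bounded
    (α := {y : Subgroup G × (G → G → ℕ) // Good e y}) (r := fun y z => Rl y.1 z.1) (by
      intro c hc hne
      obtain ⟨u, hu1, hu2, hu3⟩ := union_LFG (F := F) (Subtype.val '' c) (hne.image _) (by
        rintro _ ⟨y, hy, rfl⟩ _ ⟨z, hz, rfl⟩
        by_cases hyz : y = z
        · subst hyz
          exact ⟨_, ⟨y, hy, rfl⟩, Rl.rfl' _, Rl.rfl' _⟩
        · rcases hc hy hz hyz with h1 | h1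
          · exact ⟨_, ⟨z, hz, rfl⟩, h1, Rl.rfl' _⟩
          · exact ⟨_, ⟨y, hy, rfl⟩, Rl.rfl' _, h1⟩) (by
        rintro _ ⟨y, -, rfl⟩
        exact y.2.lf)
      obtain ⟨y0, hy0⟩ := hne
      have h0 := hu1 _ ⟨y0, hy0, rfl⟩
      refine ⟨⟨u, ⟨?_, ?_, ?_, hu3⟩⟩, fun y hy => hu1 _ ⟨y, hy, rfl⟩⟩
      · refine ⟨{b | ∃ y ∈ c, bs e b ∈ y.1.1}, le_antisymm ?_ ?_⟩
        · rintro g ⟨hg1, hg2⟩
          obtain ⟨_, ⟨y, hy, rfl⟩, hg3⟩ := (hu2 g).1 hg1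
          obtain ⟨s, hs⟩ := y.2.ex
          have h1 : g ∈ Fb e s := by
            rw [← hs]
            exact ⟨hg3, hg2⟩
          refine Fb_mono e ?_ h1
          intro b hb
          have h2 : bs e b ∈ y.1.1 ⊓ F := by
            rw [hs]
            exact bs_mem e hb
          exact ⟨y, hy, h2.1⟩
        · refine le_inf ?_ (Fb_le e _)
          unfold Fb
          rw [Subgroup.closure_le]
          rintro _ ⟨b, ⟨y, hy, hb⟩, rfl⟩
          exact (hu1 _ ⟨y, hy, rfl⟩).1 hb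
      · rw [eq_top_iff, ← y0.2.sup]
        exact sup_le_sup_left h0.1 F
      · obtain ⟨z, hz1, hz2, hz3⟩ := y0.2.ne
        exact ⟨z, h0.1 hz1, hz2, hz3⟩) (fun h1 h2 => h1.trans' h2)
  have hFm : F ≤ m.1.1 := by
    have h1 : Fb e Set.univ ≤ m.1.1 := by
      unfold Fb
      rw [Subgroup.closure_le]
      rintro _ ⟨b, -, rfl⟩
      obtain ⟨y, h2, h3, h4⟩ := Good.step e m.2 b
      exact (hm ⟨y, h2⟩ h3).1 h4
    rwa [Fb_univ] at h1
  have htop : m.1.1 = ⊤ := by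
    rw [eq_top_iff, ← m.2.sup]
    exact sup_le hFm (le_refl _)
  have hlf := m.2.lf
  unfold LFG at hlf
  let j : G →* m.1.1 := MonoidHom.mk' (fun g => ⟨g, by rw [htop]; trivial⟩) (fun _ _ => rfl)
  have hj : Function.Injective j := fun a b h => congrArg Subtype.val h
  exact ⟨_, hlf.comap j hj (F' := F) (fun f hf => hf)⟩

theorem exists_good [F.Normal] [F.FiniteIndex] [IsFreeGroup F] (b : β) :
    ∃ x : Subgroup G × (G → G → ℕ), Good e x := by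
  classical
  obtain ⟨R, hR, hRc⟩ := exists_reps F
  let Y : Subgroup G := Subgroup.closure R
  have hYfg : Group.FG Y := by
    rw [Group.fg_iff_subgroup_fg]
    exact ⟨hR.toFinset, by rw [Set.Finite.coe_toFinset]⟩
  have hFYfg : Group.FG (F.subgroupOf Y) := inferInstance
  obtain ⟨E, hE1, hE2⟩ := Group.fg_iff.1 hFYfg
  -- supports
  obtain ⟨t0, ht0, h1⟩ := Fb_finset e (hE2.image (fun x : F.subgroupOf Y => ((x : Y) : G))) (by
    rintro _ ⟨x, -, rfl⟩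
    exact x.2)
  have h2 : Y ⊓ F ≤ Fb e (∅ ∪ (t0 ∪ {b})) := by
    rintro g ⟨hg1, hg2⟩
    have h3 : (⟨⟨g, hg1⟩, hg2⟩ : F.subgroupOf Y) ∈ Subgroup.closure E := by rw [hE1]; trivial
    have h4 : Subgroup.closure E ≤ (Fb e t0).comap (Y.subtype.comp (F.subgroupOf Y).subtype) := by
      rw [Subgroup.closure_le]
      intro x hx
      exact h1 _ ⟨x, hx, rfl⟩
    refine Fb_mono e ?_ (h4 h3)
    exact Set.subset_union_left.trans Set.subset_union_right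
  have h0 : Fb e ∅ ≤ Y := by
    unfold Fb
    rw [Set.image_empty, Subgroup.closure_empty]
    exact bot_le
  obtain ⟨P, t', h5, h6, h7, h8, h9, h10⟩ := stepA e Y (ht0.union (Set.finite_singleton b)) h0 h2
  obtain ⟨g1, g2, g3, g4, g5⟩ := PZ.facts h7 h10
  have hfr := free_sub F (PZ P Y h10)
  -- absolute finite generation
  have hfg : RFG (F.subgroupOf (PZ P Y h10)) (rel (F.subgroupOf (PZ P Y h10)) ⊥) := by
    obtain ⟨E', hE1', hE2'⟩ := g5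
    let j : F.subgroupOf Y →* F.subgroupOf (PZ P Y h10) :=
      MonoidHom.mk' (fun x => ⟨⟨((x : Y) : G), g1 (x : Y).2⟩, x.2⟩) (fun x y => rfl)
    refine ⟨j '' E ∪ E', (hE2.image _).union hE1', ?_⟩
    rw [eq_top_iff, ← hE2', Subgroup.closure_le]
    rintro x (hx | hx)
    · have hx' : ((x : PZ P Y h10) : G) ∈ Y := hx
      have h3 : (⟨⟨((x : PZ P Y h10) : G), hx'⟩, x.2⟩ : F.subgroupOf Y) ∈ Subgroup.closure E := by
        rw [hE1]; trivial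
      have h4 : Subgroup.closure E ≤ (Subgroup.closure
          (rel (F.subgroupOf (PZ P Y h10)) ⊥ ∪ (j '' E ∪ E'))).comap j := by
        rw [Subgroup.closure_le]
        intro y hy
        exact Subgroup.subset_closure (Or.inr (Or.inl ⟨y, hy, rfl⟩))
      exact h4 h3
    · exact Subgroup.subset_closure (Or.inr (Or.inr hx))
  obtain ⟨d0, hd0⟩ := AT _ (PZ P Y h10) (F.subgroupOf (PZ P Y h10)) hfg (Nat.lt_succ_self _)
  obtain ⟨d, hd, -⟩ := LFG.of (PZ P Y h10) d0 hd0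
  have hInv : Inv e ∅ (PZ P Y h10, d) t' := by
    refine ⟨h5, ?_, ?_, h0.trans g1, ?_, ?_, hd⟩
    · rw [eq_top_iff]
      intro g _
      obtain ⟨f, hf, r, hr, rfl⟩ := hRc g
      exact Subgroup.mul_mem_sup hf (g1 (Subgroup.subset_closure hr))
    · have e1 : (PZ P Y h10).subgroupOf F = P.subgroupOf F := by
        ext y
        rw [Subgroup.mem_subgroupOf, Subgroup.mem_subgroupOf]
        constructor
        · intro hy
          rw [← g3]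
          exact ⟨hy, y.2⟩
        · intro hy
          exact g2 hy
      show FFac F ((PZ P Y h10).subgroupOf F)
      rw [e1]
      exact h7.ff
    · show PZ P Y h10 ⊓ F ≤ _
      rw [g3]
      exact h9
    · refine ⟨bs e b, g2 (h8 (bs_mem e (Or.inr (Or.inr rfl)))), bs_mem_F e b, ?_⟩
      intro h11
      have h12 : (1 : G) ∈ Fb e (∅ : Set β) := Subgroup.one_mem _
      rw [← h11] at h12
      exact bs_Fb e h12
  obtain ⟨y, hy, -, -⟩ := Inv.chain e hInv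
  exact ⟨y, hy⟩

end

/-- every virtually free group acts on a tree such that the free subgroup acts freely -/
theorem KPS {G : Type} [Group G] (F : Subgroup G) [F.Normal] [F.FiniteIndex] [IsFreeGroup F] :
    ∃ d : G → G → ℕ, LF F d := by
  by_cases hne : Nonempty (IsFreeGroup.Generators F)
  · obtain ⟨b⟩ := hne
    obtain ⟨x, hx⟩ := exists_good (IsFreeGroup.toFreeGroup F) b
    exact hx.zorn _
  · rw [not_nonempty_iff] at hne
    obtain ⟨T, Y, act, h1, -, t, -⟩ := point_tree G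
    refine ⟨_, h1.lf F ?_ t⟩
    intro f hf _ _
    have e := IsFreeGroup.toFreeGroup F
    have h2 : e ⟨f, hf⟩ = e 1 := Subsingleton.elim _ _
    exact congrArg Subtype.val (e.injective h2)

end Pool.Agent.TH97.KP
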